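import Mathlib
import Pool.Agent.Lib_helper76.TCL.Defs
import Pool.Agent.Lib_helper76.TCL.Defs2

set_option autoImplicit false

namespace Pool.Agent.TCL

open Complex

theorem quad_GI : Quad GI I := by
  refine ⟨by simp, ?_⟩
  intro z
  constructor
  · rintro ⟨x, rfl⟩
    exact ⟨x.re, x.im, GaussianInt.toComplex_def x⟩
  · rintro ⟨a, b, rfl⟩
    exact ⟨⟨a, b⟩, GaussianInt.toComplex_def' a b⟩

theorem principal_GI : IsPrincipalIdealRing GI :=
  IsPrincipalIdealRing.of_surjective GaussianInt.toComplex.rangeRestrict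
    GaussianInt.toComplex.rangeRestrict_surjective

end Pool.Agent.TCL
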