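import Mathlib
import Pool.Agent.Lib_helper76.TCL.Defs
import Pool.Agent.Lib_helper76.TCL.Defs2
import Pool.Agent.Lib_helper76.TCL.P.EX

set_option autoImplicit false

namespace Pool.Agent.TCL

open Complex

/-- the character on residues modulo `4` -/
def ey_E (x y : ZMod 4) : GaussianInt :=
  if x + y = 1 then (if x = 1 ∨ x = 3 then 1 else ⟨0, -1⟩)
  else if x + y = 3 then (if x = 1 ∨ x = 3 then -1 else ⟨0, 1⟩)
  else 0

/-- the character on the Gaussian integers -/
def ey_e (a : GaussianInt) : GaussianInt := ey_E a.re a.im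

/-- the conductor `2 + 2 i` -/
def ey_f : GaussianInt := ⟨2, 2⟩

theorem ey_mul4 : ∀ x y x' y' : ZMod 4,
    ey_E (x * x' - y * y') (x * y' + y * x') = ey_E x y * ey_E x' y' := by
  decide

theorem ey_per4 : ∀ x y s t : ZMod 4,
    ey_E (x + (2 * s - 2 * t)) (y + (2 * t + 2 * s)) = ey_E x y := by
  decide

theorem ey_conj4 : ∀ x y : ZMod 4, ey_E x (-y) = star (ey_E x y) := by
  decide

theorem ey_mul (a b : GaussianInt) : ey_e (a * b) = ey_e a * ey_e b := by
  have h := ey_mul4 a.re a.im b.re b.im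
  have h1 : (((a * b).re : ℤ) : ZMod 4) = a.re * b.re - a.im * b.im := by
    rw [Zsqrtd.re_mul]
    push_cast
    ring
  have h2 : (((a * b).im : ℤ) : ZMod 4) = a.re * b.im + a.im * b.re := by
    rw [Zsqrtd.im_mul]
    push_cast
    ring
  unfold ey_e
  rw [h1, h2, h]

theorem ey_per (a b : GaussianInt) : ey_e (a + ey_f * b) = ey_e a := by
  have h := ey_per4 a.re a.im b.re b.im
  have h1 : (((a + ey_f * b).re : ℤ) : ZMod 4) = a.re + (2 * b.re - 2 * b.im) := by
    rw [Zsqrtd.re_add, Zsqrtd.re_mul]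
    simp only [ey_f]
    push_cast
    ring
  have h2 : (((a + ey_f * b).im : ℤ) : ZMod 4) = a.im + (2 * b.im + 2 * b.re) := by
    rw [Zsqrtd.im_add, Zsqrtd.im_mul]
    simp only [ey_f]
    push_cast
    ring
  unfold ey_e
  rw [h1, h2, h]

theorem ey_star (a : GaussianInt) : ey_e (star a) = star (ey_e a) := by
  have h := ey_conj4 a.re a.im
  unfold ey_e
  rw [Zsqrtd.re_star, Zsqrtd.im_star]
  push_cast
  exact h

theorem ey_one : ey_e 1 = 1 := by decide

/-- divisibility by the conductor -/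
theorem ey_dvd (a : GaussianInt) (h1 : 2 ∣ a.re) (h2 : 2 ∣ a.im) (h3 : 4 ∣ a.re + a.im) :
    ey_f ∣ a := by
  obtain ⟨p, hp⟩ := h1
  obtain ⟨q, hq⟩ := h2
  obtain ⟨s, hs⟩ := h3
  refine ⟨⟨s, q - s⟩, ?_⟩
  apply Zsqrtd.ext
  · rw [Zsqrtd.re_mul]
    simp only [ey_f]
    omega
  · rw [Zsqrtd.im_mul]
    simp only [ey_f]
    omega

theorem ey_unit4 : ∀ x y : ZMod 4, ey_E x y ≠ 0 →
    ey_E x y * star (ey_E x y) = 1 ∧
      2 * (x - (((star (ey_E x y)).re : ℤ) : ZMod 4)) = 0 ∧
      2 * (y - (((star (ey_E x y)).im : ℤ) : ZMod 4)) = 0 ∧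
      (x - (((star (ey_E x y)).re : ℤ) : ZMod 4)) +
        (y - (((star (ey_E x y)).im : ℤ) : ZMod 4)) = 0 := by
  decide

theorem ey_two (z : ℤ) (h : 2 * (z : ZMod 4) = 0) : 2 ∣ z := by
  have h1 : (((2 * z : ℤ)) : ZMod 4) = 0 := by
    push_cast
    exact h
  have h2 := (ZMod.intCast_zmod_eq_zero_iff_dvd (2 * z) 4).mp h1
  push_cast at h2
  omega

theorem ey_coprime (a : GaussianInt) (h : ey_e a ≠ 0) : IsCoprime a ey_f := by
  obtain ⟨h1, h2, h3, h4⟩ := ey_unit4 a.re a.im h
  have h5 : ey_f ∣ a - star (ey_e a) := by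
    apply ey_dvd
    · apply ey_two
      rw [Zsqrtd.re_sub]
      push_cast
      exact h2
    · apply ey_two
      rw [Zsqrtd.im_sub]
      push_cast
      exact h3
    · have h6 : (((a - star (ey_e a)).re + (a - star (ey_e a)).im : ℤ) : ZMod 4) = 0 := by
        rw [Zsqrtd.re_sub, Zsqrtd.im_sub]
        push_cast
        exact h4
      have h7 := (ZMod.intCast_zmod_eq_zero_iff_dvd _ 4).mp h6
      exact_mod_cast h7
  obtain ⟨b, hb⟩ := h5
  refine ⟨ey_e a, - (ey_e a * b), ?_⟩
  have h8 : ey_e a * star (ey_e a) = 1 := h1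
  linear_combination h8 + ey_e a * hb

theorem ey_isUnit (a : GaussianInt) (h : IsCoprime a ey_f) : IsUnit (ey_e a) := by
  obtain ⟨r, s, hrs⟩ := h
  have h1 : ey_e (r * a + ey_f * s) = 1 := by
    rw [mul_comm ey_f s, hrs, ey_one]
  rw [ey_per, ey_mul, mul_comm] at h1
  exact IsUnit.of_mul_eq_one _ h1

theorem ey_inv (u : GaussianInt) (hu : IsUnit u) : ey_e u * u = 1 := by
  have h1 : u.norm = 1 := by
    have h2 := Zsqrtd.norm_eq_one_iff.mpr hu
    have h3 := GaussianInt.abs_natCast_norm u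
    rw [h2] at h3
    exact_mod_cast h3.symm
  rw [Zsqrtd.norm_def] at h1
  have h4 : u.re * u.re + u.im * u.im = 1 := by linarith
  have h5 : -1 ≤ u.re ∧ u.re ≤ 1 := by constructor <;> nlinarith
  have h6 : -1 ≤ u.im ∧ u.im ≤ 1 := by constructor <;> nlinarith
  obtain ⟨x, y⟩ := u
  simp only at h4 h5 h6
  obtain ⟨h5a, h5b⟩ := h5
  obtain ⟨h6a, h6b⟩ := h6
  interval_cases x <;> interval_cases y <;> first | (exfalso; omega) | decide

/-- a proper divisor of `2 + 2 i` divides `2` -/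
theorem ey_proper (g : GaussianInt) (h : g ∣ ey_f) (h' : ¬ ey_f ∣ g) : g ∣ 2 := by
  obtain ⟨k, hk⟩ := h
  have hu : ¬ IsUnit k := by
    intro hu
    obtain ⟨l, hl⟩ := hu.exists_right_inv
    apply h'
    refine ⟨l, ?_⟩
    rw [hk, mul_assoc, hl, mul_one]
  have hn : g.norm * k.norm = 8 := by
    rw [← Zsqrtd.norm_mul, ← hk]
    decide
  have hk0 : 0 ≤ k.norm := GaussianInt.norm_nonneg k
  have hk1 : k.norm ≠ 1 := by
    intro h1
    apply hu
    apply Zsqrtd.norm_eq_one_iff.mp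
    omega
  have hk2 : k.norm ∣ 8 := ⟨g.norm, by linarith⟩
  have hk3 : k.norm ≤ 8 := Int.le_of_dvd (by norm_num) hk2
  have hev : 2 ∣ k.norm := by
    generalize k.norm = w at hk0 hk1 hk2 hk3
    interval_cases w <;> omega
  rw [Zsqrtd.norm_def] at hev
  have hev2 : 2 ∣ k.re + k.im := by
    obtain ⟨w, hw⟩ := hev
    have hx := Int.even_or_odd k.re
    have hy := Int.even_or_odd k.im
    rcases hx with ⟨x, hx⟩ | ⟨x, hx⟩ <;> rcases hy with ⟨y, hy⟩ | ⟨y, hy⟩
    · omega
    · exfalso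
      rw [hx, hy] at hw
      have : 2 * (2 * (x * x) + 2 * (y * y) + 2 * y - w) = -1 := by linarith
      omega
    · exfalso
      rw [hx, hy] at hw
      have : 2 * (2 * (x * x) + 2 * (y * y) + 2 * x - w) = -1 := by linarith
      omega
    · omega
  obtain ⟨s, hs⟩ := hev2
  have hk4 : k = ⟨1, 1⟩ * ⟨s, s - k.re⟩ := by
    apply Zsqrtd.ext
    · rw [Zsqrtd.re_mul]
      simp only
      ring
    · rw [Zsqrtd.im_mul]
      simp only
      linarith
  refine ⟨⟨s, s - k.re⟩, ?_⟩
  have hne : (⟨1, 1⟩ : GaussianInt) ≠ 0 := by decide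
  apply mul_left_cancel₀ hne
  have h9 : (⟨1, 1⟩ : GaussianInt) * 2 = ey_f := by decide
  rw [h9, hk]
  nth_rw 1 [hk4]
  ring

theorem ey_prim (g : GaussianInt) (h : g ∣ ey_f) (h' : ¬ ey_f ∣ g) :
    ∃ a, IsCoprime a ey_f ∧ g ∣ a - 1 ∧ ey_e a ≠ 1 := by
  refine ⟨3, ey_coprime 3 (by decide), ?_, by decide⟩
  have h1 := ey_proper g h h'
  have h2 : (3 : GaussianInt) - 1 = 2 := by decide
  rw [h2]
  exact h1

/-- the isomorphism of `ℤ[i]` and `GI` -/
noncomputable def ey_iso : GaussianInt ≃+* GI :=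
  RingEquiv.ofBijective GaussianInt.toComplex.rangeRestrict
    ⟨fun _ _ h => GaussianInt.toComplex_inj.mp (congrArg Subtype.val h),
      GaussianInt.toComplex.rangeRestrict_surjective⟩

theorem ey_coe (a : GaussianInt) : ((ey_iso a : GI) : ℂ) = GaussianInt.toComplex a := rfl

theorem ey_cop (a : GaussianInt) (h : IsCoprime (ey_iso a) (ey_iso ey_f)) :
    IsCoprime a ey_f := by
  have h1 := h.map ey_iso.symm.toRingHom
  simpa using h1

theorem ey_dvd_iff (a b : GaussianInt) (h : ey_iso a ∣ ey_iso b) : a ∣ b := by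
  obtain ⟨c, hc⟩ := h
  refine ⟨ey_iso.symm c, ?_⟩
  apply ey_iso.injective
  rw [map_mul, hc, RingEquiv.apply_symm_apply]

/-- the conductor of the elliptic curve `y² = x³ - x`: `ε(a)` is the inverse of the unit which is
congruent to `a` modulo `2 + 2 i` -/
theorem exists_GC : ∃ (f : GI) (ε : GI → GI), (f : ℂ) = 2 + 2 * I ∧ f ≠ 0 ∧ GC GI f ε := by
  have hf : ((ey_iso ey_f : GI) : ℂ) = 2 + 2 * I := by
    rw [ey_coe, ey_f, GaussianInt.toComplex_def']
    push_cast
    ring
  refine ⟨ey_iso ey_f, fun a => ey_iso (ey_e (ey_iso.symm a)), hf, ?_, ?_⟩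
  · intro h0
    have h1 : ey_f = 0 := by
      apply ey_iso.injective
      rw [h0, map_zero]
    revert h1
    decide
  · constructor
    · intro a b
      show ey_iso (ey_e (ey_iso.symm (a * b))) = _
      rw [map_mul, ey_mul, map_mul]
    · intro a b
      show ey_iso (ey_e (ey_iso.symm (a + ey_iso ey_f * b))) = _
      rw [map_add, map_mul, RingEquiv.symm_apply_apply, ey_per]
    · intro a ha
      obtain ⟨x, rfl⟩ := ey_iso.surjective a
      show IsUnit (ey_iso (ey_e (ey_iso.symm (ey_iso x))))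
      rw [RingEquiv.symm_apply_apply]
      exact (ey_isUnit x (ey_cop x ha)).map ey_iso
    · intro a ha
      obtain ⟨x, rfl⟩ := ey_iso.surjective a
      show ey_iso (ey_e (ey_iso.symm (ey_iso x))) = 0
      rw [RingEquiv.symm_apply_apply]
      by_contra hne
      apply ha
      have h1 : ey_e x ≠ 0 := by
        intro h0
        exact hne (by rw [h0, map_zero])
      exact (ey_coprime x h1).map ey_iso.toRingHom
    · intro u hu
      obtain ⟨x, rfl⟩ := ey_iso.surjective u
      show ey_iso (ey_e (ey_iso.symm (ey_iso x))) * ey_iso x = 1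
      have hx : IsUnit x := by
        have h1 := hu.map ey_iso.symm
        rwa [RingEquiv.symm_apply_apply] at h1
      rw [RingEquiv.symm_apply_apply, ← map_mul, ey_inv x hx, map_one]
    · intro a a' haa
      obtain ⟨x, rfl⟩ := ey_iso.surjective a
      obtain ⟨y, rfl⟩ := ey_iso.surjective a'
      show ((ey_iso (ey_e (ey_iso.symm (ey_iso y))) : GI) : ℂ) =
        starRingEnd ℂ ((ey_iso (ey_e (ey_iso.symm (ey_iso x))) : GI) : ℂ)
      rw [RingEquiv.symm_apply_apply, RingEquiv.symm_apply_apply, ey_coe, ey_coe]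
      have h1 : y = star x := by
        apply GaussianInt.toComplex_inj.mp
        rw [GaussianInt.toComplex_star]
        exact haa
      rw [h1, ey_star, GaussianInt.toComplex_star]
    · intro g hg hg'
      obtain ⟨y, rfl⟩ := ey_iso.surjective g
      obtain ⟨a, ha, hb, hc⟩ := ey_prim y (ey_dvd_iff _ _ hg)
        (fun h => hg' (map_dvd ey_iso h))
      refine ⟨ey_iso a, ha.map ey_iso.toRingHom, ?_, ?_⟩
      · have h1 := map_dvd ey_iso hb
        rwa [map_sub, map_one] at h1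
      · show ey_iso (ey_e (ey_iso.symm (ey_iso a))) ≠ 1
        rw [RingEquiv.symm_apply_apply]
        intro h1
        apply hc
        apply ey_iso.injective
        rw [h1, map_one]

end Pool.Agent.TCL
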