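import Mathlib
import Pool.Agent.Lib_helper76.TCL.Defs
import Pool.Agent.Lib_helper76.TCL.Defs2

set_option autoImplicit false

namespace Pool.Agent.TCL

open Complex

/-- Let `g = gcd(f, n) = f x + n y`; take `a` from `hε.prim`, `a - 1 = g c`, and
`α = a - f x c = 1 + n y c`. -/
theorem conductor {O : Subring ℂ} (hP : IsPrincipalIdealRing O) {f : O} {ε : O → O}
    (hε : GC O f ε) (n : O) (hn : ¬ f ∣ n) :
    ∃ α : O, IsCoprime α (n * f) ∧ n ∣ α - 1 ∧ ε α ≠ 1 := by
  classical
  obtain ⟨g, hg⟩ := hP.principal (Ideal.span {f, n})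
  have hfg : f ∈ Ideal.span {g} := by
    rw [← Ideal.submodule_span_eq, ← hg]
    exact Ideal.subset_span (by simp)
  have hng : n ∈ Ideal.span {g} := by
    rw [← Ideal.submodule_span_eq, ← hg]
    exact Ideal.subset_span (by simp)
  have hgf : g ∣ f := Ideal.mem_span_singleton.1 hfg
  have hgn : g ∣ n := Ideal.mem_span_singleton.1 hng
  have hgm : g ∈ Ideal.span {f, n} := by
    rw [hg]
    exact Ideal.mem_span_singleton_self g
  obtain ⟨x, y, hxy⟩ := Ideal.mem_span_pair.1 hgm
  have hfg' : ¬ f ∣ g := fun h => hn (h.trans hgn)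
  obtain ⟨a, ha, ⟨c, hc⟩, hea⟩ := hε.prim g hgf hfg'
  have e1 : a + f * (-(x * c)) = 1 + n * (y * c) := by
    linear_combination hc - c * hxy
  refine ⟨a + f * (-(x * c)), ?_, ?_, ?_⟩
  · refine IsCoprime.mul_right ?_ ?_
    · rw [e1]
      exact ⟨1, -(y * c), by ring⟩
    · exact IsCoprime.add_mul_left_left ha _
  · rw [e1]
    exact ⟨y * c, by ring⟩
  · rw [hε.per]
    exact hea

theorem f_not_unit {O : Subring ℂ} {f : O} {ε : O → O} (hε : GC O f ε) : ¬ IsUnit f := by
  intro hu
  obtain ⟨b, hb⟩ := hu.exists_right_inv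
  have h1 : ε (-1) * (-1) = 1 := hε.inv (-1) (isUnit_one.neg)
  have h2 : ε (-1) = ε 1 := by
    have := hε.per 1 (b * (-2))
    have e : (1 : O) + f * (b * (-2)) = -1 := by
      linear_combination (-2 : O) * hb
    rw [e] at this
    exact this
  rw [h2, eps_one hε] at h1
  have h3 := congrArg (Subtype.val) h1
  norm_num at h3

end Pool.Agent.TCL
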