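import Mathlib
import Pool.Agent.Lib_helper76.TCL.Defs
import Pool.Agent.Lib_helper76.TCL.Defs2

set_option autoImplicit false

namespace Pool.Agent.TCL

open Complex

theorem qa_mul_conj (z : ℂ) : z * starRingEnd ℂ z = ((‖z‖ ^ 2 : ℝ) : ℂ) := by
  rw [Complex.mul_conj, Complex.normSq_eq_norm_sq]

theorem norm_sq_nat {O : Subring ℂ} {ω : ℂ} (hO : Quad O ω) (a : O) :
    ∃ n : ℕ, ‖(a : ℂ)‖ ^ 2 = n := by
  obtain ⟨x, y, hxy⟩ := (hO.mem _).1 a.2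
  obtain ⟨p, q, hp, hq⟩ := quad_trace hO
  have h1 : (a : ℂ) * starRingEnd ℂ (a : ℂ) = ((x ^ 2 + x * y * p + y ^ 2 * q : ℤ) : ℂ) := by
    rw [hxy]
    simp only [map_add, map_mul, map_intCast]
    push_cast
    linear_combination (x : ℂ) * y * hp + (y : ℂ) ^ 2 * hq
  rw [qa_mul_conj] at h1
  have h2 : ‖(a : ℂ)‖ ^ 2 = ((x ^ 2 + x * y * p + y ^ 2 * q : ℤ) : ℝ) := by
    exact_mod_cast h1
  have h3 : (0 : ℤ) ≤ x ^ 2 + x * y * p + y ^ 2 * q := by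
    have : (0 : ℝ) ≤ ((x ^ 2 + x * y * p + y ^ 2 * q : ℤ) : ℝ) := by
      rw [← h2]
      positivity
    exact_mod_cast this
  obtain ⟨n, hn⟩ := Int.eq_ofNat_of_zero_le h3
  refine ⟨n, ?_⟩
  rw [h2, hn]
  simp

theorem isUnit_iff_norm {O : Subring ℂ} {ω : ℂ} (hO : Quad O ω) (u : O) :
    IsUnit u ↔ ‖(u : ℂ)‖ = 1 := by
  constructor
  · intro hu
    obtain ⟨v, hv⟩ := hu.exists_right_inv
    obtain ⟨n, hn⟩ := norm_sq_nat hO u
    obtain ⟨m, hm⟩ := norm_sq_nat hO v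
    have h1 : (u : ℂ) * (v : ℂ) = 1 := by
      have := congrArg (fun z : O => (z : ℂ)) hv
      simpa using this
    have h2 : ‖(u : ℂ)‖ * ‖(v : ℂ)‖ = 1 := by
      rw [← norm_mul, h1, norm_one]
    have h3 : (n : ℝ) * m = 1 := by
      rw [← hn, ← hm, ← mul_pow, h2, one_pow]
    have h4 : n * m = 1 := by exact_mod_cast h3
    have h5 : n = 1 := Nat.eq_one_of_mul_eq_one_right h4
    rw [h5, Nat.cast_one] at hn
    exact (pow_eq_one_iff_of_nonneg (norm_nonneg _) two_ne_zero).mp hn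
  · intro hu
    refine IsUnit.of_mul_eq_one (cj hO u) ?_
    apply Subtype.ext
    change (u : ℂ) * starRingEnd ℂ (u : ℂ) = 1
    rw [qa_mul_conj, hu]
    norm_num

theorem unit_mul_conj {O : Subring ℂ} {ω : ℂ} (hO : Quad O ω) (u : O) (hu : IsUnit u) :
    (u : ℂ) * starRingEnd ℂ (u : ℂ) = 1 := by
  rw [qa_mul_conj, (isUnit_iff_norm hO u).1 hu]
  norm_num

theorem one_le_norm {O : Subring ℂ} {ω : ℂ} (hO : Quad O ω) (a : O) (ha : a ≠ 0) :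
    1 ≤ ‖(a : ℂ)‖ := by
  obtain ⟨n, hn⟩ := norm_sq_nat hO a
  have h1 : 0 < ‖(a : ℂ)‖ := norm_pos_iff.mpr (coe_ne_zero ha)
  have h2 : (0 : ℝ) < n := by
    rw [← hn]
    positivity
  have h3 : 1 ≤ n := by exact_mod_cast h2
  have h4 : (1 : ℝ) ≤ ‖(a : ℂ)‖ ^ 2 := by
    rw [hn]
    exact_mod_cast h3
  by_contra hlt
  push Not at hlt
  nlinarith

end Pool.Agent.TCL
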