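import Mathlib
import Pool.Agent.Lib_helper76.TCL.Defs
import Pool.Agent.Lib_helper76.TCL.Defs2

set_option autoImplicit false

namespace Pool.Agent.TCL

open Complex

theorem qb_norm {O : Subring ℂ} {ω : ℂ} (hO : Quad O ω) (a : O) (ha : a ≠ 0) :
    ∃ n : ℕ, n ≠ 0 ∧ a ∣ (n : O) := by
  obtain ⟨p, q, hp, hq⟩ := quad_trace hO
  obtain ⟨i, j, hij⟩ := (hO.mem (a : ℂ)).1 a.2
  have hN : (a : ℂ) * starRingEnd ℂ (a : ℂ) = ((i * i + i * j * p + j * j * q : ℤ) : ℂ) := by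
    rw [hij]
    simp only [map_add, map_mul, map_intCast]
    push_cast
    linear_combination ((i : ℂ) * j) * hp + ((j : ℂ) * j) * hq
  set m : ℤ := i * i + i * j * p + j * j * q with hm
  have hm0 : m ≠ 0 := by
    intro h0
    rw [h0] at hN
    have h1 : (a : ℂ) ≠ 0 := coe_ne_zero ha
    have h2 : starRingEnd ℂ (a : ℂ) ≠ 0 := by
      intro h; exact h1 ((map_eq_zero _).1 h)
    exact (mul_ne_zero h1 h2) (by simpa using hN)
  refine ⟨m.natAbs, by simpa using hm0, ?_⟩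
  have h3 : a ∣ ((m : ℤ) : O) := by
    refine ⟨cj hO a, Subtype.ext ?_⟩
    push_cast
    rw [coe_cj, hN]
  rcases Int.natAbs_eq m with h | h
  · rw [h] at h3
    simpa using h3
  · rw [h] at h3
    simpa using h3

theorem qb_finite {O : Subring ℂ} {ω : ℂ} (hO : Quad O ω) (a : O) (ha : a ≠ 0) :
    Finite (O ⧸ Ideal.span {a}) := by
  obtain ⟨n, hn, hdvd⟩ := qb_norm hO a ha
  haveI : NeZero n := ⟨hn⟩
  let w : O := ⟨ω, quad_omega hO⟩
  let g : Fin n × Fin n → O ⧸ Ideal.span {a} :=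
    fun p => Ideal.Quotient.mk _ (((p.1 : ℕ) : O) + ((p.2 : ℕ) : O) * w)
  refine Finite.of_surjective g ?_
  intro x
  obtain ⟨y, rfl⟩ := Ideal.Quotient.mk_surjective x
  obtain ⟨i, j, hij⟩ := (hO.mem (y : ℂ)).1 y.2
  have hnpos : (0 : ℤ) < n := by exact_mod_cast Nat.pos_of_ne_zero hn
  have e1 : ∀ i : ℤ, ∃ k : Fin n, ∃ r : ℤ, i = (k : ℕ) + n * r := by
    intro i
    have h0 : 0 ≤ i % n := Int.emod_nonneg _ hnpos.ne'
    have h1 : i % n < n := Int.emod_lt_of_pos _ hnpos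
    refine ⟨⟨(i % n).toNat, by omega⟩, i / n, ?_⟩
    have := Int.emod_add_mul_ediv i n
    simp only [Int.toNat_of_nonneg h0]
    omega
  obtain ⟨k1, r1, h1⟩ := e1 i
  obtain ⟨k2, r2, h2⟩ := e1 j
  refine ⟨(k1, k2), ?_⟩
  have hy : y = (((k1 : ℕ) : O) + ((k2 : ℕ) : O) * w) + (n : O) * ((r1 : O) + (r2 : O) * w) := by
    refine Subtype.ext ?_
    push_cast
    rw [hij, h1, h2]
    push_cast
    ring
  rw [hy, map_add]
  have hz : (Ideal.Quotient.mk (Ideal.span {a})) ((n : O) * ((r1 : O) + (r2 : O) * w)) = 0 := by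
    rw [Ideal.Quotient.eq_zero_iff_mem, Ideal.mem_span_singleton]
    exact Dvd.dvd.mul_right hdvd _
  rw [hz, add_zero]

theorem exists_reps {O : Subring ℂ} {ω : ℂ} (hO : Quad O ω) (a : O) (ha : a ≠ 0) :
    ∃ R : Finset O, IsReps a R := by
  haveI := qb_finite hO a ha
  refine ⟨(Set.finite_range (Quotient.out : (O ⧸ Ideal.span {a}) → O)).toFinset, ?_⟩
  have key : ∀ q : O ⧸ Ideal.span {a}, Ideal.Quotient.mk (Ideal.span {a}) (Quotient.out q) = q :=
    fun q => Quotient.out_eq q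
  intro x
  refine ⟨Quotient.out (Ideal.Quotient.mk (Ideal.span {a}) x), ⟨?_, ?_⟩, ?_⟩
  · simp
  · rw [← Ideal.mem_span_singleton, ← Ideal.Quotient.eq, key]
  · rintro k ⟨hk, hak⟩
    simp only [Set.Finite.mem_toFinset, Set.mem_range] at hk
    obtain ⟨q, rfl⟩ := hk
    rw [← Ideal.mem_span_singleton, ← Ideal.Quotient.eq, key] at hak
    rw [hak]

theorem qb_sum_bij {O : Subring ℂ} {a : O} {R R' : Finset O} (hR' : IsReps a R') (φ : O → O)
    (hφ : ∀ x : O, ∃! k, k ∈ R ∧ a ∣ x - φ k) {M : Type} [AddCommMonoid M] (F : O → M)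
    (hF : ∀ x y, F (x + a * y) = F x) : ∑ k ∈ R, F (φ k) = ∑ k ∈ R', F k := by
  classical
  refine Finset.sum_bij (fun k _ => (hR' (φ k)).choose) ?_ ?_ ?_ ?_
  · intro k _
    exact (hR' (φ k)).choose_spec.1.1
  · intro k1 hk1 k2 hk2 h
    have h1 := (hR' (φ k1)).choose_spec.1.2
    have h2 := (hR' (φ k2)).choose_spec.1.2
    have h' : (hR' (φ k1)).choose = (hR' (φ k2)).choose := h
    rw [← h'] at h2
    refine (hφ ((hR' (φ k1)).choose)).unique ⟨hk1, ?_⟩ ⟨hk2, ?_⟩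
    · exact (dvd_sub_comm).1 h1
    · exact (dvd_sub_comm).1 h2
  · intro r hr
    obtain ⟨k, ⟨hk, hak⟩, -⟩ := hφ r
    refine ⟨k, hk, ?_⟩
    exact (hR' (φ k)).unique (hR' (φ k)).choose_spec.1 ⟨hr, (dvd_sub_comm).1 hak⟩
  · intro k _
    obtain ⟨y, hy⟩ := (hR' (φ k)).choose_spec.1.2
    have : φ k = (hR' (φ k)).choose + a * y := by
      rw [← hy]; abel
    conv_lhs => rw [this]
    exact hF _ _

theorem sum_reps {O : Subring ℂ} {a : O} {R R' : Finset O} (hR : IsReps a R)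
    (hR' : IsReps a R') {M : Type} [AddCommMonoid M] (F : O → M)
    (hF : ∀ x y, F (x + a * y) = F x) : ∑ k ∈ R, F k = ∑ k ∈ R', F k :=
  qb_sum_bij hR' (fun k => k) hR F hF

theorem sum_shift {O : Subring ℂ} {a : O} {R : Finset O} (hR : IsReps a R)
    {M : Type} [AddCommMonoid M] (F : O → M)
    (hF : ∀ x y, F (x + a * y) = F x) (c : O) : ∑ k ∈ R, F (k + c) = ∑ k ∈ R, F k := by
  refine qb_sum_bij hR (fun k => k + c) ?_ F hF
  intro x
  obtain ⟨k, ⟨hk, hak⟩, huniq⟩ := hR (x - c)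
  refine ⟨k, ⟨hk, ?_⟩, ?_⟩
  · have : x - (k + c) = x - c - k := by abel
    simpa only [this] using hak
  · rintro k' ⟨hk', hak'⟩
    refine huniq k' ⟨hk', ?_⟩
    have : x - c - k' = x - (k' + c) := by abel
    simpa only [this] using hak'

theorem sum_mul_coprime {O : Subring ℂ} {a : O} {R : Finset O} (hR : IsReps a R)
    {M : Type} [AddCommMonoid M] (F : O → M)
    (hF : ∀ x y, F (x + a * y) = F x) (c : O) (hc : IsCoprime c a) :
    ∑ k ∈ R, F (c * k) = ∑ k ∈ R, F k := by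
  refine qb_sum_bij hR (fun k => c * k) ?_ F hF
  intro x
  obtain ⟨u, v, huv⟩ := hc
  obtain ⟨k, ⟨hk, hak⟩, huniq⟩ := hR (u * x)
  refine ⟨k, ⟨hk, ?_⟩, ?_⟩
  · have : x - c * k = c * (u * x - k) + a * (v * x) := by
      linear_combination (-x) * huv
    simp only [this]
    exact dvd_add (Dvd.dvd.mul_left hak _) (dvd_mul_right _ _)
  · rintro k' ⟨hk', hak'⟩
    refine huniq k' ⟨hk', ?_⟩
    have : u * x - k' = u * (x - c * k') + a * (-(v * k')) := by
      linear_combination k' * huv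
    rw [this]
    exact dvd_add (Dvd.dvd.mul_left hak' _) (dvd_mul_right _ _)

theorem isReps_of_dvd_dvd {O : Subring ℂ} {a a' : O} {R : Finset O} (hR : IsReps a R)
    (h : a ∣ a') (h' : a' ∣ a) : IsReps a' R := by
  intro x
  obtain ⟨k, ⟨hk, hak⟩, huniq⟩ := hR x
  exact ⟨k, ⟨hk, h'.trans hak⟩, fun k' hk' => huniq k' ⟨hk'.1, h.trans hk'.2⟩⟩

theorem isReps_unit {O : Subring ℂ} {u : O} (hu : IsUnit u) : IsReps u {0} := by
  intro x
  refine ⟨0, ⟨by simp, hu.dvd⟩, ?_⟩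
  rintro k ⟨hk, -⟩
  simpa using hk

end Pool.Agent.TCL
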