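import Mathlib
import Pool.Agent.Lib_helper76.TCL.Defs
import Pool.Agent.Lib_helper76.TCL.Defs2

set_option autoImplicit false

namespace Pool.Agent.TCL

open Complex

theorem mem_KK {O : Subring ℂ} (z : ℂ) :
    z ∈ KK O ↔ ∃ a b : O, b ≠ 0 ∧ z = (a : ℂ) / (b : ℂ) := by
  unfold KK
  rw [Subfield.mem_closure_iff, Subring.closure_eq]
  constructor
  · rintro ⟨y, hy, w, hw, h⟩
    by_cases h0 : w = 0
    · refine ⟨0, 1, one_ne_zero, ?_⟩
      rw [← h, h0]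
      simp
    · refine ⟨⟨y, hy⟩, ⟨w, hw⟩, ?_, h.symm⟩
      intro h1
      exact h0 (congrArg Subtype.val h1)
  · rintro ⟨a, b, _, h⟩
    exact ⟨a, a.2, b, b.2, h.symm⟩

theorem coe_mem_KK {O : Subring ℂ} (a : O) : (a : ℂ) ∈ KK O :=
  Subfield.subset_closure a.2

theorem conj_mem_KK {O : Subring ℂ} {ω : ℂ} (hO : Quad O ω) {z : ℂ} (hz : z ∈ KK O) :
    starRingEnd ℂ z ∈ KK O := by
  obtain ⟨a, b, hb, h⟩ := (mem_KK z).1 hz
  rw [h, map_div₀, ← coe_cj hO a, ← coe_cj hO b]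
  exact div_mem (coe_mem_KK _) (coe_mem_KK _)

end Pool.Agent.TCL
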