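import Mathlib
import Pool.Agent.Lib_helper76.TCL.Defs
import Pool.Agent.Lib_helper76.TCL.Defs2
import Pool.Agent.Lib_helper76.TCL.P.QA
import Pool.Agent.Lib_helper76.TCL.P.QB
import Pool.Agent.Lib_helper76.TCL.P.QK
import Pool.Agent.Lib_helper76.TCL.P.AA

set_option autoImplicit false

namespace Pool.Agent.TCL

open Complex

/-- the distribution relation for the unit `c` and the representatives `{0}` -/
theorem xi_unit {O : Subring ℂ} {ω : ℂ} (hO : Quad O ω) {f : O} {ε : O → O}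
    {H : Type} [AddCommGroup H] [Module (KK O) H] {ξ : ℂ → H} (hξ : Sys O f ε H ξ)
    (u : O) (hu : IsUnit u) (c : KK O) (hc : (c : ℂ) * (u : ℂ) = 1) (t : ℂ) (ht : t ∈ KK O)
    (ht' : t ∉ O) : ξ (u * t) = c • ξ t := by
  obtain ⟨v, hv⟩ := hu.exists_right_inv
  have hvu : IsUnit v := IsUnit.of_mul_eq_one u (by rw [mul_comm]; exact hv)
  have hvc : (u : ℂ) * (v : ℂ) = 1 := by
    have := congrArg (Subtype.val) hv
    simpa using this
  have hv0 : (v : ℂ) ≠ 0 := by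
    intro h; rw [h, mul_zero] at hvc; exact zero_ne_one hvc
  have hv1 := unit_mul_conj hO v hvu
  have hcv : starRingEnd ℂ (v : ℂ) = u := by
    have : (v : ℂ) * starRingEnd ℂ (v : ℂ) = v * u := by
      rw [hv1]; linear_combination -hvc
    exact mul_left_cancel₀ hv0 this
  have hcc : (c : ℂ) * ((v : ℂ) * starRingEnd ℂ (v : ℂ) ^ 2) = 1 := by
    rw [hcv]
    linear_combination hc + (c : ℂ) * (u : ℂ) * hvc
  have h := hξ.dist t ht ht' v hvu.ne_zero {0} (isReps_unit hvu) c hcc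
  rw [Finset.sum_singleton] at h
  rw [← h]
  congr 1
  have : ((0 : O) : ℂ) = 0 := rfl
  rw [this, add_zero, eq_div_iff hv0]
  linear_combination t * hvc

/-- use `conductor` and `xi_unit` -/
theorem xi_zero {O : Subring ℂ} {ω : ℂ} (hO : Quad O ω) (hP : IsPrincipalIdealRing O) {f : O}
    {ε : O → O} (hε : GC O f ε) {H : Type} [AddCommGroup H] [Module (KK O) H] {ξ : ℂ → H}
    (hξ : Sys O f ε H ξ) (n : O) (hn : ¬ f ∣ n) (t : ℂ) (ht : t ∈ KK O) (ht' : t ∉ O)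
    (hnt : (n : ℂ) * t ∈ O) : ξ t = 0 := by
  obtain ⟨α, hα, ⟨c, hc⟩, hea⟩ := conductor hP hε n hn
  have hn0 : n ≠ 0 := by
    rintro rfl
    exact hn (dvd_zero f)
  have hαf : IsCoprime α f := IsCoprime.of_mul_right_right hα
  have hu : IsUnit (ε α) := hε.unit α hαf
  obtain ⟨v, hv⟩ := hu.exists_right_inv
  have hvc : (ε α : ℂ) * (v : ℂ) = 1 := by
    have := congrArg (Subtype.val) hv
    simpa using this
  have h1 := hξ.gal t ht ht' n α hn0 hnt hα
  have hcc : (α : ℂ) - 1 = n * c := by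
    have := congrArg (Subtype.val) hc
    simpa using this
  have h2 : (ε α : ℂ) * (α : ℂ) * t = (ε α : ℂ) * t + ((ε α * (c * ⟨_, hnt⟩) : O) : ℂ) := by
    push_cast
    linear_combination (ε α : ℂ) * t * hcc
  have hεt : (ε α : ℂ) * t ∈ KK O := mul_mem (coe_mem_KK _) ht
  rw [h2, hξ.per _ hεt] at h1
  have h3 := xi_unit hO hξ (ε α) hu ⟨(v : ℂ), coe_mem_KK v⟩
    (by show (v : ℂ) * _ = 1; rw [mul_comm]; exact hvc) t ht ht'
  rw [h3] at h1
  have h4 : ((⟨(v : ℂ), coe_mem_KK v⟩ : KK O) - 1) • ξ t = 0 := by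
    rw [sub_smul, one_smul, h1, sub_self]
  rcases smul_eq_zero.1 h4 with h5 | h5
  · exfalso
    apply hea
    have h6 : (v : ℂ) = 1 := by
      have := congrArg (Subtype.val) (sub_eq_zero.1 h5)
      simpa using this
    apply Subtype.ext
    show (ε α : ℂ) = 1
    rw [h6, mul_one] at hvc
    exact hvc
  · exact h5

/-- use `hξ.gal` and `xi_unit` -/
theorem xi_fraction {O : Subring ℂ} {ω : ℂ} (hO : Quad O ω) {f : O}
    {ε : O → O} (hε : GC O f ε) {H : Type} [AddCommGroup H] [Module (KK O) H] {ξ : ℂ → H}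
    (hξ : Sys O f ε H ξ) (n : O) (hn : f ∣ n) (hn0 : n ≠ 0) (x : O) (hx : IsCoprime x n)
    (c : KK O) (hc : (c : ℂ) = (ε x : ℂ)) : ξ ((x : ℂ) / (n : ℂ)) = c • ξ (1 / (n : ℂ)) := by
  have hnu : ¬ IsUnit n := fun h => f_not_unit hε (isUnit_of_dvd_unit hn h)
  have hnc : (n : ℂ) ≠ 0 := coe_ne_zero hn0
  have hxf : IsCoprime x f := IsCoprime.of_isCoprime_of_dvd_right hx hn
  have hu : IsUnit (ε x) := hε.unit x hxf
  obtain ⟨v, hv⟩ := hu.exists_right_inv
  have hvc : (ε x : ℂ) * (v : ℂ) = 1 := by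
    have := congrArg (Subtype.val) hv
    simpa using this
  have h1m : (1 / (n : ℂ)) ∈ KK O := div_mem (one_mem _) (coe_mem_KK n)
  have h1n : (1 / (n : ℂ)) ∉ O := by
    intro h
    apply hnu
    refine IsUnit.of_mul_eq_one (⟨_, h⟩ : O) ?_
    apply Subtype.ext
    show (n : ℂ) * (1 / (n : ℂ)) = 1
    field_simp
  have hxm : ((x : ℂ) / (n : ℂ)) ∈ KK O := div_mem (coe_mem_KK x) (coe_mem_KK n)
  have hxn : ((x : ℂ) / (n : ℂ)) ∉ O := by
    intro h
    apply hnu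
    have hd : n ∣ x := by
      refine ⟨⟨_, h⟩, ?_⟩
      apply Subtype.ext
      show (x : ℂ) = n * ((x : ℂ) / (n : ℂ))
      field_simp
    exact hx.symm.isUnit_of_dvd hd
  have hg := hξ.gal (1 / (n : ℂ)) h1m h1n n x hn0
    (by rw [mul_one_div_cancel hnc]; exact one_mem _) (IsCoprime.mul_right hx hxf)
  have e : (ε x : ℂ) * (x : ℂ) * (1 / (n : ℂ)) = (ε x : ℂ) * ((x : ℂ) / n) := by ring
  rw [e] at hg
  have h3 := xi_unit hO hξ (ε x) hu ⟨(v : ℂ), coe_mem_KK v⟩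
    (by show (v : ℂ) * _ = 1; rw [mul_comm]; exact hvc) _ hxm hxn
  rw [h3] at hg
  rw [← hg, ← mul_smul]
  have e2 : c * (⟨(v : ℂ), coe_mem_KK v⟩ : KK O) = 1 := by
    apply Subtype.ext
    show (c : ℂ) * (v : ℂ) = 1
    rw [hc]; exact hvc
  rw [e2, one_smul]

end Pool.Agent.TCL
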