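import Mathlib
import Pool.Agent.Lib_helper76.TCL.Defs
import Pool.Agent.Lib_helper76.TCL.Defs2
import Pool.Agent.Lib_helper76.TCL.P.QB

set_option autoImplicit false

namespace Pool.Agent.TCL

open Complex

/-- two representatives of the same class are equal -/
theorem qc_eq {O : Subring ℂ} {a : O} {R : Finset O} (hR : IsReps a R) {x k k' : O}
    (hk : k ∈ R) (hk' : k' ∈ R) (h : a ∣ x - k) (h' : a ∣ x - k') : k = k' := by
  obtain ⟨m, -, hm⟩ := hR x
  rw [hm k ⟨hk, h⟩, hm k' ⟨hk', h'⟩]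

/-- representatives of a product -/
theorem sum_prod_reps {O : Subring ℂ} {a b : O} (ha : a ≠ 0) {R R' R'' : Finset O}
    (hR : IsReps a R) (hR' : IsReps b R') (hR'' : IsReps (a * b) R'')
    {M : Type} [AddCommMonoid M] (F : O → M) (hF : ∀ x y, F (x + a * b * y) = F x) :
    ∑ k ∈ R, ∑ l ∈ R', F (k + a * l) = ∑ k ∈ R'', F k := by
  classical
  have hinj : Set.InjOn (fun p : O × O => p.1 + a * p.2) (R ×ˢ R' : Finset (O × O)) := by
    rintro ⟨k, l⟩ h1 ⟨k', l'⟩ h2 h
    have h1' := Finset.mem_product.1 h1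
    have h2' := Finset.mem_product.1 h2
    simp only at h1' h2' h
    have hk : k = k' := by
      refine qc_eq hR (x := k) h1'.1 h2'.1 ?_ ?_
      · rw [sub_self]; exact dvd_zero a
      · refine ⟨l' - l, ?_⟩
        linear_combination h
    rw [hk] at h
    have hl : l = l' := mul_left_cancel₀ ha (add_left_cancel h)
    rw [hk, hl]
  have hreps : IsReps (a * b) ((R ×ˢ R').image (fun p : O × O => p.1 + a * p.2)) := by
    intro x
    obtain ⟨k, ⟨hk, y, hy⟩, -⟩ := hR x
    obtain ⟨l, ⟨hl, z, hz⟩, -⟩ := hR' y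
    refine ⟨k + a * l, ⟨?_, z, ?_⟩, ?_⟩
    · exact Finset.mem_image.2 ⟨(k, l), Finset.mem_product.2 ⟨hk, hl⟩, rfl⟩
    · linear_combination hy + a * hz
    · rintro m ⟨hm, w, hw⟩
      obtain ⟨⟨k', l'⟩, hkl, rfl⟩ := Finset.mem_image.1 hm
      have hkl' := Finset.mem_product.1 hkl
      simp only at hkl' hw ⊢
      have hkk : k' = k := by
        refine qc_eq hR (x := x) hkl'.1 hk ?_ ⟨y, hy⟩
        refine ⟨b * w + l', ?_⟩
        linear_combination hw
      rw [hkk] at hw ⊢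
      have hll : l' = l := by
        refine qc_eq hR' (x := y) hkl'.2 hl ?_ ⟨z, hz⟩
        refine ⟨w, mul_left_cancel₀ ha ?_⟩
        linear_combination hw - hy
      rw [hll]
  rw [← sum_reps hreps hR'' F hF, Finset.sum_image hinj, Finset.sum_product]

/-- representatives modulo `conj a` -/
theorem sum_conj_reps {O : Subring ℂ} {ω : ℂ} (hO : Quad O ω) {a : O} {R R' : Finset O}
    (hR : IsReps a R) (hR' : IsReps (cj hO a) R') {M : Type} [AddCommMonoid M] (F : O → M)
    (hF : ∀ x y, F (x + a * y) = F x) : ∑ k ∈ R', F (cj hO k) = ∑ k ∈ R, F k := by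
  classical
  have hinj : Set.InjOn (cj hO) (R : Set O) := by
    intro x _ y _ h
    rw [← cj_cj hO x, ← cj_cj hO y, h]
  have hreps : IsReps (cj hO a) (R.image (cj hO)) := by
    intro x
    obtain ⟨k, ⟨hk, hd⟩, -⟩ := hR (cj hO x)
    refine ⟨cj hO k, ⟨Finset.mem_image_of_mem _ hk, ?_⟩, ?_⟩
    · have h := cj_dvd hO hd
      rwa [cj_sub, cj_cj] at h
    · rintro m ⟨hm, hd2⟩
      obtain ⟨k', hk', rfl⟩ := Finset.mem_image.1 hm
      have h := cj_dvd hO hd2
      rw [cj_sub, cj_cj, cj_cj] at h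
      rw [qc_eq hR (x := cj hO x) hk' hk h hd]
  have hF2 : ∀ x y, F (cj hO (x + cj hO a * y)) = F (cj hO x) := by
    intro x y
    rw [cj_add, cj_mul, cj_cj, hF]
  rw [sum_reps hR' hreps (fun k => F (cj hO k)) hF2, Finset.sum_image hinj]
  refine Finset.sum_congr rfl ?_
  intro k _
  rw [cj_cj]

end Pool.Agent.TCL
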