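import Mathlib
import Pool.Agent.Lib_helper76.TCL.Defs
import Pool.Agent.Lib_helper76.TCL.Defs2
import Pool.Agent.Lib_helper76.TCL.P.QA
import Pool.Agent.Lib_helper76.TCL.P.QB
import Pool.Agent.Lib_helper76.TCL.P.QC

set_option autoImplicit false

namespace Pool.Agent.TCL

open Complex

/-- the coordinates with respect to `1, ω` are unique -/
theorem qd_coord {O : Subring ℂ} {ω : ℂ} (hO : Quad O ω) {a b c d : ℤ}
    (h : (a : ℂ) + b * ω = c + d * ω) : a = c ∧ b = d := by
  have him : ω.im ≠ 0 := ne_of_gt hO.im_pos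
  have h1 := congrArg Complex.im h
  simp only [Complex.add_im, Complex.intCast_im, Complex.mul_im, Complex.intCast_re,
    zero_mul, add_zero, zero_add] at h1
  have h2 : (b : ℝ) = d := mul_right_cancel₀ him h1
  have hbd : b = d := by exact_mod_cast h2
  subst hbd
  have h3 : (a : ℂ) = c := add_right_cancel h
  exact ⟨by exact_mod_cast h3, rfl⟩

/-- the element `x + y ω` of `O` -/
noncomputable def qd_el {O : Subring ℂ} {ω : ℂ} (hO : Quad O ω) (p : ℕ × ℕ) : O :=
  (p.1 : O) + (p.2 : O) * ⟨ω, quad_omega hO⟩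

theorem qd_el_coe {O : Subring ℂ} {ω : ℂ} (hO : Quad O ω) (p : ℕ × ℕ) :
    ((qd_el hO p : O) : ℂ) = (p.1 : ℂ) + (p.2 : ℂ) * ω := by
  simp [qd_el]

theorem qd_el_inj {O : Subring ℂ} {ω : ℂ} (hO : Quad O ω) : Function.Injective (qd_el hO) := by
  intro p q h
  have h1 : ((qd_el hO p : O) : ℂ) = ((qd_el hO q : O) : ℂ) := by rw [h]
  rw [qd_el_coe, qd_el_coe] at h1
  have h2 : (((p.1 : ℤ) : ℂ)) + ((p.2 : ℤ) : ℂ) * ω = ((q.1 : ℤ) : ℂ) + ((q.2 : ℤ) : ℂ) * ω := by
    push_cast
    exact h1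
  obtain ⟨h3, h4⟩ := qd_coord hO h2
  exact Prod.ext (by exact_mod_cast h3) (by exact_mod_cast h4)

/-- representatives modulo a natural number -/
theorem qd_nat {O : Subring ℂ} {ω : ℂ} (hO : Quad O ω) {n : ℕ} (hn : 0 < n) :
    ∃ R : Finset O, IsReps (n : O) R ∧ R.card = n * n := by
  classical
  refine ⟨(Finset.range n ×ˢ Finset.range n).image (qd_el hO), ?_, ?_⟩
  · intro z
    obtain ⟨a, b, hab⟩ := (hO.mem (z : ℂ)).1 z.2
    have hn' : (0 : ℤ) < n := by exact_mod_cast hn
    have hn0 : (n : ℤ) ≠ 0 := ne_of_gt hn'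
    have ha0 := Int.emod_nonneg a hn0
    have ha1 := Int.emod_lt_of_pos a hn'
    have hb0 := Int.emod_nonneg b hn0
    have hb1 := Int.emod_lt_of_pos b hn'
    refine ⟨qd_el hO ((a % n).toNat, (b % n).toNat), ⟨?_, ?_⟩, ?_⟩
    · refine Finset.mem_image_of_mem _ ?_
      rw [Finset.mem_product, Finset.mem_range, Finset.mem_range]
      constructor <;> simp only <;> omega
    · refine ⟨((a / n : ℤ) : O) + ((b / n : ℤ) : O) * ⟨ω, quad_omega hO⟩, ?_⟩
      apply Subtype.ext
      rw [AddSubgroupClass.coe_sub, qd_el_coe, hab]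
      have e1 : (((a % n).toNat : ℕ) : ℂ) = ((a % n : ℤ) : ℂ) := by
        have : (((a % n).toNat : ℕ) : ℤ) = a % n := Int.toNat_of_nonneg ha0
        rw [← this]
        push_cast
        rfl
      have e2 : (((b % n).toNat : ℕ) : ℂ) = ((b % n : ℤ) : ℂ) := by
        have : (((b % n).toNat : ℕ) : ℤ) = b % n := Int.toNat_of_nonneg hb0
        rw [← this]
        push_cast
        rfl
      have e3 : (a : ℂ) = ((n : ℤ) : ℂ) * ((a / n : ℤ) : ℂ) + ((a % n : ℤ) : ℂ) := by
        have := Int.mul_ediv_add_emod a n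
        exact_mod_cast this.symm
      have e4 : (b : ℂ) = ((n : ℤ) : ℂ) * ((b / n : ℤ) : ℂ) + ((b % n : ℤ) : ℂ) := by
        have := Int.mul_ediv_add_emod b n
        exact_mod_cast this.symm
      simp only [e1, e2]
      rw [Subring.coe_mul, Subring.coe_add, Subring.coe_mul]
      simp only [Subring.coe_natCast, Subring.coe_intCast]
      have e5 : (((n : ℤ) : ℂ)) = (n : ℂ) := by push_cast; rfl
      rw [e5] at e3 e4
      linear_combination e3 + ω * e4
    · rintro k ⟨hk, hdvd⟩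
      obtain ⟨p, hp, rfl⟩ := Finset.mem_image.1 hk
      rw [Finset.mem_product, Finset.mem_range, Finset.mem_range] at hp
      obtain ⟨w, hw⟩ := hdvd
      obtain ⟨c, d, hcd⟩ := (hO.mem (w : ℂ)).1 w.2
      have h1 : (z : ℂ) - ((qd_el hO p : O) : ℂ) = (n : ℂ) * (w : ℂ) := by
        have := congrArg (fun t : O => (t : ℂ)) hw
        simpa using this
      rw [qd_el_coe, hab, hcd] at h1
      have h2 : ((a : ℤ) : ℂ) + ((b : ℤ) : ℂ) * ω
          = ((((n : ℤ) * c + (p.1 : ℤ) : ℤ)) : ℂ) + (((n : ℤ) * d + (p.2 : ℤ) : ℤ) : ℂ) * ω := by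
        push_cast
        linear_combination h1
      obtain ⟨h3, h4⟩ := qd_coord hO h2
      have h5 : a % n = (p.1 : ℤ) := by
        rw [h3, Int.mul_add_emod_self_left]
        exact Int.emod_eq_of_lt (by positivity) (by exact_mod_cast hp.1)
      have h6 : b % n = (p.2 : ℤ) := by
        rw [h4, Int.mul_add_emod_self_left]
        exact Int.emod_eq_of_lt (by positivity) (by exact_mod_cast hp.2)
      congr 1
      apply Prod.ext
      · simp only [h5, Int.toNat_natCast]
      · simp only [h6, Int.toNat_natCast]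
  · rw [Finset.card_image_of_injective _ (qd_el_inj hO), Finset.card_product,
      Finset.card_range]

/-- there are `N(a)` classes modulo `a`. Idea: for an integer `n ≥ 1` the elements `x + y ω` with
`0 ≤ x, y < n` are representatives modulo `n`; apply this to `n = a * conj a` and use the two
theorems above with `F = 1`. -/
theorem card_reps {O : Subring ℂ} {ω : ℂ} (hO : Quad O ω) {a : O} (ha : a ≠ 0) {R : Finset O}
    (hR : IsReps a R) : (R.card : ℝ) = ‖(a : ℂ)‖ ^ 2 := by
  obtain ⟨n, hn⟩ := norm_sq_nat hO a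
  have ha' : (0 : ℝ) < ‖(a : ℂ)‖ ^ 2 := by
    have : (a : ℂ) ≠ 0 := coe_ne_zero ha
    positivity
  have hn0 : 0 < n := by
    have : (0 : ℝ) < n := by rw [← hn]; exact ha'
    exact_mod_cast this
  have hmul : a * cj hO a = (n : O) := by
    apply Subtype.ext
    rw [Subring.coe_mul, coe_cj, Complex.mul_conj, Subring.coe_natCast,
      Complex.normSq_eq_norm_sq, hn]
    simp
  have hcj : cj hO a ≠ 0 := by
    intro h
    rw [h, mul_zero] at hmul
    have : ((n : O) : ℂ) = 0 := by rw [← hmul]; rfl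
    rw [Subring.coe_natCast] at this
    have h' : n = 0 := by exact_mod_cast this
    omega
  obtain ⟨R', hR'⟩ := exists_reps hO (cj hO a) hcj
  obtain ⟨Rn, hRn, hcard⟩ := qd_nat hO hn0
  have hRn' : IsReps (a * cj hO a) Rn := by rw [hmul]; exact hRn
  have h1 := sum_prod_reps ha hR hR' hRn' (M := ℕ) (fun _ => 1) (fun _ _ => rfl)
  have h2 := sum_conj_reps hO hR hR' (M := ℕ) (fun _ => 1) (fun _ _ => rfl)
  simp only [Finset.sum_const, smul_eq_mul, mul_one] at h1 h2
  rw [h2, hcard] at h1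
  rw [hn, Nat.mul_self_inj.1 h1]

end Pool.Agent.TCL
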