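import Mathlib
import Pool.Agent.Lib_helper76.TCL.Defs
import Pool.Agent.Lib_helper76.TCL.Defs2
import Pool.Agent.Lib_helper76.TCL.P.QA
import Pool.Agent.Lib_helper76.TCL.P.QB
import Pool.Agent.Lib_helper76.TCL.P.QD
import Pool.Agent.Lib_helper76.TCL.P.QK
import Pool.Agent.Lib_helper76.TCL.P.AA
import Pool.Agent.Lib_helper76.TCL.P.AB

set_option autoImplicit false

namespace Pool.Agent.TCL

open Complex

theorem ac_one_div_not_mem {O : Subring ℂ} {f : O} {ε : O → O} (hε : GC O f ε) (n : O)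
    (hn : f ∣ n) (hn0 : n ≠ 0) : (1 / (n : ℂ)) ∉ O := by
  have hnu : ¬ IsUnit n := fun h => f_not_unit hε (isUnit_of_dvd_unit hn h)
  have hnc : (n : ℂ) ≠ 0 := coe_ne_zero hn0
  intro h
  apply hnu
  refine IsUnit.of_mul_eq_one (⟨_, h⟩ : O) ?_
  apply Subtype.ext
  show (n : ℂ) * (1 / (n : ℂ)) = 1
  field_simp

/-- `p ∣ n`: all `1 + n k` are prime to `n p` and `1` modulo `f`; `q = p / N(p)³` -/
theorem prime_step_dvd {O : Subring ℂ} {ω : ℂ} (hO : Quad O ω) (hP : IsPrincipalIdealRing O)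
    {f : O} {ε : O → O} (hε : GC O f ε) (n : O) (hn : f ∣ n) (hn0 : n ≠ 0) (p : O)
    (hp : Prime p) (hpn : p ∣ n) :
    ∃ q : KK O, q ≠ 0 ∧ ∀ (H : Type) [AddCommGroup H] [Module (KK O) H] (ξ : ℂ → H),
      Sys O f ε H ξ → ξ (1 / ((n : ℂ) * (p : ℂ))) = q • ξ (1 / (n : ℂ)) := by
  obtain ⟨R, hR⟩ := exists_reps hO p hp.ne_zero
  have hpc : (p : ℂ) ≠ 0 := coe_ne_zero hp.ne_zero
  have hnc : (n : ℂ) ≠ 0 := coe_ne_zero hn0
  have hcard := card_reps hO hp.ne_zero hR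
  have hm0 : R.card ≠ 0 := by
    intro h
    rw [h] at hcard
    have : ‖(p : ℂ)‖ ^ 2 ≠ 0 := pow_ne_zero 2 (norm_ne_zero_iff.2 hpc)
    exact this (by rw [← hcard]; simp)
  have hcp : starRingEnd ℂ (p : ℂ) ≠ 0 := by simpa using hpc
  have hcm : ((p : ℂ) * starRingEnd ℂ (p : ℂ) ^ 2)⁻¹ ∈ KK O :=
    inv_mem (mul_mem (coe_mem_KK p) (pow_mem (coe_mem_KK (cj hO p)) 2))
  have hmK : (R.card : KK O) ≠ 0 := by
    intro h
    apply hm0
    have := congrArg (Subtype.val) h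
    have h' : ((R.card : ℕ) : ℂ) = 0 := by simpa using this
    exact_mod_cast h'
  refine ⟨⟨_, hcm⟩ / (R.card : KK O), div_ne_zero ?_ hmK, ?_⟩
  · intro h
    have h1 : ((p : ℂ) * starRingEnd ℂ (p : ℂ) ^ 2)⁻¹ = 0 := congrArg (Subtype.val) h
    exact inv_ne_zero (mul_ne_zero hpc (pow_ne_zero 2 hcp)) h1
  intro H _ _ ξ hξ
  have h1m : (1 / (n : ℂ)) ∈ KK O := div_mem (one_mem _) (coe_mem_KK n)
  have h1n := ac_one_div_not_mem hε n hn hn0
  have hd := hξ.dist (1 / (n : ℂ)) h1m h1n p hp.ne_zero R hR ⟨_, hcm⟩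
    (inv_mul_cancel₀ (mul_ne_zero hpc (pow_ne_zero 2 hcp)))
  have hterm : ∀ k ∈ R, ξ ((1 / (n : ℂ) + (k : ℂ)) / (p : ℂ)) = ξ (1 / ((n : ℂ) * (p : ℂ))) := by
    intro k _
    have hcop : IsCoprime (1 + n * k) (n * p) := by
      have h1 : IsCoprime (1 + n * k) n := ⟨1, -k, by ring⟩
      exact IsCoprime.mul_right h1 (IsCoprime.of_isCoprime_of_dvd_right h1 hpn)
    obtain ⟨m, rfl⟩ := hn
    have he : ε (1 + f * m * k) = 1 := by
      rw [mul_assoc, hε.per, eps_one hε]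
    have hf := xi_fraction hO hε hξ (f * m * p) (Dvd.intro _ (mul_assoc f m p).symm)
      (mul_ne_zero hn0 hp.ne_zero) (1 + f * m * k) hcop 1 (by rw [he]; rfl)
    have e1 : (1 / ((f * m : O) : ℂ) + (k : ℂ)) / (p : ℂ)
        = ((1 + f * m * k : O) : ℂ) / ((f * m * p : O) : ℂ) := by
      have hfm : ((f * m : O) : ℂ) ≠ 0 := hnc
      have e2 : ((1 + f * m * k : O) : ℂ) = 1 + ((f * m : O) : ℂ) * (k : ℂ) := by push_cast; ring
      have e3 : ((f * m * p : O) : ℂ) = ((f * m : O) : ℂ) * (p : ℂ) := by push_cast; ring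
      rw [e2, e3]
      field_simp
    rw [e1, hf, one_smul]
    congr 2
  rw [Finset.sum_congr rfl hterm, Finset.sum_const] at hd
  have e4 : (R.card : KK O) • ξ (1 / ((n : ℂ) * (p : ℂ))) = (⟨_, hcm⟩ : KK O) • ξ (1 / (n : ℂ)) := by
    rw [← hd, Nat.cast_smul_eq_nsmul]
  have e5 : (⟨_, hcm⟩ : KK O) / (R.card : KK O) = (R.card : KK O)⁻¹ * ⟨_, hcm⟩ := by
    rw [div_eq_mul_inv, mul_comm]
  rw [e5, mul_smul, ← e4, ← mul_smul, inv_mul_cancel₀ hmK, one_smul]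

end Pool.Agent.TCL
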