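import Mathlib
import Pool.Agent.Lib_helper76.TCL.Defs
import Pool.Agent.Lib_helper76.TCL.Defs2
import Pool.Agent.Lib_helper76.TCL.P.QA
import Pool.Agent.Lib_helper76.TCL.P.QB
import Pool.Agent.Lib_helper76.TCL.P.QD
import Pool.Agent.Lib_helper76.TCL.P.QK
import Pool.Agent.Lib_helper76.TCL.P.AA
import Pool.Agent.Lib_helper76.TCL.P.AB

set_option autoImplicit false

namespace Pool.Agent.TCL

open Complex

theorem ae_coprime {O : Subring ℂ} (hP : IsPrincipalIdealRing O) {p x : O} (hp : Prime p) :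
    IsCoprime p x ↔ ¬ p ∣ x := by
  have := hP
  exact hp.irreducible.coprime_iff_not_dvd

theorem ae_not_mem {O : Subring ℂ} {f : O} {ε : O → O} (hε : GC O f ε) (n : O) (hn : f ∣ n)
    (hn0 : n ≠ 0) : 1 / (n : ℂ) ∉ O := by
  intro h
  apply f_not_unit hε
  have hn' : (n : ℂ) ≠ 0 := coe_ne_zero hn0
  have hu : IsUnit n := by
    refine IsUnit.of_mul_eq_one ⟨1 / (n : ℂ), h⟩ (Subtype.ext ?_)
    push_cast
    field_simp
  exact isUnit_of_dvd_unit hn hu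

theorem ae_eps {O : Subring ℂ} {f : O} {ε : O → O} (hε : GC O f ε) (n : O) (hn : f ∣ n) (k : O) :
    ε (1 + n * k) = 1 := by
  obtain ⟨m, rfl⟩ := hn
  rw [mul_assoc, hε.per, eps_one hε]

/-- `p ∤ n`: exactly one `1 + n k0` is divisible by `p`, `1 + n k0 = p m`, `ε(m) = ε(p)⁻¹`;
the others are prime to `n p`; `q = (1 / (p conj(p)²) - ε(p)⁻¹) / (N(p) - 1)` -/
theorem prime_step_not_dvd {O : Subring ℂ} {ω : ℂ} (hO : Quad O ω) (hP : IsPrincipalIdealRing O)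
    {f : O} {ε : O → O} (hε : GC O f ε) (n : O) (hn : f ∣ n) (hn0 : n ≠ 0) (p : O)
    (hp : Prime p) (hpn : ¬ p ∣ n) :
    ∃ q : KK O, q ≠ 0 ∧ ∀ (H : Type) [AddCommGroup H] [Module (KK O) H] (ξ : ℂ → H),
      Sys O f ε H ξ → ξ (1 / ((n : ℂ) * (p : ℂ))) = q • ξ (1 / (n : ℂ)) := by
  classical
  obtain ⟨R, hR⟩ := exists_reps hO p hp.ne_zero
  have hp0 : (p : ℂ) ≠ 0 := coe_ne_zero hp.ne_zero
  have hn' : (n : ℂ) ≠ 0 := coe_ne_zero hn0
  have hcp0 : starRingEnd ℂ (p : ℂ) ≠ 0 := by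
    rw [Ne, map_eq_zero]
    exact hp0
  -- the constant of the distribution relation
  have hcm : ((p : ℂ) * starRingEnd ℂ (p : ℂ) ^ 2)⁻¹ ∈ KK O := by
    refine (KK O).inv_mem ((KK O).mul_mem (coe_mem_KK p) ((KK O).pow_mem ?_ 2))
    exact coe_mem_KK (cj hO p)
  -- inverse of `ε p`
  have hpf : IsCoprime p f := by
    rw [ae_coprime hP hp]
    exact fun h => hpn (h.trans hn)
  obtain ⟨e', he'⟩ := (hε.unit p hpf).exists_right_inv
  -- the class of `k0`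
  have hnp : IsCoprime p n := (ae_coprime hP hp).2 hpn
  obtain ⟨y, x, hxy⟩ := hnp
  obtain ⟨k0, ⟨hk0R, hk0⟩, -⟩ := hR (-x)
  have hk0p : p ∣ 1 + n * k0 := by
    have e : 1 + n * k0 = p * y - n * (-x - k0) := by
      rw [← hxy]
      ring
    rw [e]
    exact dvd_sub (dvd_mul_right p y) (hk0.mul_left n)
  have huniq : ∀ k ∈ R, p ∣ 1 + n * k → k = k0 := by
    intro k hk hkp
    have h1 : p ∣ n * (k0 - k) := by
      have e : n * (k0 - k) = (1 + n * k0) - (1 + n * k) := by ring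
      rw [e]
      exact dvd_sub hk0p hkp
    have h2 : p ∣ k0 - k := (hp.dvd_or_dvd h1).resolve_left hpn
    obtain ⟨r, -, hr⟩ := hR k0
    rw [hr k ⟨hk, h2⟩, hr k0 ⟨hk0R, by simp⟩]
  obtain ⟨m, hm⟩ := hk0p
  have hem : ε m = e' := by
    have h1 : ε p * ε m = 1 := by
      rw [← hε.mul, ← hm, ae_eps hε n hn]
    have h2 : e' * (ε p * ε m) = ε m := by
      rw [← mul_assoc, mul_comm e' (ε p), he', one_mul]
    rw [← h2, h1, mul_one]
  have hmn : IsCoprime m n := by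
    have h1 : IsCoprime (1 + n * k0) n := ⟨1, -k0, by ring⟩
    rw [hm] at h1
    exact h1.of_mul_left_right
  -- at least two classes
  have hcard : 2 ≤ R.card := by
    obtain ⟨r0, ⟨hr0, hd0⟩, -⟩ := hR 0
    obtain ⟨r1, ⟨hr1, hd1⟩, -⟩ := hR 1
    have hne : r0 ≠ r1 := by
      intro h
      subst h
      have : p ∣ 1 := by
        have e : (1 : O) = (1 - r0) - (0 - r0) := by ring
        rw [e]
        exact dvd_sub hd1 hd0
      exact hp.not_isUnit (isUnit_of_dvd_one this)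
    exact Finset.one_lt_card.2 ⟨r0, hr0, r1, hr1, hne⟩
  have hN : ((R.card : KK O) - 1) ≠ 0 := by
    intro h
    have h1 : (R.card : KK O) = 1 := sub_eq_zero.1 h
    have h2 : ((R.card : KK O) : ℂ) = 1 := by rw [h1]; rfl
    have h3 : (R.card : ℂ) = 1 := by simpa using h2
    have h4 : R.card = 1 := by exact_mod_cast h3
    omega
  -- the constant is not zero
  have hne0 : (⟨_, hcm⟩ : KK O) - ⟨(e' : ℂ), coe_mem_KK e'⟩ ≠ 0 := by
    intro h
    have h1 : ((p : ℂ) * starRingEnd ℂ (p : ℂ) ^ 2)⁻¹ = (e' : ℂ) :=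
      congrArg (Subtype.val) (sub_eq_zero.1 h)
    have h2 : ‖(e' : ℂ)‖ = 1 := by
      rw [← isUnit_iff_norm hO]
      exact IsUnit.of_mul_eq_one (ε p) (by rw [mul_comm]; exact he')
    have h3 : 1 < ‖(p : ℂ)‖ := by
      refine lt_of_le_of_ne (one_le_norm hO p hp.ne_zero) ?_
      intro h4
      exact hp.not_isUnit ((isUnit_iff_norm hO p).2 h4.symm)
    have h5 : ‖((p : ℂ) * starRingEnd ℂ (p : ℂ) ^ 2)⁻¹‖ = (‖(p : ℂ)‖ ^ 3)⁻¹ := by
      rw [norm_inv, norm_mul, norm_pow, RCLike.norm_conj]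
      ring
    rw [h1, h2] at h5
    have h6 : 1 < ‖(p : ℂ)‖ ^ 3 := one_lt_pow₀ h3 (by norm_num)
    have h7 : (‖(p : ℂ)‖ ^ 3)⁻¹ < 1 := inv_lt_one_of_one_lt₀ h6
    rw [← h5] at h7
    exact lt_irrefl _ h7
  refine ⟨((R.card : KK O) - 1)⁻¹ * (⟨_, hcm⟩ - ⟨(e' : ℂ), coe_mem_KK e'⟩),
    mul_ne_zero (inv_ne_zero hN) hne0, ?_⟩
  intro H _ _ ξ hξ
  have htK : 1 / (n : ℂ) ∈ KK O := (KK O).div_mem (KK O).one_mem (coe_mem_KK n)
  have hdist := hξ.dist (1 / (n : ℂ)) htK (ae_not_mem hε n hn hn0) p hp.ne_zero R hR ⟨_, hcm⟩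
    (by
      have : (p : ℂ) * starRingEnd ℂ (p : ℂ) ^ 2 ≠ 0 := mul_ne_zero hp0 (pow_ne_zero 2 hcp0)
      exact inv_mul_cancel₀ this)
  have hterm : ∀ k ∈ R, k ≠ k0 → ξ ((1 / (n : ℂ) + k) / p) = ξ (1 / ((n : ℂ) * (p : ℂ))) := by
    intro k hk hne
    have h1 : IsCoprime (1 + n * k) (n * p) := by
      refine IsCoprime.mul_right ⟨1, -k, by ring⟩ ?_
      refine IsCoprime.symm ((ae_coprime hP hp).2 ?_)
      exact fun h => hne (huniq k hk h)
    have h2 := xi_fraction hO hε hξ (n * p) (hn.mul_right p) (mul_ne_zero hn0 hp.ne_zero)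
      (1 + n * k) h1 1 (by rw [ae_eps hε n hn]; rfl)
    rw [one_smul] at h2
    have e1 : (1 / (n : ℂ) + k) / p = ((1 + n * k : O) : ℂ) / ((n * p : O) : ℂ) := by
      push_cast
      field_simp
    have e2 : ((n * p : O) : ℂ) = (n : ℂ) * (p : ℂ) := by push_cast; rfl
    rw [e1, h2, e2]
  have hterm0 : ξ ((1 / (n : ℂ) + k0) / p) =
      (⟨(e' : ℂ), coe_mem_KK e'⟩ : KK O) • ξ (1 / (n : ℂ)) := by
    have e1 : (1 / (n : ℂ) + k0) / p = (m : ℂ) / (n : ℂ) := by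
      have hm' : (1 : ℂ) + n * k0 = p * m := by
        have := congrArg (fun z : O => (z : ℂ)) hm
        push_cast at this
        exact this
      rw [div_eq_div_iff hp0 hn']
      have : (1 / (n : ℂ) + k0) * n = 1 + n * k0 := by field_simp
      rw [this, hm']
      ring
    rw [e1]
    exact xi_fraction hO hε hξ n hn hn0 m hmn _ (by rw [hem])
  rw [← Finset.add_sum_erase _ _ hk0R, hterm0, Finset.sum_congr rfl (fun k hk =>
    hterm k (Finset.mem_of_mem_erase hk) (Finset.ne_of_mem_erase hk)), Finset.sum_const,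
    Finset.card_erase_of_mem hk0R] at hdist
  have hsm : (R.card - 1) • ξ (1 / ((n : ℂ) * (p : ℂ))) =
      ((R.card : KK O) - 1) • ξ (1 / ((n : ℂ) * (p : ℂ))) := by
    rw [← Nat.cast_smul_eq_nsmul (KK O), Nat.cast_sub (by omega)]
    simp
  rw [hsm] at hdist
  have h5 : ((R.card : KK O) - 1) • ξ (1 / ((n : ℂ) * (p : ℂ))) =
      ((⟨_, hcm⟩ : KK O) - ⟨(e' : ℂ), coe_mem_KK e'⟩) • ξ (1 / (n : ℂ)) := by
    rw [sub_smul _ _ (ξ (1 / (n : ℂ))), ← hdist]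
    abel
  rw [mul_smul, ← h5, smul_smul, inv_mul_cancel₀ hN, one_smul]

end Pool.Agent.TCL
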