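import Mathlib
import Pool.Agent.Lib_helper76.TCL.Defs
import Pool.Agent.Lib_helper76.TCL.Defs2
import Pool.Agent.Lib_helper76.TCL.P.QK

set_option autoImplicit false

namespace Pool.Agent.TCL

open Complex

theorem coprime_fraction {O : Subring ℂ} (hP : IsPrincipalIdealRing O) {z : ℂ}
    (hz : z ∈ KK O) : ∃ x n : O, n ≠ 0 ∧ IsCoprime x n ∧ z = (x : ℂ) / (n : ℂ) := by
  obtain ⟨a, b, hb, hab⟩ := (mem_KK z).1 hz
  obtain ⟨a', ha'⟩ := IsBezout.gcd_dvd_left a b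
  obtain ⟨b', hb'⟩ := IsBezout.gcd_dvd_right a b
  obtain ⟨u, v, huv⟩ := IsBezout.gcd_eq_sum a b
  have hd : IsBezout.gcd a b ≠ 0 := by
    intro h
    rw [h, zero_mul] at hb'
    exact hb hb'
  have hb'0 : b' ≠ 0 := by
    intro h
    rw [h, mul_zero] at hb'
    exact hb hb'
  refine ⟨a', b', hb'0, ⟨u, v, ?_⟩, ?_⟩
  · apply mul_left_cancel₀ hd
    rw [mul_one]
    calc IsBezout.gcd a b * (u * a' + v * b')
        = u * (IsBezout.gcd a b * a') + v * (IsBezout.gcd a b * b') := by ring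
      _ = u * a + v * b := by rw [← ha', ← hb']
      _ = IsBezout.gcd a b := huv
  · have hdC : ((IsBezout.gcd a b : O) : ℂ) ≠ 0 := coe_ne_zero hd
    have h1 : (a : ℂ) = ((IsBezout.gcd a b : O) : ℂ) * (a' : ℂ) := by
      rw [← Subring.coe_mul, ← ha']
    have h2 : (b : ℂ) = ((IsBezout.gcd a b : O) : ℂ) * (b' : ℂ) := by
      rw [← Subring.coe_mul, ← hb']
    rw [hab, h1, h2, mul_div_mul_left _ _ hdC]

end Pool.Agent.TCL
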