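import Mathlib
import Pool.Agent.Lib_helper76.TCL.Defs
import Pool.Agent.Lib_helper76.TCL.Defs2
import Pool.Agent.Lib_helper76.TCL.P.QA
import Pool.Agent.Lib_helper76.TCL.P.QK
import Pool.Agent.Lib_helper76.TCL.P.QM
import Pool.Agent.Lib_helper76.TCL.P.AA
import Pool.Agent.Lib_helper76.TCL.P.AB
import Pool.Agent.Lib_helper76.TCL.P.AC
import Pool.Agent.Lib_helper76.TCL.P.AE

set_option autoImplicit false

namespace Pool.Agent.TCL

open Complex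

theorem ad_inv_not_mem {O : Subring ℂ} {f : O} (hf : f ≠ 0) (hu : ¬ IsUnit f) :
    1 / (f : ℂ) ∉ O := by
  intro h
  apply hu
  refine IsUnit.of_mul_eq_one ⟨1 / (f : ℂ), h⟩ ?_
  apply Subtype.ext
  push_cast
  exact mul_one_div_cancel (coe_ne_zero hf)

theorem ad_inv_mem {O : Subring ℂ} {f : O} (hf : f ≠ 0) : 1 / (f : ℂ) ∈ KK O :=
  (mem_KK _).2 ⟨1, f, hf, by push_cast; rfl⟩

/-- the induction on the prime factors of `m` -/
theorem ad_step {O : Subring ℂ} {ω : ℂ} (hO : Quad O ω) (hP : IsPrincipalIdealRing O)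
    {f : O} (hf : f ≠ 0) {ε : O → O} (hε : GC O f ε) (m : O) : m ≠ 0 →
    ∃ q : KK O, q ≠ 0 ∧ ∀ (H : Type) [AddCommGroup H] [Module (KK O) H] (ξ : ℂ → H),
      Sys O f ε H ξ → ξ (1 / ((f : ℂ) * (m : ℂ))) = q • ξ (1 / (f : ℂ)) := by
  have := hP
  refine UniqueFactorizationMonoid.induction_on_prime m (fun h => absurd rfl h) ?_ ?_
  · intro u hu hu0
    obtain ⟨v, hv⟩ := hu.exists_left_inv
    have hvc : (v : ℂ) * (u : ℂ) = 1 := by exact_mod_cast congrArg Subtype.val hv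
    have huc : (u : ℂ) ≠ 0 := coe_ne_zero hu0
    refine ⟨⟨(u : ℂ), coe_mem_KK u⟩, fun h => huc (congrArg Subtype.val h),
      fun H _ _ ξ hξ => ?_⟩
    have h1 := xi_unit hO hξ v (IsUnit.of_mul_eq_one _ hv) ⟨(u : ℂ), coe_mem_KK u⟩
      (by show (u : ℂ) * (v : ℂ) = 1; rw [mul_comm]; exact hvc) (1 / (f : ℂ)) (ad_inv_mem hf)
      (ad_inv_not_mem hf (f_not_unit hε))
    rw [← h1]
    congr 1
    have hfc : (f : ℂ) ≠ 0 := coe_ne_zero hf
    field_simp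
    rw [mul_comm]
    exact hvc.symm
  · intro a p ha hp ih hpa
    obtain ⟨q, hq0, hq⟩ := ih ha
    have hn0 : f * a ≠ 0 := mul_ne_zero hf ha
    have hst : ∃ q' : KK O, q' ≠ 0 ∧ ∀ (H : Type) [AddCommGroup H] [Module (KK O) H] (ξ : ℂ → H),
        Sys O f ε H ξ → ξ (1 / (((f * a : O) : ℂ) * (p : ℂ))) =
          q' • ξ (1 / ((f * a : O) : ℂ)) := by
      by_cases h : p ∣ f * a
      · exact prime_step_dvd hO hP hε (f * a) (dvd_mul_right f a) hn0 p hp h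
      · exact prime_step_not_dvd hO hP hε (f * a) (dvd_mul_right f a) hn0 p hp h
    obtain ⟨q', hq0', hq'⟩ := hst
    refine ⟨q' * q, mul_ne_zero hq0' hq0, fun H _ _ ξ hξ => ?_⟩
    have h1 := hq' H ξ hξ
    have h2 := hq H ξ hξ
    have e1 : ((f * a : O) : ℂ) = (f : ℂ) * (a : ℂ) := by push_cast; rfl
    have e2 : (f : ℂ) * ((p * a : O) : ℂ) = (f : ℂ) * (a : ℂ) * (p : ℂ) := by push_cast; ring
    rw [e1, h2] at h1
    rw [e2, h1, mul_smul]

theorem xi_reduced {O : Subring ℂ} {ω : ℂ} (hO : Quad O ω) (hP : IsPrincipalIdealRing O)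
    {f : O} (hf : f ≠ 0) {ε : O → O} (hε : GC O f ε) (x n : O) (hn0 : n ≠ 0)
    (hx : IsCoprime x n) (ht' : (x : ℂ) / (n : ℂ) ∉ O) :
    ∃ q : KK O, (q = 0 ↔ ¬ f ∣ n) ∧
      ∀ (H : Type) [AddCommGroup H] [Module (KK O) H] (ξ : ℂ → H),
        Sys O f ε H ξ → ξ ((x : ℂ) / (n : ℂ)) = q • ξ (1 / (f : ℂ)) := by
  by_cases hfn : f ∣ n
  · obtain ⟨m, hm⟩ := hfn
    have hm0 : m ≠ 0 := by
      intro h
      rw [hm, h, mul_zero] at hn0
      exact hn0 rfl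
    obtain ⟨q, hq0, hq⟩ := ad_step hO hP hf hε m hm0
    have hfm : f ∣ n := ⟨m, hm⟩
    have hxf : IsCoprime x f := IsCoprime.of_isCoprime_of_dvd_right hx hfm
    have hex : (⟨(ε x : ℂ), coe_mem_KK (ε x)⟩ : KK O) ≠ 0 := by
      intro h
      have h1 : (ε x : ℂ) = 0 := congrArg Subtype.val h
      exact coe_ne_zero (hε.unit x hxf).ne_zero h1
    refine ⟨⟨(ε x : ℂ), coe_mem_KK (ε x)⟩ * q, ?_, fun H _ _ ξ hξ => ?_⟩
    · constructor
      · intro h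
        exact absurd h (mul_ne_zero hex hq0)
      · intro h
        exact absurd hfm h
    · have h1 := xi_fraction hO hε hξ n ⟨m, hm⟩ hn0 x hx ⟨(ε x : ℂ), coe_mem_KK (ε x)⟩ rfl
      have h2 := hq H ξ hξ
      have e1 : (n : ℂ) = (f : ℂ) * (m : ℂ) := by rw [hm]; push_cast; rfl
      rw [h1, e1, h2, mul_smul]
  · refine ⟨0, ⟨fun _ => hfn, fun _ => rfl⟩, fun H _ _ ξ hξ => ?_⟩
    rw [zero_smul]
    have ht : (x : ℂ) / (n : ℂ) ∈ KK O := div_mem (coe_mem_KK x) (coe_mem_KK n)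
    refine xi_zero hO hP hε hξ n hfn _ ht ht' ?_
    rw [mul_div_cancel₀ _ (coe_ne_zero hn0)]
    exact x.2

/-- write `t = x / n` with `x`, `n` coprime; if `f ∣ n`, `n = f m`, induct on the prime
factors of `m` -/
theorem xi_line {O : Subring ℂ} {ω : ℂ} (hO : Quad O ω) (hP : IsPrincipalIdealRing O)
    {f : O} (hf : f ≠ 0) {ε : O → O} (hε : GC O f ε) (t : ℂ) (ht : t ∈ KK O) (ht' : t ∉ O) :
    ∃ q : KK O, ∀ (H : Type) [AddCommGroup H] [Module (KK O) H] (ξ : ℂ → H),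
      Sys O f ε H ξ → ξ t = q • ξ (1 / (f : ℂ)) := by
  obtain ⟨x, n, hn0, hx, rfl⟩ := coprime_fraction hP ht
  obtain ⟨q, -, hq⟩ := xi_reduced hO hP hf hε x n hn0 hx ht'
  exact ⟨q, hq⟩

end Pool.Agent.TCL
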