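import Mathlib
import Pool.Agent.Lib_helper76.TCL.Defs
import Pool.Agent.Lib_helper76.TCL.Defs2

set_option autoImplicit false

namespace Pool.Agent.TCL

open Complex

theorem gc_dvd {O : Subring ℂ} {ω : ℂ} (hO : Quad O ω) (hP : IsPrincipalIdealRing O)
    {f : O} {ε : O → O} (hε : GC O f ε) : f ∣ cj hO f := by
  classical
  by_contra hcon
  have hper : ∀ a b : O, ε (a + cj hO f * b) = ε a := by
    intro a b
    have h1 : a + cj hO f * b = cj hO (cj hO a + f * cj hO b) := by
      rw [cj_add, cj_mul, cj_cj, cj_cj]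
    rw [h1, eps_cj hO hε, hε.per, ← eps_cj hO hε, cj_cj]
  obtain ⟨g, hg⟩ := hP.principal (Ideal.span {f, cj hO f})
  have hfg : f ∈ Ideal.span {g} := by
    rw [← Ideal.submodule_span_eq, ← hg]
    exact Ideal.subset_span (by simp)
  have hng : cj hO f ∈ Ideal.span {g} := by
    rw [← Ideal.submodule_span_eq, ← hg]
    exact Ideal.subset_span (by simp)
  have hgf : g ∣ f := Ideal.mem_span_singleton.1 hfg
  have hgn : g ∣ cj hO f := Ideal.mem_span_singleton.1 hng
  have hgm : g ∈ Ideal.span {f, cj hO f} := by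
    rw [hg]
    exact Ideal.mem_span_singleton_self g
  obtain ⟨x, y, hxy⟩ := Ideal.mem_span_pair.1 hgm
  have hfg' : ¬ f ∣ g := fun h => hcon (h.trans hgn)
  obtain ⟨a, ha, ⟨c, hc⟩, hea⟩ := hε.prim g hgf hfg'
  apply hea
  have e1 : a = 1 + f * (x * c) + cj hO f * (y * c) := by
    linear_combination hc - c * hxy
  rw [e1, hper, hε.per, eps_one hε]

/-- `ε` is periodic modulo `conj f`, so `f ∣ conj f` by primitivity (with `g = gcd(f, conj f)`) -/
theorem f_conj {O : Subring ℂ} {ω : ℂ} (hO : Quad O ω) (hP : IsPrincipalIdealRing O)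
    {f : O} (hf : f ≠ 0) {ε : O → O} (hε : GC O f ε) :
    ∃ u : O, IsUnit u ∧ cj hO f = u * f := by
  obtain ⟨u, hu⟩ := gc_dvd hO hP hε
  refine ⟨u, ?_, by rw [hu, mul_comm]⟩
  have h1 : f = f * (u * cj hO u) := by
    have h2 := congrArg (cj hO) hu
    rw [cj_cj, cj_mul] at h2
    calc f = cj hO f * cj hO u := h2
      _ = f * (u * cj hO u) := by rw [hu]; ring
  have h3 : u * cj hO u = 1 := by
    have h4 : f * (u * cj hO u) = f * 1 := by rw [← h1, mul_one]
    exact mul_left_cancel₀ hf h4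
  exact IsUnit.of_mul_eq_one _ h3

end Pool.Agent.TCL
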