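import Mathlib
import Pool.Agent.Lib_helper76.TCL.Defs
import Pool.Agent.Lib_helper76.TCL.Defs2
import Pool.Agent.Lib_helper76.TCL.P.QB

set_option autoImplicit false

namespace Pool.Agent.TCL

open Complex

theorem qf_coprime_add {O : Subring ℂ} {a x y : O} :
    IsCoprime (x + a * y) a ↔ IsCoprime x a :=
  IsCoprime.add_mul_left_left_iff

open Classical in
theorem filter_reps {O : Subring ℂ} {a : O} {R R' : Finset O} (hR : IsReps a R)
    (hR' : IsReps a R') {M : Type} [AddCommMonoid M] (F : O → M)
    (hF : ∀ x y, F (x + a * y) = F x) :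
    ∑ k ∈ R.filter (fun k => IsCoprime k a), F k
      = ∑ k ∈ R'.filter (fun k => IsCoprime k a), F k := by
  rw [Finset.sum_filter, Finset.sum_filter]
  refine sum_reps hR hR' (fun k => if IsCoprime k a then F k else 0) ?_
  intro x y
  show (if IsCoprime (x + a * y) a then F (x + a * y) else 0) = if IsCoprime x a then F x else 0
  rw [hF x y]
  by_cases h : IsCoprime x a
  · rw [if_pos h, if_pos (qf_coprime_add.2 h)]
  · rw [if_neg h, if_neg (fun h2 => h (qf_coprime_add.1 h2))]

open Classical in
theorem filter_mul_coprime {O : Subring ℂ} {a : O} {R : Finset O} (hR : IsReps a R)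
    {M : Type} [AddCommMonoid M] (F : O → M)
    (hF : ∀ x y, F (x + a * y) = F x) (c : O) (hc : IsCoprime c a) :
    ∑ k ∈ R.filter (fun k => IsCoprime k a), F (c * k)
      = ∑ k ∈ R.filter (fun k => IsCoprime k a), F k := by
  have hF2 : ∀ x y, (if IsCoprime (x + a * y) a then F (x + a * y) else 0)
      = if IsCoprime x a then F x else 0 := by
    intro x y
    rw [hF x y]
    by_cases h : IsCoprime x a
    · rw [if_pos h, if_pos (qf_coprime_add.2 h)]
    · rw [if_neg h, if_neg (fun h2 => h (qf_coprime_add.1 h2))]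
  have h := sum_mul_coprime hR (fun k => if IsCoprime k a then F k else 0) hF2 c hc
  rw [Finset.sum_filter, Finset.sum_filter, ← h]
  refine Finset.sum_congr rfl ?_
  intro k _
  by_cases hk : IsCoprime k a
  · rw [if_pos hk, if_pos (IsCoprime.mul_left hc hk)]
  · rw [if_neg hk, if_neg (fun h2 => hk (IsCoprime.of_mul_left_right h2))]

open Classical in
theorem phi_pos {O : Subring ℂ} {a : O} {R : Finset O} (hR : IsReps a R) :
    0 < (R.filter (fun k => IsCoprime k a)).card := by
  obtain ⟨k, ⟨hk, y, hy⟩, -⟩ := hR 1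
  refine Finset.card_pos.2 ⟨k, Finset.mem_filter.2 ⟨hk, ?_⟩⟩
  refine ⟨1, y, ?_⟩
  rw [one_mul, mul_comm, ← hy]
  ring

theorem isCoprime_add_mul {O : Subring ℂ} {a x y : O} :
    IsCoprime (x + a * y) a ↔ IsCoprime x a :=
  IsCoprime.add_mul_left_left_iff

end Pool.Agent.TCL
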