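import Mathlib
import Pool.Agent.Lib_helper76.TCL.Defs
import Pool.Agent.Lib_helper76.TCL.Defs2

set_option autoImplicit false

namespace Pool.Agent.TCL

open Complex

theorem norm_pr (ω t g : ℂ) : ‖pr ω t g‖ = 1 := by
  unfold pr
  have h : 2 * (Real.pi : ℂ) * I * (((t * starRingEnd ℂ g).im / ω.im : ℝ) : ℂ)
      = ((2 * Real.pi * ((t * starRingEnd ℂ g).im / ω.im) : ℝ) : ℂ) * I := by
    push_cast
    ring
  rw [h, Complex.norm_exp_ofReal_mul_I]

theorem pr_zero (ω g : ℂ) : pr ω 0 g = 1 := by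
  unfold pr
  simp

theorem pr_add (ω t s g : ℂ) : pr ω (t + s) g = pr ω t g * pr ω s g := by
  unfold pr
  rw [← Complex.exp_add]
  congr 1
  rw [add_mul, Complex.add_im, add_div]
  push_cast
  ring

theorem pr_mem {O : Subring ℂ} {ω : ℂ} (hO : Quad O ω) (a g : O) :
    pr ω (a : ℂ) (g : ℂ) = 1 := by
  obtain ⟨p, q, hpq⟩ := (hO.mem _).1 (O.mul_mem a.2 (conj_mem hO g.2))
  have him : ω.im ≠ 0 := ne_of_gt hO.im_pos
  unfold pr
  have h : ((a : ℂ) * starRingEnd ℂ (g : ℂ)).im / ω.im = (q : ℝ) := by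
    rw [hpq]
    have h2 : ((p : ℂ) + (q : ℂ) * ω).im = (q : ℝ) * ω.im := by simp
    rw [h2, mul_div_assoc, div_self him, mul_one]
  rw [h]
  have h3 : 2 * (Real.pi : ℂ) * I * ((q : ℝ) : ℂ) = (q : ℂ) * (2 * (Real.pi : ℂ) * I) := by
    push_cast
    ring
  rw [h3, Complex.exp_int_mul_two_pi_mul_I]

theorem sb_conj (ω t g s : ℂ) (h : s.im = -(t * starRingEnd ℂ g).im) :
    starRingEnd ℂ (pr ω t g) = exp (2 * Real.pi * I * (((s).im / ω.im : ℝ) : ℂ)) := by
  unfold pr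
  rw [← Complex.exp_conj]
  congr 1
  rw [h]
  simp only [map_mul, Complex.conj_ofReal, Complex.conj_I, map_ofNat]
  push_cast
  ring

theorem pr_conj (ω t g : ℂ) :
    starRingEnd ℂ (pr ω t g) = pr ω (starRingEnd ℂ t) (starRingEnd ℂ g) := by
  refine sb_conj ω t g _ ?_
  simp only [Complex.mul_im, Complex.conj_re, Complex.conj_im]
  ring

theorem pr_conj' (ω t g : ℂ) : starRingEnd ℂ (pr ω t g) = pr ω g t := by
  refine sb_conj ω t g _ ?_
  simp only [Complex.mul_im, Complex.conj_re, Complex.conj_im]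
  ring

theorem pr_mul (ω t g c : ℂ) : pr ω (c * t) g = pr ω t (starRingEnd ℂ c * g) := by
  unfold pr
  have h : (c * t) * starRingEnd ℂ g = t * starRingEnd ℂ (starRingEnd ℂ c * g) := by
    rw [map_mul, Complex.conj_conj]
    ring
  rw [h]

end Pool.Agent.TCL
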