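import Mathlib
import Pool.Agent.Lib_helper76.TCL.Defs
import Pool.Agent.Lib_helper76.TCL.Defs2
import Pool.Agent.Lib_helper76.TCL.P.QB
import Pool.Agent.Lib_helper76.TCL.P.QF
import Pool.Agent.Lib_helper76.TCL.P.SB

set_option autoImplicit false

namespace Pool.Agent.TCL

open Complex

theorem ga_int {O : Subring ℂ} {ω : ℂ} (hO : Quad O ω) (u : O) :
    ∃ n : ℤ, 0 ≤ n ∧ starRingEnd ℂ (u : ℂ) * (u : ℂ) = n := by
  have h1 : starRingEnd ℂ (u : ℂ) * (u : ℂ) ∈ O := O.mul_mem (conj_mem hO u.2) u.2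
  obtain ⟨a, b, hab⟩ := (hO.mem _).1 h1
  have h2 : starRingEnd ℂ (u : ℂ) * (u : ℂ) = ((normSq (u : ℂ) : ℝ) : ℂ) := by
    rw [mul_comm, mul_conj]
  have h3 : (b : ℝ) * ω.im = 0 := by
    have h4 := congrArg Complex.im hab
    rw [h2] at h4
    simpa using h4.symm
  have hb : (b : ℝ) = 0 := by
    rcases mul_eq_zero.1 h3 with h | h
    · exact h
    · exact absurd h (ne_of_gt hO.im_pos)
  have hb' : (b : ℂ) = 0 := by exact_mod_cast hb
  refine ⟨a, ?_, ?_⟩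
  · have h5 : ((normSq (u : ℂ) : ℝ) : ℂ) = ((a : ℝ) : ℂ) := by
      rw [← h2, hab, hb']; simp
    have h6 : normSq (u : ℂ) = (a : ℝ) := by exact_mod_cast h5
    have h7 : (0 : ℝ) ≤ (a : ℝ) := h6 ▸ normSq_nonneg _
    exact_mod_cast h7
  · rw [hab, hb']; simp

theorem ga_unit {O : Subring ℂ} {ω : ℂ} (hO : Quad O ω) {u : O} (hu : IsUnit u) :
    (u : ℂ) * starRingEnd ℂ (u : ℂ) = 1 := by
  obtain ⟨v, hv⟩ := hu.exists_right_inv
  obtain ⟨n, hn, hn'⟩ := ga_int hO u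
  obtain ⟨m, hm, hm'⟩ := ga_int hO v
  have huv : (u : ℂ) * (v : ℂ) = 1 := by
    have := congrArg (fun z : O => (z : ℂ)) hv
    simpa using this
  have huv' : starRingEnd ℂ (u : ℂ) * starRingEnd ℂ (v : ℂ) = 1 := by
    rw [← map_mul, huv, map_one]
  have h1 : (n : ℂ) * (m : ℂ) = 1 := by
    rw [← hn', ← hm']
    linear_combination (starRingEnd ℂ (u : ℂ) * starRingEnd ℂ (v : ℂ)) * huv + huv'
  have h2 : n * m = 1 := by exact_mod_cast h1
  have h3 : n = 1 := by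
    rcases Int.eq_one_or_neg_one_of_mul_eq_one h2 with h | h
    · exact h
    · omega
  rw [mul_comm, hn', h3]; simp

theorem GS_coprime {O : Subring ℂ} {ω : ℂ} (hO : Quad O ω) {f : O}
    (hf : f ≠ 0) {ε : O → O} (hε : GC O f ε) {R : Finset O} (hR : IsReps f R) (g : O)
    (hg : IsCoprime (cj hO g) f) :
    GS O ω f ε R g = starRingEnd ℂ (ε g : ℂ) * GS O ω f ε R 1 := by
  classical
  have hfc : (f : ℂ) ≠ 0 := coe_ne_zero hf
  have hF : ∀ x y : O, starRingEnd ℂ (ε (x + f * y) : ℂ) * pr ω (((x + f * y : O) : ℂ) / f) 1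
      = starRingEnd ℂ (ε x : ℂ) * pr ω ((x : ℂ) / f) 1 := by
    intro x y
    rw [hε.per]
    congr 1
    have h1 : (((x + f * y : O) : ℂ) / f) = (x : ℂ) / f + (y : ℂ) := by
      push_cast
      field_simp
    have h2 : pr ω (y : ℂ) 1 = 1 := by
      have := pr_mem hO y 1
      simpa using this
    rw [h1, pr_add, h2, mul_one]
  have hu : ((ε (cj hO g) : O) : ℂ) * starRingEnd ℂ ((ε (cj hO g) : O) : ℂ) = 1 :=
    ga_unit hO (hε.unit _ hg)
  have hεg : ((ε (cj hO g) : O) : ℂ) = starRingEnd ℂ (ε g : ℂ) := by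
    rw [eps_cj hO hε, coe_cj]
  have key := filter_mul_coprime hR
    (fun k => starRingEnd ℂ (ε k : ℂ) * pr ω ((k : ℂ) / f) 1) hF (cj hO g) hg
  unfold GS
  rw [← hεg, ← key, Finset.mul_sum]
  refine Finset.sum_congr rfl ?_
  intro k _
  have h3 : (((cj hO g * k : O) : ℂ) / f) = starRingEnd ℂ (g : ℂ) * ((k : ℂ) / f) := by
    push_cast
    rw [coe_cj]
    ring
  have h4 : pr ω (((cj hO g * k : O) : ℂ) / f) 1 = pr ω ((k : ℂ) / f) g := by
    rw [h3, pr_mul]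
    simp
  have h5 : ((ε (cj hO g * k) : O) : ℂ) = (ε (cj hO g) : ℂ) * (ε k : ℂ) := by
    rw [hε.mul]; push_cast; rfl
  rw [h4, h5, map_mul]
  linear_combination (-(starRingEnd ℂ (ε k : ℂ) * pr ω ((k : ℂ) / f) g)) * hu

end Pool.Agent.TCL
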