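import Mathlib
import Pool.Agent.Lib_helper76.TCL.Defs
import Pool.Agent.Lib_helper76.TCL.Defs2
import Pool.Agent.Lib_helper76.TCL.P.QB
import Pool.Agent.Lib_helper76.TCL.P.QF
import Pool.Agent.Lib_helper76.TCL.P.SB
import Pool.Agent.Lib_helper76.TCL.P.GA

set_option autoImplicit false

namespace Pool.Agent.TCL

open Complex

theorem gf_pr_one (ω t g : ℂ) : pr ω t g = pr ω (t * starRingEnd ℂ g) 1 := by
  unfold pr
  rw [map_one, mul_one]

/-- from primitivity: let `d = gcd(conj g, f)`, `f = d f1`; take `a0` from `hε.prim` for `f1` -/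
theorem GS_not_coprime {O : Subring ℂ} {ω : ℂ} (hO : Quad O ω) (hP : IsPrincipalIdealRing O)
    {f : O} (hf : f ≠ 0) {ε : O → O} (hε : GC O f ε) {R : Finset O} (hR : IsReps f R) (g : O)
    (hg : ¬ IsCoprime (cj hO g) f) : GS O ω f ε R g = 0 := by
  classical
  obtain ⟨d, hd⟩ := (hP.principal (Ideal.span {cj hO g, f})).principal
  have hdg : cj hO g ∈ Ideal.span {d} := by
    have h1 : cj hO g ∈ Ideal.span {cj hO g, f} := Ideal.subset_span (by simp)
    rw [hd] at h1
    exact h1
  have hdf : f ∈ Ideal.span {d} := by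
    have h1 : f ∈ Ideal.span {cj hO g, f} := Ideal.subset_span (by simp)
    rw [hd] at h1
    exact h1
  obtain ⟨h1, hh1⟩ := Ideal.mem_span_singleton.1 hdg
  obtain ⟨f1, hf1⟩ := Ideal.mem_span_singleton.1 hdf
  have hdu : ¬ IsUnit d := by
    intro hu
    apply hg
    have h2 : (1 : O) ∈ Ideal.span {cj hO g, f} := by
      rw [hd]
      have h3 : (1 : O) ∈ Ideal.span {d} := by
        rw [Ideal.span_singleton_eq_top.2 hu]
        exact Submodule.mem_top
      exact h3
    obtain ⟨x, y, hxy⟩ := Ideal.mem_span_pair.1 h2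
    exact ⟨x, y, hxy⟩
  have hd0 : d ≠ 0 := by
    intro h2
    rw [h2, zero_mul] at hf1
    exact hf hf1
  have hf10 : f1 ≠ 0 := by
    intro h2
    rw [h2, mul_zero] at hf1
    exact hf hf1
  have hnd : ¬ f ∣ f1 := by
    rintro ⟨y, hy⟩
    apply hdu
    have h2 : f1 * (d * y) = f1 * 1 := by
      rw [mul_one, ← mul_assoc, mul_comm f1 d, ← hf1]
      exact hy.symm
    exact IsUnit.of_mul_eq_one y (mul_left_cancel₀ hf10 h2)
  obtain ⟨a0, ha0, ⟨y, hy⟩, hne⟩ := hε.prim f1 ⟨d, by rw [hf1, mul_comm]⟩ hnd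
  have hfC : (f : ℂ) ≠ 0 := coe_ne_zero hf
  set F : O → ℂ := fun a => starRingEnd ℂ (ε a : ℂ) * pr ω ((a : ℂ) / f) g with hF
  have hper : ∀ x z, F (x + f * z) = F x := by
    intro x z
    have h2 : (((x + f * z : O) : ℂ)) / f = (x : ℂ) / f + (z : ℂ) := by
      push_cast
      field_simp
    simp only [hF]
    rw [hε.per, h2, pr_add, pr_mem hO, mul_one]
  have hsum := filter_mul_coprime hR F hper a0 ha0
  have hGS : GS O ω f ε R g = ∑ k ∈ R.filter (fun k => IsCoprime k f), F k := by
    unfold GS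
    refine Finset.sum_congr ?_ fun _ _ => rfl
    ext k
    simp
  have hmul : ∀ k : O, F (a0 * k) = starRingEnd ℂ (ε a0 : ℂ) * F k := by
    intro k
    have h2 : ((a0 * k : O) : ℂ) / f = (k : ℂ) / f + ((a0 : ℂ) - 1) * k / f := by
      push_cast
      field_simp
      ring
    have h3 : ((a0 : ℂ) - 1) * k / f * starRingEnd ℂ (g : ℂ) = ((h1 * y * k : O) : ℂ) := by
      have h4 : (a0 : ℂ) - 1 = (f1 : ℂ) * y := by
        have := congrArg (fun z : O => (z : ℂ)) hy
        push_cast at this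
        exact this
      have h5 : starRingEnd ℂ (g : ℂ) = (d : ℂ) * h1 := by
        have := congrArg (fun z : O => (z : ℂ)) hh1
        push_cast at this
        rw [coe_cj] at this
        exact this
      have h6 : (f : ℂ) = (d : ℂ) * f1 := by
        have := congrArg (fun z : O => (z : ℂ)) hf1
        push_cast at this
        exact this
      have h7 : (d : ℂ) ≠ 0 := coe_ne_zero hd0
      have h8 : (f1 : ℂ) ≠ 0 := coe_ne_zero hf10
      rw [h4, h5, h6]
      push_cast
      field_simp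
    have h9 : pr ω (((a0 : ℂ) - 1) * k / f) g = 1 := by
      rw [gf_pr_one, h3]
      have := pr_mem hO (h1 * y * k) 1
      push_cast at this ⊢
      exact this
    simp only [hF]
    rw [hε.mul, h2, pr_add, h9, mul_one]
    push_cast
    rw [map_mul]
    ring
  rw [hGS]
  have h10 : starRingEnd ℂ (ε a0 : ℂ) * ∑ k ∈ R.filter (fun k => IsCoprime k f), F k =
      ∑ k ∈ R.filter (fun k => IsCoprime k f), F k := by
    rw [Finset.mul_sum, ← hsum]
    exact Finset.sum_congr rfl fun k _ => (hmul k).symm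
  by_contra h11
  have h12 : starRingEnd ℂ (ε a0 : ℂ) = 1 := by
    refine mul_right_cancel₀ h11 ?_
    rw [h10, one_mul]
  apply hne
  apply Subtype.ext
  have h13 := congrArg (starRingEnd ℂ) h12
  rw [Complex.conj_conj, map_one] at h13
  rw [h13]
  rfl

theorem GS_eq {O : Subring ℂ} {ω : ℂ} (hO : Quad O ω) (hP : IsPrincipalIdealRing O)
    {f : O} (hf : f ≠ 0) {ε : O → O} (hε : GC O f ε) {R : Finset O} (hR : IsReps f R) (g : O) :
    GS O ω f ε R g = starRingEnd ℂ (ε g : ℂ) * GS O ω f ε R 1 := by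
  by_cases hg : IsCoprime (cj hO g) f
  · exact GS_coprime hO hf hε hR g hg
  · have h1 : cj hO (ε g) = 0 := by
      rw [← eps_cj hO hε]
      exact hε.zero _ hg
    have h2 : ε g = 0 := by
      rw [← cj_cj hO (ε g), h1, cj_zero]
    rw [GS_not_coprime hO hP hf hε hR g hg, h2]
    push_cast
    rw [map_zero, zero_mul]

end Pool.Agent.TCL
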