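import Mathlib
import Pool.Agent.Lib_helper76.TCL.Defs
import Pool.Agent.Lib_helper76.TCL.Defs2
import Pool.Agent.Lib_helper76.TCL.P.QB
import Pool.Agent.Lib_helper76.TCL.P.QD
import Pool.Agent.Lib_helper76.TCL.P.SB

set_option autoImplicit false

namespace Pool.Agent.TCL

open Complex

theorem orth {O : Subring ℂ} {ω : ℂ} (hO : Quad O ω) {a : O} (ha : a ≠ 0) {R : Finset O}
    (hR : IsReps a R) (t : ℂ) (g : O) :
    ∑ k ∈ R, pr ω ((t + k) / a) (cj hO a * g : O) = (‖(a : ℂ)‖ : ℂ) ^ 2 * pr ω t g := by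
  have ha' : (a : ℂ) ≠ 0 := coe_ne_zero ha
  have h1 : ∀ k ∈ R, pr ω ((t + k) / a) (cj hO a * g : O) = pr ω t g := by
    intro k _
    have e : ((cj hO a * g : O) : ℂ) = starRingEnd ℂ (a : ℂ) * (g : ℂ) := by
      push_cast
      rw [coe_cj]
    rw [e, ← pr_mul, mul_div_cancel₀ _ ha', pr_add, pr_mem hO, mul_one]
  rw [Finset.sum_congr rfl h1, Finset.sum_const, nsmul_eq_mul]
  have h2 := card_reps hO ha hR
  have h3 : (R.card : ℂ) = (‖(a : ℂ)‖ : ℂ) ^ 2 := by exact_mod_cast h2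
  rw [h3]

theorem so_int {x : ℝ} (h : exp (2 * Real.pi * I * ((x : ℝ) : ℂ)) = 1) : ∃ n : ℤ, x = n := by
  rw [Complex.exp_eq_one_iff] at h
  obtain ⟨n, hn⟩ := h
  refine ⟨n, ?_⟩
  have h2 : (2 * Real.pi * I : ℂ) ≠ 0 := Complex.two_pi_I_ne_zero
  have h3 : (2 * Real.pi * I : ℂ) * (x : ℂ) = (2 * Real.pi * I : ℂ) * (n : ℂ) := by
    rw [hn]; ring
  have h4 := mul_left_cancel₀ h2 h3
  exact_mod_cast h4

theorem so_mem {O : Subring ℂ} {ω : ℂ} (hO : Quad O ω) (h : ℂ) (h1 : pr ω 1 h = 1)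
    (h2 : pr ω ω h = 1) : h ∈ O := by
  have him : ω.im ≠ 0 := ne_of_gt hO.im_pos
  set y : ℝ := h.im / ω.im with hy
  set x : ℝ := h.re - y * ω.re with hx
  have hh : h = x + y * ω := by
    apply Complex.ext
    · simp [hx]
    · simp only [add_im, mul_im, ofReal_re, ofReal_im]
      rw [hy]
      field_simp
      ring
  have e1 : ((1 : ℂ) * starRingEnd ℂ h).im / ω.im = -y := by
    rw [one_mul, conj_im, hy, neg_div]
  have e2 : (ω * starRingEnd ℂ h).im / ω.im = x := by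
    rw [hx, hy]
    simp only [mul_im, conj_im, conj_re]
    field_simp
    ring
  unfold pr at h1 h2
  rw [e1] at h1
  rw [e2] at h2
  obtain ⟨n, hn⟩ := so_int h1
  obtain ⟨m, hm⟩ := so_int h2
  refine (hO.mem h).2 ⟨m, -n, ?_⟩
  have hy' : y = -(n : ℝ) := by linarith
  rw [hh, hy', hm]
  push_cast
  ring

/-- `k ↦ pr ω k (g / conj a)` is a character of `O / a O`; it is not trivial because
`pr ω 1 h = pr ω ω h = 1` implies `h ∈ O` -/
theorem orth_zero {O : Subring ℂ} {ω : ℂ} (hO : Quad O ω) {a : O} (ha : a ≠ 0) {R : Finset O}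
    (hR : IsReps a R) (t : ℂ) (g : O) (hg : ¬ cj hO a ∣ g) :
    ∑ k ∈ R, pr ω ((t + k) / a) g = 0 := by
  have ha' : (a : ℂ) ≠ 0 := coe_ne_zero ha
  have hca : starRingEnd ℂ (a : ℂ) ≠ 0 := by
    intro h; exact ha' ((map_eq_zero _).1 h)
  set h : ℂ := (g : ℂ) / starRingEnd ℂ (a : ℂ) with hh
  have hgh : (g : ℂ) = starRingEnd ℂ (a : ℂ) * h := by
    rw [hh]; field_simp
  have h1 : ∀ k ∈ R, pr ω ((t + k) / a) g = pr ω t h * pr ω (k : ℂ) h := by
    intro k _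
    rw [hgh, ← pr_mul, mul_div_cancel₀ _ ha', pr_add]
  rw [Finset.sum_congr rfl h1, ← Finset.mul_sum]
  have hper : ∀ x y : O, pr ω ((x + a * y : O) : ℂ) h = pr ω (x : ℂ) h := by
    intro x y
    push_cast
    rw [pr_add, pr_mul, ← hgh, pr_mem hO, mul_one]
  have hex : ∃ k0 : O, pr ω (k0 : ℂ) h ≠ 1 := by
    by_contra hcon
    push Not at hcon
    have hmem : h ∈ O := by
      refine so_mem hO h ?_ ?_
      · simpa using hcon 1
      · exact hcon ⟨ω, quad_omega hO⟩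
    apply hg
    refine ⟨⟨h, hmem⟩, Subtype.ext ?_⟩
    push_cast
    rw [coe_cj]
    exact hgh
  obtain ⟨k0, hk0⟩ := hex
  have h3 := sum_shift hR (fun k : O => pr ω (k : ℂ) h) hper k0
  have h4 : ∑ k ∈ R, pr ω ((k + k0 : O) : ℂ) h = pr ω (k0 : ℂ) h * ∑ k ∈ R, pr ω (k : ℂ) h := by
    rw [Finset.mul_sum]
    refine Finset.sum_congr rfl fun k _ => ?_
    push_cast
    rw [pr_add, mul_comm]
  have h5 : (pr ω (k0 : ℂ) h - 1) * ∑ k ∈ R, pr ω (k : ℂ) h = 0 := by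
    rw [sub_mul, one_mul, ← h4, sub_eq_zero]
    exact h3
  rcases mul_eq_zero.1 h5 with h6 | h6
  · exact absurd (sub_eq_zero.1 h6) hk0
  · rw [h6, mul_zero]

end Pool.Agent.TCL
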