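import Mathlib
import Pool.Agent.Lib_helper76.TCL.Defs
import Pool.Agent.Lib_helper76.TCL.Defs2
import Pool.Agent.Lib_helper76.TCL.P.QA
import Pool.Agent.Lib_helper76.TCL.P.QB
import Pool.Agent.Lib_helper76.TCL.P.QF
import Pool.Agent.Lib_helper76.TCL.P.SB
import Pool.Agent.Lib_helper76.TCL.P.SO
import Pool.Agent.Lib_helper76.TCL.P.GF
import Pool.Agent.Lib_helper76.TCL.P.GC

set_option autoImplicit false

namespace Pool.Agent.TCL

open Complex

theorem gb_mul_conj {z : ℂ} (h : ‖z‖ = 1) : z * starRingEnd ℂ z = 1 := by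
  rw [Complex.mul_conj, Complex.normSq_eq_norm_sq, h]
  norm_num

theorem gb_pr_sub (ω t s g : ℂ) :
    pr ω t g * starRingEnd ℂ (pr ω s g) = pr ω (t - s) g := by
  have h1 : pr ω t g = pr ω (t - s) g * pr ω s g := by
    rw [← pr_add, sub_add_cancel]
  rw [h1, mul_assoc, gb_mul_conj (norm_pr ω s g), mul_one]

theorem gb_pr_swap (ω x g : ℂ) (f : ℂ) :
    pr ω (x / f) g = starRingEnd ℂ (pr ω (g / starRingEnd ℂ f) x) := by
  have h1 : pr ω (g / starRingEnd ℂ f) x = pr ω g (x / f) := by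
    have h2 := pr_mul ω g x (starRingEnd ℂ f)⁻¹
    rw [map_inv₀, Complex.conj_conj] at h2
    rw [div_eq_inv_mul, h2, div_eq_inv_mul]
  rw [h1, pr_conj']

theorem gb_reps_cj {O : Subring ℂ} {ω : ℂ} (hO : Quad O ω) (hP : IsPrincipalIdealRing O)
    {f : O} (hf : f ≠ 0) {ε : O → O} (hε : GC O f ε) {R : Finset O} (hR : IsReps f R) :
    IsReps (cj hO f) R := by
  obtain ⟨u, hu, huf⟩ := f_conj hO hP hf hε
  refine isReps_of_dvd_dvd hR ?_ ?_
  · rw [huf]
    exact Dvd.intro_left u rfl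
  · obtain ⟨v, hv⟩ := hu.exists_left_inv
    refine ⟨v, ?_⟩
    rw [huf]
    calc f = (v * u) * f := by rw [hv, one_mul]
      _ = u * f * v := by ring

open Classical in
theorem gb_inner {O : Subring ℂ} {ω : ℂ} (hO : Quad O ω) (hP : IsPrincipalIdealRing O)
    {f : O} (hf : f ≠ 0) {ε : O → O} (hε : GC O f ε) {R : Finset O} (hR : IsReps f R)
    {a b : O} (ha : a ∈ R) (hb : b ∈ R) :
    ∑ g ∈ R, pr ω ((a : ℂ) / f) g * starRingEnd ℂ (pr ω ((b : ℂ) / f) g) =
      if a = b then (‖(f : ℂ)‖ : ℂ) ^ 2 else 0 := by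
  have hcf : cj hO f ≠ 0 := by
    intro h
    apply hf
    rw [← cj_cj hO f, h, cj_zero]
  have hR' := gb_reps_cj hO hP hf hε hR
  have h1 : ∑ g ∈ R, pr ω ((a : ℂ) / f) g * starRingEnd ℂ (pr ω ((b : ℂ) / f) g) =
      starRingEnd ℂ (∑ g ∈ R, pr ω ((0 + (g : ℂ)) / (cj hO f : O)) ((a - b : O) : ℂ)) := by
    rw [map_sum]
    refine Finset.sum_congr rfl fun g _ => ?_
    rw [gb_pr_sub, ← sub_div, gb_pr_swap, zero_add, coe_cj]
    push_cast
    rfl
  rw [h1]
  by_cases hab : a = b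
  · rw [if_pos hab]
    have h2 := orth hO hcf hR' 0 0
    rw [mul_zero, pr_zero, mul_one] at h2
    have h3 : (a - b : O) = 0 := by rw [hab, sub_self]
    rw [h3, h2, map_pow, Complex.conj_ofReal, coe_cj, RCLike.norm_conj]
  · rw [if_neg hab]
    have h2 : ¬ cj hO (cj hO f) ∣ (a - b : O) := by
      rw [cj_cj]
      intro hd
      obtain ⟨k, _, hk2⟩ := hR a
      have h3 : a = k := hk2 a ⟨ha, by rw [sub_self]; exact dvd_zero f⟩
      have h4 : b = k := hk2 b ⟨hb, hd⟩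
      exact hab (h3.trans h4.symm)
    rw [orth_zero hO hcf hR' 0 (a - b) h2, map_zero]

/-- the sum of `‖GS g‖²` over `g` modulo `conj f`, computed in two ways -/
theorem norm_GS {O : Subring ℂ} {ω : ℂ} (hO : Quad O ω) (hP : IsPrincipalIdealRing O)
    {f : O} (hf : f ≠ 0) {ε : O → O} (hε : GC O f ε) {R : Finset O} (hR : IsReps f R) :
    ‖GS O ω f ε R 1‖ ^ 2 = ‖(f : ℂ)‖ ^ 2 := by
  classical
  have hu : ∀ a : O, IsCoprime a f → (ε a : ℂ) * starRingEnd ℂ (ε a : ℂ) = 1 :=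
    fun a ha => unit_mul_conj hO (ε a) (hε.unit a ha)
  -- first computation
  have hA : ∑ g ∈ R, GS O ω f ε R g * starRingEnd ℂ (GS O ω f ε R g) =
      ((R.filter (fun a => IsCoprime a f)).card : ℂ) *
        (GS O ω f ε R 1 * starRingEnd ℂ (GS O ω f ε R 1)) := by
    have h1 : ∀ g ∈ R, GS O ω f ε R g * starRingEnd ℂ (GS O ω f ε R g) =
        if IsCoprime g f then (GS O ω f ε R 1 * starRingEnd ℂ (GS O ω f ε R 1)) else 0 := by
      intro g _
      rw [GS_eq hO hP hf hε hR g]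
      by_cases hg : IsCoprime g f
      · rw [if_pos hg, map_mul, Complex.conj_conj]
        linear_combination (GS O ω f ε R 1 * starRingEnd ℂ (GS O ω f ε R 1)) * hu g hg
      · rw [if_neg hg, hε.zero g hg]
        simp
    rw [Finset.sum_congr rfl h1, ← Finset.sum_filter, Finset.sum_const, nsmul_eq_mul]
  -- second computation
  have hB : ∑ g ∈ R, GS O ω f ε R g * starRingEnd ℂ (GS O ω f ε R g) =
      ((R.filter (fun a => IsCoprime a f)).card : ℂ) * (‖(f : ℂ)‖ : ℂ) ^ 2 := by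
    have h1 : ∀ g ∈ R, GS O ω f ε R g * starRingEnd ℂ (GS O ω f ε R g) =
        ∑ a ∈ R.filter (fun a => IsCoprime a f), ∑ b ∈ R.filter (fun a => IsCoprime a f),
          (starRingEnd ℂ (ε a : ℂ) * (ε b : ℂ)) *
            (pr ω ((a : ℂ) / f) g * starRingEnd ℂ (pr ω ((b : ℂ) / f) g)) := by
      intro g _
      unfold GS
      rw [map_sum, Finset.sum_mul_sum]
      refine Finset.sum_congr rfl fun a _ => Finset.sum_congr rfl fun b _ => ?_
      rw [map_mul, Complex.conj_conj]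
      ring
    rw [Finset.sum_congr rfl h1, Finset.sum_comm]
    have h2 : ∀ a ∈ R.filter (fun a => IsCoprime a f),
        ∑ g ∈ R, ∑ b ∈ R.filter (fun a => IsCoprime a f),
          (starRingEnd ℂ (ε a : ℂ) * (ε b : ℂ)) *
            (pr ω ((a : ℂ) / f) g * starRingEnd ℂ (pr ω ((b : ℂ) / f) g)) =
        (‖(f : ℂ)‖ : ℂ) ^ 2 := by
      intro a ha
      rw [Finset.sum_comm]
      have h3 : ∀ b ∈ R.filter (fun a => IsCoprime a f),
          ∑ g ∈ R, (starRingEnd ℂ (ε a : ℂ) * (ε b : ℂ)) *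
            (pr ω ((a : ℂ) / f) g * starRingEnd ℂ (pr ω ((b : ℂ) / f) g)) =
          if a = b then (‖(f : ℂ)‖ : ℂ) ^ 2 else 0 := by
        intro b hb
        rw [← Finset.mul_sum, gb_inner hO hP hf hε hR (Finset.mem_filter.1 ha).1
          (Finset.mem_filter.1 hb).1]
        by_cases hab : a = b
        · rw [if_pos hab, ← hab]
          have h4 := hu a (Finset.mem_filter.1 ha).2
          linear_combination (‖(f : ℂ)‖ : ℂ) ^ 2 * h4
        · rw [if_neg hab, mul_zero]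
      rw [Finset.sum_congr rfl h3, Finset.sum_ite_eq, if_pos ha]
    rw [Finset.sum_congr rfl h2, Finset.sum_const, nsmul_eq_mul]
  have hpos : ((R.filter (fun a => IsCoprime a f)).card : ℂ) ≠ 0 := by
    exact_mod_cast (phi_pos hR).ne'
  have h5 := mul_left_cancel₀ hpos (hA.symm.trans hB)
  rw [Complex.mul_conj, Complex.normSq_eq_norm_sq] at h5
  exact_mod_cast h5

end Pool.Agent.TCL
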