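import Mathlib
import Pool.Agent.Lib_helper76.TCL.Defs
import Pool.Agent.Lib_helper76.TCL.Defs2
import Pool.Agent.Lib_helper76.TCL.P.QA
import Pool.Agent.Lib_helper76.TCL.P.QB
import Pool.Agent.Lib_helper76.TCL.P.QF
import Pool.Agent.Lib_helper76.TCL.P.QC
import Pool.Agent.Lib_helper76.TCL.P.SB

set_option autoImplicit false

namespace Pool.Agent.TCL

open Complex

/-- `b ↦ conj (ε b) pr(b / (u f), 1)` -/
noncomputable def gd_F (O : Subring ℂ) (ω : ℂ) (f : O) (ε : O → O) (u : O) (b : O) : ℂ :=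
  starRingEnd ℂ (ε b : ℂ) * pr ω ((b : ℂ) / ((u : ℂ) * f)) 1

lemma gd_per {O : Subring ℂ} {ω : ℂ} (hO : Quad O ω) {f : O} (hf : f ≠ 0) {ε : O → O}
    (hε : GC O f ε) (u : O) (hu : IsUnit u) (x y : O) :
    gd_F O ω f ε u (x + f * y) = gd_F O ω f ε u x := by
  unfold gd_F
  obtain ⟨v, hv⟩ := hu.exists_right_inv
  have hf' : (f : ℂ) ≠ 0 := coe_ne_zero hf
  have hu0 : u ≠ 0 := hu.ne_zero
  have hu' : (u : ℂ) ≠ 0 := coe_ne_zero hu0
  have hv' : (u : ℂ) * (v : ℂ) = 1 := by
    have h := congrArg (fun z : O => (z : ℂ)) hv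
    simpa using h
  have e : ((x + f * y : O) : ℂ) / ((u : ℂ) * f) = (x : ℂ) / ((u : ℂ) * f) + ((v * y : O) : ℂ) := by
    push_cast
    field_simp
    linear_combination (-(y : ℂ) * f) * hv'
  have h1 : pr ω ((v * y : O) : ℂ) 1 = 1 := by
    have h := pr_mem hO (v * y) (1 : O)
    simpa using h
  rw [hε.per, e, pr_add, h1, mul_one]

lemma gd_cop {O : Subring ℂ} {ω : ℂ} (hO : Quad O ω) {f : O} (u : O)
    (h : cj hO f = u * f) (a : O) : IsCoprime (cj hO a) f ↔ IsCoprime a f := by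
  have key : ∀ b : O, IsCoprime b f → IsCoprime (cj hO b) f := by
    intro b hb
    have h1 := cj_isCoprime hO hb
    rw [h] at h1
    exact (IsCoprime.mul_right_iff.mp h1).2
  constructor
  · intro hb
    have h1 := key _ hb
    rwa [cj_cj] at h1
  · exact key a

theorem GS_conj {O : Subring ℂ} {ω : ℂ} (hO : Quad O ω) {f : O} (hf : f ≠ 0) {ε : O → O}
    (hε : GC O f ε) {R : Finset O} (hR : IsReps f R) (u : O) (hu : IsUnit u)
    (h : cj hO f = u * f) :
    starRingEnd ℂ (GS O ω f ε R 1) = u * GS O ω f ε R 1 := by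
  classical
  have hu0 : (u : ℂ) ≠ 0 := coe_ne_zero hu.ne_zero
  have hfc : starRingEnd ℂ (f : ℂ) = (u : ℂ) * f := by
    rw [← coe_cj hO, h]
    push_cast
    rfl
  have hR' : IsReps (cj hO f) R := by
    refine isReps_of_dvd_dvd hR ?_ ?_
    · rw [h]
      exact Dvd.intro_left u rfl
    · rw [h]
      exact (hu.mul_left_dvd).mpr dvd_rfl
  -- the coefficient of a unit
  have hεu : starRingEnd ℂ (ε u : ℂ) = u := by
    have h1 := hε.inv u hu
    have h2 : (ε u : ℂ) * (u : ℂ) = 1 := by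
      have h3 := congrArg (fun z : O => (z : ℂ)) h1
      simpa using h3
    have h3 := unit_mul_conj hO u hu
    have h4 : (ε u : ℂ) = starRingEnd ℂ (u : ℂ) := by
      have h5 : (u : ℂ) * (ε u : ℂ) = (u : ℂ) * starRingEnd ℂ (u : ℂ) := by
        rw [h3, mul_comm, h2]
      exact mul_left_cancel₀ hu0 h5
    rw [h4, Complex.conj_conj]
  -- conjugate
  have e1 : starRingEnd ℂ (GS O ω f ε R 1) =
      ∑ a ∈ R.filter (fun a => IsCoprime a f), gd_F O ω f ε u (cj hO a) := by
    unfold GS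
    rw [map_sum]
    refine Finset.sum_congr rfl fun a _ => ?_
    unfold gd_F
    rw [map_mul, pr_conj, map_div₀, hfc, map_one, eps_cj hO hε, coe_cj, coe_cj]
  have e2 : ∑ a ∈ R.filter (fun a => IsCoprime a f), gd_F O ω f ε u (cj hO a) =
      ∑ a ∈ R, (fun b : O => if IsCoprime b f then gd_F O ω f ε u b else 0) (cj hO a) := by
    rw [Finset.sum_filter]
    refine Finset.sum_congr rfl fun a _ => ?_
    by_cases ha : IsCoprime a f
    · simp only [if_pos ha, if_pos ((gd_cop hO u h a).mpr ha)]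
    · simp only [if_neg ha, if_neg (fun hb => ha ((gd_cop hO u h a).mp hb))]
  have e3 := sum_conj_reps hO hR hR'
    (fun b : O => if IsCoprime b f then gd_F O ω f ε u b else 0) (fun x y => by
      simp only [isCoprime_add_mul, gd_per hO hf hε u hu x y])
  have e4 := filter_mul_coprime hR (gd_F O ω f ε u) (gd_per hO hf hε u hu) u
    (by obtain ⟨v, hv⟩ := hu.exists_left_inv; exact ⟨v, 0, by rw [hv, zero_mul, add_zero]⟩)
  rw [e1, e2, e3, ← Finset.sum_filter, ← e4]
  unfold GS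
  rw [Finset.mul_sum]
  refine Finset.sum_congr rfl fun a _ => ?_
  unfold gd_F
  have hf' : (f : ℂ) ≠ 0 := coe_ne_zero hf
  have e5 : ((u * a : O) : ℂ) / ((u : ℂ) * f) = (a : ℂ) / f := by
    push_cast
    field_simp
  rw [e5, hε.mul, Subring.coe_mul, map_mul, hεu]
  ring

end Pool.Agent.TCL
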