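import Mathlib
import Pool.Agent.Lib_helper76.TCL.Defs
import Pool.Agent.Lib_helper76.TCL.Defs2
import Pool.Agent.Lib_helper76.TCL.P.QA
import Pool.Agent.Lib_helper76.TCL.P.GB
import Pool.Agent.Lib_helper76.TCL.P.GC
import Pool.Agent.Lib_helper76.TCL.P.GD

set_option autoImplicit false

namespace Pool.Agent.TCL

open Complex

theorem GS_val {O : Subring ℂ} {ω : ℂ} (hO : Quad O ω) (hP : IsPrincipalIdealRing O)
    {f : O} (hf : f ≠ 0) {ε : O → O} (hε : GC O f ε) {R : Finset O} (hR : IsReps f R) :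
    GS O ω f ε R 1 = f ∨ GS O ω f ε R 1 = -f := by
  obtain ⟨u, hu, huf⟩ := f_conj hO hP hf hε
  have h1 := norm_GS hO hP hf hε hR
  have h2 := GS_conj hO hf hε hR u hu huf
  have h3 : GS O ω f ε R 1 * starRingEnd ℂ (GS O ω f ε R 1) = (‖GS O ω f ε R 1‖ : ℂ) ^ 2 :=
    Complex.mul_conj' _
  have h4 : (f : ℂ) * starRingEnd ℂ (f : ℂ) = (‖(f : ℂ)‖ : ℂ) ^ 2 := Complex.mul_conj' _
  have h5 : (‖GS O ω f ε R 1‖ : ℂ) ^ 2 = (‖(f : ℂ)‖ : ℂ) ^ 2 := by exact_mod_cast h1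
  have h6 : starRingEnd ℂ (f : ℂ) = u * f := by
    have := congrArg (Subtype.val) huf
    simpa [coe_cj] using this
  have hu0 : (u : ℂ) ≠ 0 := coe_ne_zero hu.ne_zero
  have h7 : (u : ℂ) * (GS O ω f ε R 1 * GS O ω f ε R 1) = (u : ℂ) * ((f : ℂ) * f) := by
    rw [h2] at h3
    rw [h6] at h4
    linear_combination h3 - h4 + h5
  exact mul_self_eq_mul_self_iff.1 (mul_left_cancel₀ hu0 h7)

end Pool.Agent.TCL
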