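import Mathlib
import Pool.Agent.Lib_helper76.TCL.Defs
import Pool.Agent.Lib_helper76.TCL.Defs2

set_option autoImplicit false

namespace Pool.Agent.TCL

open Complex

theorem sa_sum (ω : ℂ) (hω : 0 < ω.im) :
    Summable (fun x : Fin 2 → ℤ => (‖(x 0 : ℂ) * ω + (x 1 : ℂ)‖ ^ 5)⁻¹) := by
  have h := (EisensteinSeries.summable_one_div_norm_rpow (show (2 : ℝ) < 5 by norm_num)).mul_left
    ((EisensteinSeries.r (⟨ω, hω⟩ : UpperHalfPlane) ^ 5)⁻¹)
  refine h.of_nonneg_of_le (fun x => by positivity) fun x => ?_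
  by_cases hx : x = 0
  · subst hx
    simp only [Pi.zero_apply, Int.cast_zero, zero_mul, add_zero, norm_zero]
    rw [zero_pow (by norm_num : 5 ≠ 0), inv_zero]
    have := EisensteinSeries.r_pos (⟨ω, hω⟩ : UpperHalfPlane)
    positivity
  · have h1 := EisensteinSeries.r_mul_max_le (⟨ω, hω⟩ : UpperHalfPlane) hx
    have hr := EisensteinSeries.r_pos (⟨ω, hω⟩ : UpperHalfPlane)
    have hx' : 0 < ‖x‖ := norm_pos_iff.2 hx
    have h2 : ‖x‖ ^ (-(5 : ℝ)) = (‖x‖ ^ 5)⁻¹ := by
      rw [Real.rpow_neg hx'.le]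
      norm_cast
    rw [h2, ← mul_inv, ← mul_pow]
    refine inv_anti₀ (by positivity) ?_
    exact pow_le_pow_left₀ (by positivity) h1 5

/-- for example from the summability of `‖v‖⁻⁵` over `ℤ²` or over a lattice of rank two -/
theorem summable_inv {O : Subring ℂ} {ω : ℂ} (hO : Quad O ω) :
    Summable (fun g : O => (‖(g : ℂ)‖ ^ 5)⁻¹) := by
  have hex : ∀ g : O, ∃ x : Fin 2 → ℤ, (g : ℂ) = (x 0 : ℂ) * ω + (x 1 : ℂ) := by
    intro g
    obtain ⟨a, b, hab⟩ := (hO.mem _).1 g.2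
    refine ⟨![b, a], ?_⟩
    rw [hab]
    simp only [Matrix.cons_val_zero, Matrix.cons_val_one]
    ring
  choose F hF using hex
  have hinj : Function.Injective F := by
    intro g g' h
    apply Subtype.ext
    rw [hF g, hF g', h]
  have h := (sa_sum ω hO.im_pos).comp_injective hinj
  refine h.congr fun g => ?_
  simp only [Function.comp_apply]
  rw [← hF g]

end Pool.Agent.TCL
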