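import Mathlib
import Pool.Agent.Lib_helper76.TCL.Defs
import Pool.Agent.Lib_helper76.TCL.Defs2
import Pool.Agent.Lib_helper76.TCL.P.QA
import Pool.Agent.Lib_helper76.TCL.P.SA

set_option autoImplicit false

namespace Pool.Agent.TCL

open Complex

theorem norm_eps_le {O : Subring ℂ} {ω : ℂ} (hO : Quad O ω) {f : O} {ε : O → O}
    (hε : GC O f ε) (a : O) : ‖(ε a : ℂ)‖ ≤ 1 := by
  by_cases h : IsCoprime a f
  · exact le_of_eq ((isUnit_iff_norm hO (ε a)).1 (hε.unit a h))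
  · rw [hε.zero a h]
    simp

theorem summable_LE {O : Subring ℂ} {ω : ℂ} (hO : Quad O ω) {f : O} {ε : O → O}
    (hε : GC O f ε) :
    Summable (fun a : O => (ε a : ℂ) * (a : ℂ) / (‖(a : ℂ)‖ : ℂ) ^ 6) := by
  refine Summable.of_norm_bounded (summable_inv hO) ?_
  intro a
  rw [norm_div, norm_mul, norm_pow, Complex.norm_real, norm_norm]
  by_cases ha : ‖(a : ℂ)‖ = 0
  · rw [ha]
    simp
  · have h1 : 0 < ‖(a : ℂ)‖ := lt_of_le_of_ne (norm_nonneg _) (Ne.symm ha)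
    have h2 := norm_eps_le hO hε a
    have h3 : (‖(a : ℂ)‖ ^ 5)⁻¹ = ‖(a : ℂ)‖ / ‖(a : ℂ)‖ ^ 6 := by
      field_simp
    rw [h3]
    gcongr
    nlinarith

/-- complex conjugation as a permutation of `O` -/
def la_equiv {O : Subring ℂ} {ω : ℂ} (hO : Quad O ω) : O ≃ O where
  toFun := cj hO
  invFun := cj hO
  left_inv := cj_cj hO
  right_inv := cj_cj hO

theorem LE_conj {O : Subring ℂ} {ω : ℂ} (hO : Quad O ω) {f : O} {ε : O → O}
    (hε : GC O f ε) : starRingEnd ℂ (LE O ε) = LE O ε := by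
  unfold LE
  rw [map_div₀, Complex.conj_natCast]
  congr 1
  rw [Complex.conj_tsum, ← (la_equiv hO).tsum_eq]
  refine tsum_congr fun a => ?_
  show starRingEnd ℂ ((ε (cj hO a) : ℂ) * ((cj hO a : O) : ℂ) / (‖((cj hO a : O) : ℂ)‖ : ℂ) ^ 6) = _
  rw [eps_cj hO hε, coe_cj, coe_cj, map_div₀, map_mul, Complex.conj_conj, Complex.conj_conj,
    RCLike.norm_conj, map_pow, Complex.conj_ofReal]

end Pool.Agent.TCL
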