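import Mathlib
import Pool.Agent.Lib_helper76.TCL.Defs
import Pool.Agent.Lib_helper76.TCL.Defs2
import Pool.Agent.Lib_helper76.TCL.P.QA
import Pool.Agent.Lib_helper76.TCL.P.SA
import Pool.Agent.Lib_helper76.TCL.P.LA

set_option autoImplicit false

namespace Pool.Agent.TCL

open Complex

/-- the Euler factor at `p` -/
theorem TT_mul_prime {O : Subring ℂ} {ω : ℂ} (hO : Quad O ω) (hP : IsPrincipalIdealRing O)
    {f : O} {ε : O → O} (hε : GC O f ε) (M p : O) (hp : Prime p) (hM : TT O ε M = 0) :
    TT O ε (M * p) = 0 := by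
  classical
  have hcop : ∀ n : O, IsCoprime p n ↔ ¬ p ∣ n := fun n => hp.coprime_iff_not_dvd
  by_cases hpM : p ∣ M
  · rw [← hM]
    unfold TT
    refine tsum_congr fun a => ?_
    refine if_congr ?_ rfl rfl
    rw [IsCoprime.mul_right_iff]
    refine ⟨fun h => h.1, fun h => ⟨h, ?_⟩⟩
    exact h.of_isCoprime_of_dvd_right hpM
  have hpM' : IsCoprime p M := (hcop M).2 hpM
  set g : O → ℂ := fun a => (ε a : ℂ) * (a : ℂ) / (‖(a : ℂ)‖ : ℂ) ^ 6 with hg
  have hsum : Summable g := summable_LE hO hε
  have hs : ∀ (P : O → Prop) [DecidablePred P], Summable fun a => if P a then g a else 0 := by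
    intro P _
    have h1 := hsum.indicator {a | P a}
    refine h1.congr fun a => ?_
    rw [Set.indicator_apply]
    rfl
  have h1 : TT O ε M = TT O ε (M * p) + ∑' a : O, if p ∣ a ∧ IsCoprime a M then g a else 0 := by
    have e : TT O ε (M * p) = ∑' a : O, if IsCoprime a (M * p) then g a else 0 := by
      unfold TT
      exact tsum_congr fun a => if_congr Iff.rfl rfl rfl
    have e' : TT O ε M = ∑' a : O, if IsCoprime a M then g a else 0 := by
      unfold TT
      exact tsum_congr fun a => if_congr Iff.rfl rfl rfl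
    rw [e, e']
    refine Eq.trans ?_ (Summable.tsum_add (hs fun a => IsCoprime a (M * p))
      (hs fun a => p ∣ a ∧ IsCoprime a M))
    refine tsum_congr fun a => ?_
    by_cases ha : IsCoprime a M
    · by_cases hpa : p ∣ a
      · have h2 : ¬ IsCoprime a (M * p) := by
          rw [IsCoprime.mul_right_iff]
          rintro ⟨-, h3⟩
          exact (hcop a).1 h3.symm hpa
        rw [if_pos ha, if_neg h2, if_pos ⟨hpa, ha⟩, zero_add]
      · have h2 : IsCoprime a (M * p) := by
          rw [IsCoprime.mul_right_iff]
          exact ⟨ha, ((hcop a).2 hpa).symm⟩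
        rw [if_pos ha, if_pos h2, if_neg (fun h => hpa h.1), add_zero]
    · have h2 : ¬ IsCoprime a (M * p) := by
        rw [IsCoprime.mul_right_iff]
        exact fun h => ha h.1
      rw [if_neg ha, if_neg h2, if_neg (fun h => ha h.2), add_zero]
  have h2 : (∑' a : O, if p ∣ a ∧ IsCoprime a M then g a else 0) = g p * TT O ε M := by
    have hinj : Function.Injective fun b : O => p * b := mul_right_injective₀ hp.ne_zero
    rw [← hinj.tsum_eq]
    · unfold TT
      rw [← tsum_mul_left]
      refine tsum_congr fun b => ?_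
      by_cases hb : IsCoprime b M
      · rw [if_pos ⟨dvd_mul_right p b, IsCoprime.mul_left hpM' hb⟩, if_pos hb]
        simp only [hg]
        rw [hε.mul]
        push_cast
        rw [norm_mul]
        push_cast
        rw [mul_pow, div_mul_div_comm]
        congr 1
        ring
      · rw [if_neg (fun h => hb (IsCoprime.mul_left_iff.1 h.2).2), if_neg hb, mul_zero]
    · intro a ha
      rw [Function.mem_support] at ha
      by_cases hpa : p ∣ a
      · obtain ⟨b, rfl⟩ := hpa
        exact ⟨b, rfl⟩
      · exact absurd (if_neg fun h => hpa h.1) ha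
  rw [h2, hM, mul_zero, add_zero] at h1
  exact h1.symm

end Pool.Agent.TCL
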