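import Mathlib
import Pool.Agent.Lib_helper76.TCL.Defs
import Pool.Agent.Lib_helper76.TCL.Defs2
import Pool.Agent.Lib_helper76.TCL.P.LB

set_option autoImplicit false

namespace Pool.Agent.TCL

open Complex

theorem TT_eq_zero {O : Subring ℂ} {ω : ℂ} (hO : Quad O ω) (hP : IsPrincipalIdealRing O)
    {f : O} {ε : O → O} (hε : GC O f ε) (h1 : TT O ε 1 = 0) (M : O) (hM : M ≠ 0) :
    TT O ε M = 0 := by
  have _i : IsPrincipalIdealRing O := hP
  have key : ∀ s : Multiset O, (∀ p ∈ s, Prime p) → TT O ε s.prod = 0 := by
    intro s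
    induction s using Multiset.induction_on with
    | empty => intro _; simpa using h1
    | cons p s ih =>
      intro h
      rw [Multiset.prod_cons, mul_comm]
      exact TT_mul_prime hO hP hε s.prod p (h p (Multiset.mem_cons_self p s))
        (ih (fun q hq => h q (Multiset.mem_cons_of_mem hq)))
  obtain ⟨s, hs, u, hu⟩ := UniqueFactorizationMonoid.exists_prime_factors M hM
  have h2 : TT O ε M = TT O ε s.prod := by
    unfold TT
    refine tsum_congr (fun a => ?_)
    have h3 : IsCoprime a M ↔ IsCoprime a s.prod := by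
      rw [← hu]
      exact isCoprime_mul_unit_right_right u.isUnit a s.prod
    by_cases h4 : IsCoprime a M
    · rw [if_pos h4, if_pos (h3.1 h4)]
    · rw [if_neg h4, if_neg (fun h5 => h4 (h3.2 h5))]
  rw [h2]
  exact key s hs

end Pool.Agent.TCL
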