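import Mathlib
import Pool.Agent.Lib_helper76.TCL.Defs
import Pool.Agent.Lib_helper76.TCL.Defs2
import Pool.Agent.Lib_helper76.TCL.P.QA

set_option autoImplicit false

namespace Pool.Agent.TCL

open Complex

theorem finite_ball {O : Subring ℂ} {ω : ℂ} (hO : Quad O ω) (r : ℝ) :
    {a : O | ‖(a : ℂ)‖ ≤ r}.Finite := by
  have him := hO.im_pos
  set M : ℤ := ⌈r / ω.im⌉ with hM
  set N : ℤ := ⌈r + r / ω.im * ‖ω‖⌉ with hN
  have hfin : ((Set.Icc (-N) N) ×ˢ (Set.Icc (-M) M)).Finite :=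
    (Set.finite_Icc _ _).prod (Set.finite_Icc _ _)
  have hfin2 : ((fun p : ℤ × ℤ => (p.1 : ℂ) + p.2 * ω) '' ((Set.Icc (-N) N) ×ˢ
    (Set.Icc (-M) M))).Finite := hfin.image _
  have hinj : Set.InjOn (fun a : O => (a : ℂ)) {a : O | ‖(a : ℂ)‖ ≤ r} :=
    fun a _ b _ h => Subtype.ext h
  refine Set.Finite.of_finite_image (hfin2.subset ?_) hinj
  rintro z ⟨a, ha, rfl⟩
  obtain ⟨x, y, hxy⟩ := (hO.mem _).1 a.2
  have ha' : ‖(a : ℂ)‖ ≤ r := ha
  have h1 : (a : ℂ).im = y * ω.im := by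
    rw [hxy]
    simp
  have h2 : |(y : ℝ)| ≤ r / ω.im := by
    rw [le_div_iff₀ him]
    have h3 : |(y : ℝ)| * ω.im = |(a : ℂ).im| := by
      rw [h1, abs_mul, abs_of_pos him]
    rw [h3]
    exact (Complex.abs_im_le_norm _).trans ha'
  have h4 : |(x : ℝ)| ≤ r + r / ω.im * ‖ω‖ := by
    have h5 : (x : ℂ) = (a : ℂ) - y * ω := by
      rw [hxy]
      ring
    have h6 : |(x : ℝ)| = ‖(x : ℂ)‖ := by
      rw [Complex.norm_intCast]
    rw [h6, h5]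
    refine (norm_sub_le _ _).trans ?_
    rw [norm_mul, Complex.norm_intCast]
    exact add_le_add ha' (mul_le_mul_of_nonneg_right h2 (norm_nonneg _))
  refine ⟨(x, y), ⟨?_, ?_⟩, ?_⟩
  · have h7 : |(x : ℝ)| ≤ N := h4.trans (Int.le_ceil _)
    have h8 : |x| ≤ N := by exact_mod_cast h7
    exact Set.mem_Icc.mpr (abs_le.mp h8)
  · have h7 : |(y : ℝ)| ≤ M := h2.trans (Int.le_ceil _)
    have h8 : |y| ≤ M := by exact_mod_cast h7
    exact Set.mem_Icc.mpr (abs_le.mp h8)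
  · exact hxy.symm

theorem finite_units {O : Subring ℂ} {ω : ℂ} (hO : Quad O ω) : Finite Oˣ := by
  have h1 : Finite {a : O | ‖(a : ℂ)‖ ≤ 1} := (finite_ball hO 1).to_subtype
  refine Finite.of_injective
    (fun u : Oˣ => (⟨(u : O), le_of_eq ((isUnit_iff_norm hO _).1 u.isUnit)⟩ :
      {a : O | ‖(a : ℂ)‖ ≤ 1})) ?_
  intro u v huv
  have h2 := congrArg (fun z : {a : O | ‖(a : ℂ)‖ ≤ 1} => (z : O)) huv
  exact Units.ext h2

end Pool.Agent.TCL
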