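import Mathlib
import Pool.Agent.Lib_helper76.TCL.Defs
import Pool.Agent.Lib_helper76.TCL.Defs2
import Pool.Agent.Lib_helper76.TCL.P.QA
import Pool.Agent.Lib_helper76.TCL.P.QE
import Pool.Agent.Lib_helper76.TCL.P.SA
import Pool.Agent.Lib_helper76.TCL.P.LA
import Pool.Agent.Lib_helper76.TCL.P.LE

set_option autoImplicit false

namespace Pool.Agent.TCL

open Complex

theorem lc_unit_term {O : Subring ℂ} {ω : ℂ} (hO : Quad O ω) {f : O} {ε : O → O}
    (hε : GC O f ε) {u : O} (hu : IsUnit u) :
    (ε u : ℂ) * (u : ℂ) / (‖(u : ℂ)‖ : ℂ) ^ 6 = 1 := by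
  have h1 : ‖(u : ℂ)‖ = 1 := (isUnit_iff_norm hO u).1 hu
  have h2 : ((ε u * u : O) : ℂ) = 1 := by rw [hε.inv u hu]; rfl
  push_cast at h2
  rw [h2, h1]
  norm_num

theorem lc_dvd {O : Subring ℂ} {ω : ℂ} (hO : Quad O ω) (a : O) (n : ℕ)
    (hn : ‖(a : ℂ)‖ ^ 2 = n) : a ∣ (n : O) := by
  refine ⟨cj hO a, Subtype.ext ?_⟩
  push_cast
  rw [coe_cj, Complex.mul_conj, Complex.normSq_eq_norm_sq, hn]
  simp

theorem lc_far {O : Subring ℂ} {ω : ℂ} (hO : Quad O ω) {a : O} (ha : a ≠ 0) (hu : ¬ IsUnit a) :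
    ∀ᶠ N : ℕ in Filter.atTop, ¬ IsCoprime a ((N.factorial : ℕ) : O) := by
  obtain ⟨n, hn⟩ := norm_sq_nat hO a
  have hn0 : n ≠ 0 := by
    intro h
    rw [h, Nat.cast_zero] at hn
    have : ‖(a : ℂ)‖ = 0 := by
      rw [sq_eq_zero_iff] at hn
      exact hn
    exact coe_ne_zero ha (norm_eq_zero.1 this)
  filter_upwards [Filter.eventually_ge_atTop n] with N hN hc
  apply hu
  have h1 : a ∣ ((N.factorial : ℕ) : O) := by
    have h2 : n ∣ N.factorial := Nat.dvd_factorial (Nat.pos_of_ne_zero hn0) hN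
    exact (lc_dvd hO a n hn).trans (Nat.cast_dvd_cast h2)
  exact hc.isUnit_of_dvd' dvd_rfl h1

/-- `TT (N!)` tends to the number of units, because a nonunit `a` prime to `N!` has
`‖a‖² > N` -/
theorem LE_ne_zero {O : Subring ℂ} {ω : ℂ} (hO : Quad O ω) (hP : IsPrincipalIdealRing O)
    {f : O} (hf : f ≠ 0) {ε : O → O} (hε : GC O f ε) : LE O ε ≠ 0 := by
  classical
  intro h0
  have hfin := finite_units hO
  have hW : (Nat.card Oˣ : ℂ) ≠ 0 := by
    have : Nat.card Oˣ ≠ 0 := Nat.card_ne_zero.2 ⟨⟨1⟩, hfin⟩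
    exact_mod_cast this
  have hs := summable_LE hO hε
  set term : O → ℂ := fun a => (ε a : ℂ) * (a : ℂ) / (‖(a : ℂ)‖ : ℂ) ^ 6 with hterm
  have hsum : ∑' a : O, term a = 0 := by
    unfold LE at h0
    rcases div_eq_zero_iff.1 h0 with h | h
    · exact h
    · exact absurd h hW
  have hT1 : TT O ε 1 = 0 := by
    unfold TT
    rw [← hsum]
    refine tsum_congr fun a => ?_
    rw [if_pos isCoprime_one_right]
  have hTN : ∀ N : ℕ, TT O ε ((N.factorial : ℕ) : O) = 0 := by
    intro N
    refine TT_eq_zero hO hP hε hT1 _ ?_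
    intro h
    have h1 : (((N.factorial : ℕ) : O) : ℂ) = 0 := by rw [h]; rfl
    have h2 : ((N.factorial : ℕ) : ℂ) = 0 := by simpa using h1
    exact N.factorial_ne_zero (by exact_mod_cast h2)
  -- the limit
  set g : O → ℝ := fun a => if IsUnit a then 1 else 0 with hg
  have hdom : ∀ N : ℕ, ∀ a : O,
      ‖(if IsCoprime a ((N.factorial : ℕ) : O) then term a else 0)‖ ≤ ‖term a‖ := by
    intro N a
    split_ifs
    · exact le_rfl
    · rw [norm_zero]; exact norm_nonneg _
  have hpt : ∀ a : O, Filter.Tendsto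
      (fun N : ℕ => if IsCoprime a ((N.factorial : ℕ) : O) then term a else 0) Filter.atTop
      (nhds ((g a : ℝ) : ℂ)) := by
    intro a
    by_cases hu : IsUnit a
    · have e1 : ((g a : ℝ) : ℂ) = term a := by
        rw [hg, hterm]
        simp only [if_pos hu]
        rw [lc_unit_term hO hε hu]
        simp
      rw [e1]
      refine tendsto_const_nhds.congr fun N => ?_
      rw [if_pos]
      obtain ⟨b, hb⟩ := hu.exists_right_inv
      exact ⟨b, 0, by rw [zero_mul, add_zero, mul_comm, hb]⟩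
    · have e1 : ((g a : ℝ) : ℂ) = 0 := by
        rw [hg]
        simp only [if_neg hu]
        simp
      rw [e1]
      by_cases ha : a = 0
      · subst ha
        refine tendsto_const_nhds.congr fun N => ?_
        have : term 0 = 0 := by rw [hterm]; simp
        rw [this, ite_self]
      · refine tendsto_const_nhds.congr' ?_
        filter_upwards [lc_far hO ha hu] with N hN
        rw [if_neg hN]
  have hlim := tendsto_tsum_of_dominated_convergence (bound := fun a => ‖term a‖) hs.norm hpt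
    (Filter.Eventually.of_forall fun N a => hdom N a)
  have hzero : (fun N : ℕ => ∑' a : O, (if IsCoprime a ((N.factorial : ℕ) : O) then term a else 0)) =
      fun _ => (0 : ℂ) := by
    funext N
    have h3 := hTN N
    unfold TT at h3
    exact h3
  rw [hzero] at hlim
  have hG : ∑' a : O, ((g a : ℝ) : ℂ) = 0 := tendsto_nhds_unique hlim tendsto_const_nhds |>.symm ▸ rfl
  rw [← Complex.ofReal_tsum] at hG
  have hG' : ∑' a : O, g a = 0 := by exact_mod_cast hG
  have hgs : Summable g := by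
    refine Summable.of_nonneg_of_le (fun a => ?_) (fun a => ?_) hs.norm
    · rw [hg]
      simp only
      split_ifs <;> norm_num
    · rw [hg]
      simp only
      split_ifs with hu
      · have : term a = 1 := lc_unit_term hO hε hu
        rw [this, norm_one]
      · exact norm_nonneg _
  have h1 : g 1 ≤ ∑' a : O, g a := hgs.le_tsum 1 (fun a _ => by
    rw [hg]
    simp only
    split_ifs <;> norm_num)
  rw [hG'] at h1
  rw [hg] at h1
  simp only [isUnit_one, if_true] at h1
  linarith

end Pool.Agent.TCL
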