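import Mathlib
import Pool.Agent.Lib_helper76.TCL.Defs
import Pool.Agent.Lib_helper76.TCL.Defs2

set_option autoImplicit false

namespace Pool.Agent.TCL

open Complex

/-- a class prime to `M` contains an element prime to `M'`: add `M x`, where `x` is the product
of the primes which divide `M'` but not `a` -/
theorem lift_coprime {O : Subring ℂ} (hP : IsPrincipalIdealRing O) (M M' : O) (hM' : M' ≠ 0)
    (a : O) (ha : IsCoprime a M) : ∃ a' : O, IsCoprime a' M' ∧ M ∣ a' - a := by
  haveI := hP
  revert hM'
  refine UniqueFactorizationMonoid.induction_on_prime M' ?_ ?_ ?_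
  · intro h; exact absurd rfl h
  · intro x hx _
    obtain ⟨v, hv⟩ := hx.exists_right_inv
    exact ⟨a, ⟨0, v, by rw [zero_mul, zero_add, mul_comm]; exact hv⟩, by simp⟩
  · intro m p hm hp ih _
    obtain ⟨a1, h1, h2⟩ := ih hm
    by_cases hpa : p ∣ a1
    · -- `p` divides neither `M` nor `m`
      have hpM : ¬ p ∣ M := by
        intro h
        have h3 : p ∣ a := by
          have h4 : p ∣ a1 - a := h.trans h2
          have := dvd_sub hpa h4
          simpa using this
        exact hp.not_unit (ha.isUnit_of_dvd' h3 h)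
      have hpm : ¬ p ∣ m := fun h => hp.not_unit (h1.isUnit_of_dvd' hpa h)
      have hpMm : ¬ p ∣ M * m := fun h => (hp.dvd_or_dvd h).elim hpM hpm
      refine ⟨a1 + M * m, IsCoprime.mul_right ?_ ?_, ?_⟩
      · have h3 : ¬ p ∣ a1 + M * m := by
          intro h
          exact hpMm ((dvd_add_right hpa).1 h)
        exact ((hp.irreducible.coprime_iff_not_dvd).2 h3).symm
      · have h3 : IsCoprime (a1 + m * M) m := h1.add_mul_left_left M
        rwa [mul_comm m M] at h3
      · have : a1 + M * m - a = (a1 - a) + M * m := by ring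
        rw [this]
        exact dvd_add h2 (Dvd.intro _ rfl)
    · exact ⟨a1, IsCoprime.mul_right ((hp.irreducible.coprime_iff_not_dvd).2 hpa).symm h1, h2⟩

end Pool.Agent.TCL
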