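import Mathlib
import Pool.Agent.Lib_helper76.TCL.Defs
import Pool.Agent.Lib_helper76.TCL.Defs2
import Pool.Agent.Lib_helper76.TCL.P.QB
import Pool.Agent.Lib_helper76.TCL.P.QF
import Pool.Agent.Lib_helper76.TCL.P.SL

set_option autoImplicit false

namespace Pool.Agent.TCL

open Complex

open Classical in
/-- the number of `a` in `R'`, prime to `M'`, with `a ≡ c` modulo `M` -/
noncomputable def sdN {O : Subring ℂ} (M M' : O) (R' : Finset O) (c : O) : ℂ :=
  ∑ a ∈ R'.filter (fun a => IsCoprime a M'), if M ∣ a - c then (1 : ℂ) else 0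

theorem sd_N_congr {O : Subring ℂ} (M M' : O) (R' : Finset O) {c d : O} (h : M ∣ d - c) :
    sdN M M' R' c = sdN M M' R' d := by
  classical
  unfold sdN
  refine Finset.sum_congr rfl fun a _ => ?_
  have : M ∣ a - c ↔ M ∣ a - d := by
    constructor
    · intro h1
      have : a - d = (a - c) - (d - c) := by abel
      rw [this]; exact dvd_sub h1 h
    · intro h1
      have : a - c = (a - d) + (d - c) := by abel
      rw [this]; exact dvd_add h1 h
  simp only [this]

theorem sd_N_mul {O : Subring ℂ} {M M' : O} (hd : M ∣ M') {R' : Finset O} (hR' : IsReps M' R')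
    (c d : O) (h : IsCoprime d M') : sdN M M' R' c = sdN M M' R' (d * c) := by
  classical
  unfold sdN
  have hdM : IsCoprime d M := IsCoprime.of_isCoprime_of_dvd_right h hd
  have h1 := filter_mul_coprime hR' (fun a => if M ∣ a - d * c then (1 : ℂ) else 0) (by
    intro x y
    obtain ⟨z, rfl⟩ := hd
    have : M ∣ x + M * z * y - d * c ↔ M ∣ x - d * c := by
      have e : x + M * z * y - d * c = (x - d * c) + M * (z * y) := by ring
      rw [e]
      exact (dvd_add_left (dvd_mul_right M (z * y)))
    simp only [this]) d h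
  rw [← h1]
  refine Finset.sum_congr rfl fun a _ => ?_
  have : M ∣ a - c ↔ M ∣ d * a - d * c := by
    have e : d * a - d * c = d * (a - c) := by ring
    rw [e]
    exact ⟨fun h2 => Dvd.dvd.mul_left h2 d, fun h2 => hdM.symm.dvd_of_dvd_mul_left h2⟩
  simp only [this]

theorem sd_N_one {O : Subring ℂ} (hP : IsPrincipalIdealRing O) {M M' : O} (hM' : M' ≠ 0)
    (hd : M ∣ M') {R' : Finset O} (hR' : IsReps M' R') (c : O) (hc : IsCoprime c M) :
    sdN M M' R' c = sdN M M' R' 1 := by
  obtain ⟨d, hd1, hd2⟩ := lift_coprime hP M M' hM' c hc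
  rw [sd_N_congr M M' R' hd2, sd_N_mul hd hR' 1 d hd1, mul_one]

open Classical in
theorem sd_key {O : Subring ℂ} (hP : IsPrincipalIdealRing O) {M M' : O} (hM' : M' ≠ 0)
    (hd : M ∣ M') {R R' : Finset O} (hR : IsReps M R) (hR' : IsReps M' R') (F : O → ℂ)
    (hF : ∀ x y, F (x + M * y) = F x) :
    ∑ a ∈ R'.filter (fun a => IsCoprime a M'), F a
      = sdN M M' R' 1 * ∑ a ∈ R.filter (fun a => IsCoprime a M), F a := by
  have h1 : ∀ a ∈ R'.filter (fun a => IsCoprime a M'),
      F a = ∑ c ∈ R.filter (fun a => IsCoprime a M), if M ∣ a - c then F c else 0 := by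
    intro a ha
    have haM' : IsCoprime a M' := (Finset.mem_filter.1 ha).2
    have haM : IsCoprime a M := IsCoprime.of_isCoprime_of_dvd_right haM' hd
    obtain ⟨c, ⟨hc, hac⟩, huniq⟩ := hR a
    obtain ⟨y, hy⟩ := hac
    have hacy : a = c + M * y := by rw [← hy]; abel
    have hcM : IsCoprime c M := by
      rw [hacy] at haM
      exact (isCoprime_add_mul).1 haM
    rw [Finset.sum_eq_single c]
    · rw [if_pos ⟨y, hy⟩]
      conv_lhs => rw [hacy]
      exact hF c y
    · intro b hb hbc
      rw [if_neg]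
      intro hab
      exact hbc (huniq b ⟨(Finset.mem_filter.1 hb).1, hab⟩)
    · intro hcn
      exact absurd (Finset.mem_filter.2 ⟨hc, hcM⟩) hcn
  rw [Finset.sum_congr rfl h1, Finset.sum_comm, Finset.mul_sum]
  refine Finset.sum_congr rfl fun c hc => ?_
  have hcM : IsCoprime c M := (Finset.mem_filter.1 hc).2
  rw [← sd_N_one hP hM' hd hR' c hcM, sdN, Finset.sum_mul]
  refine Finset.sum_congr rfl fun a _ => ?_
  split_ifs <;> simp

open Classical in
/-- the average of an `M`-periodic function over the invertible classes modulo a multiple `M'`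
of `M` -/
theorem avg_lift {O : Subring ℂ} (hP : IsPrincipalIdealRing O) {M M' : O} (hM' : M' ≠ 0)
    (hd : M ∣ M') {R R' : Finset O} (hR : IsReps M R) (hR' : IsReps M' R') (F : O → ℂ)
    (hF : ∀ x y, F (x + M * y) = F x) :
    (∑ a ∈ R'.filter (fun a => IsCoprime a M'), F a) *
        ((R.filter (fun a => IsCoprime a M)).card : ℂ)
      = (∑ a ∈ R.filter (fun a => IsCoprime a M), F a) *
        ((R'.filter (fun a => IsCoprime a M')).card : ℂ) := by
  have h1 := sd_key hP hM' hd hR hR' F hF
  have h2 := sd_key hP hM' hd hR hR' (fun _ => (1 : ℂ)) (fun _ _ => rfl)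
  simp only [Finset.sum_const, nsmul_eq_mul, mul_one] at h2
  rw [h1, h2]
  ring

end Pool.Agent.TCL
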