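import Mathlib
import Pool.Agent.Lib_helper76.TCL.Defs
import Pool.Agent.Lib_helper76.TCL.Defs2
import Pool.Agent.Lib_helper76.TCL.P.QA
import Pool.Agent.Lib_helper76.TCL.P.SA
import Pool.Agent.Lib_helper76.TCL.P.SB

set_option autoImplicit false

namespace Pool.Agent.TCL

open Complex

theorem summable_SS {O : Subring ℂ} {ω : ℂ} (hO : Quad O ω) (t : ℂ) :
    Summable (fun g : O => pr ω t g * starRingEnd ℂ (g : ℂ) / (‖(g : ℂ)‖ : ℂ) ^ 6) := by
  refine Summable.of_norm ?_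
  refine (summable_inv hO).congr fun g => ?_
  rw [norm_div, norm_mul, norm_pr, one_mul, norm_pow, Complex.norm_real, norm_norm,
    RCLike.norm_conj]
  by_cases hg : ‖(g : ℂ)‖ = 0
  · rw [hg]
    norm_num
  · field_simp

theorem SS_per {O : Subring ℂ} {ω : ℂ} (hO : Quad O ω) (t : ℂ) (a : O) :
    SS O ω (t + a) = SS O ω t := by
  unfold SS
  refine tsum_congr fun g => ?_
  rw [pr_add, pr_mem hO, mul_one]

theorem SS_conj {O : Subring ℂ} {ω : ℂ} (hO : Quad O ω) (t : ℂ) :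
    starRingEnd ℂ (SS O ω t) = SS O ω (starRingEnd ℂ t) := by
  unfold SS
  rw [Complex.conj_tsum]
  rw [← (Equiv.mk (cj hO) (cj hO) (cj_cj hO) (cj_cj hO)).tsum_eq
    (fun g : O => pr ω (starRingEnd ℂ t) g * starRingEnd ℂ (g : ℂ) / (‖(g : ℂ)‖ : ℂ) ^ 6)]
  refine tsum_congr fun g => ?_
  show _ = pr ω (starRingEnd ℂ t) (cj hO g : O) * starRingEnd ℂ ((cj hO g : O) : ℂ) /
    (‖((cj hO g : O) : ℂ)‖ : ℂ) ^ 6
  rw [coe_cj, map_div₀, map_mul, pr_conj, map_pow, Complex.conj_ofReal, RCLike.norm_conj]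

theorem SS_unit {O : Subring ℂ} {ω : ℂ} (hO : Quad O ω) (u : O) (hu : IsUnit u) (t : ℂ) :
    SS O ω (u * t) = starRingEnd ℂ (u : ℂ) * SS O ω t := by
  obtain ⟨v, hv⟩ := hu.exists_right_inv
  have hv' : v * u = 1 := by rw [mul_comm]; exact hv
  have hn : ‖(u : ℂ)‖ = 1 := (isUnit_iff_norm hO u).1 hu
  have hc : starRingEnd ℂ (u : ℂ) * (u : ℂ) = 1 := by
    rw [mul_comm]
    exact unit_mul_conj hO u hu
  unfold SS
  rw [← (Equiv.mk (fun g : O => u * g) (fun g : O => v * g)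
    (fun g => by show v * (u * g) = g; rw [← mul_assoc, hv', one_mul])
    (fun g => by show u * (v * g) = g; rw [← mul_assoc, hv, one_mul])).tsum_eq
    (fun g : O => pr ω (u * t) g * starRingEnd ℂ (g : ℂ) / (‖(g : ℂ)‖ : ℂ) ^ 6), ← tsum_mul_left]
  refine tsum_congr fun g => ?_
  show pr ω (u * t) ((u * g : O) : ℂ) * starRingEnd ℂ ((u * g : O) : ℂ) /
    (‖((u * g : O) : ℂ)‖ : ℂ) ^ 6 = _
  rw [pr_mul, Subring.coe_mul, ← mul_assoc (starRingEnd ℂ (u : ℂ)) (u : ℂ) (g : ℂ), hc, one_mul,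
    norm_mul, hn, one_mul, map_mul]
  ring

end Pool.Agent.TCL
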