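import Mathlib
import Pool.Agent.Lib_helper76.TCL.Defs
import Pool.Agent.Lib_helper76.TCL.Defs2
import Pool.Agent.Lib_helper76.TCL.P.QB
import Pool.Agent.Lib_helper76.TCL.P.QF
import Pool.Agent.Lib_helper76.TCL.P.SI
import Pool.Agent.Lib_helper76.TCL.P.SD

set_option autoImplicit false

namespace Pool.Agent.TCL

open Complex

theorem orbit_per {O : Subring ℂ} {ω : ℂ} (hO : Quad O ω) {f : O} {ε : O → O}
    (hε : GC O f ε) {M : O} (hM : f ∣ M) {t : ℂ} (hMt : (M : ℂ) * t ∈ O) (x y : O) :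
    SS O ω (ε (x + M * y) * (x + M * y : O) * t) = SS O ω (ε x * x * t) := by
  obtain ⟨c, rfl⟩ := hM
  have h1 : ε (x + f * c * y) = ε x := by
    rw [mul_assoc]
    exact hε.per x (c * y)
  have h2 := SS_per hO (ε x * x * t) (ε x * y * ⟨((f * c : O) : ℂ) * t, hMt⟩)
  rw [← h2, h1]
  refine congrArg (SS O ω) ?_
  push_cast
  ring

theorem AV_eq {O : Subring ℂ} {ω : ℂ} (hO : Quad O ω) (hP : IsPrincipalIdealRing O) {f : O}
    {ε : O → O} (hε : GC O f ε) {M M' : O} (hM : f ∣ M) (hM0 : M ≠ 0) (hM' : f ∣ M')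
    (hM0' : M' ≠ 0) {R R' : Finset O} (hR : IsReps M R) (hR' : IsReps M' R') {t : ℂ}
    (hMt : (M : ℂ) * t ∈ O) (hMt' : (M' : ℂ) * t ∈ O) :
    AV O ω ε M R t = AV O ω ε M' R' t := by
  classical
  have h0 : M * M' ≠ 0 := mul_ne_zero hM0 hM0'
  obtain ⟨R2, hR2⟩ := exists_reps hO (M * M') h0
  have e1 := avg_lift hP h0 (dvd_mul_right M M') hR hR2
    (fun a => SS O ω (ε a * a * t)) (fun x y => orbit_per hO hε hM hMt x y)
  have e2 := avg_lift hP h0 (dvd_mul_left M' M) hR' hR2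
    (fun a => SS O ω (ε a * a * t)) (fun x y => orbit_per hO hε hM' hMt' x y)
  have p1 : ((R.filter (fun a => IsCoprime a M)).card : ℂ) ≠ 0 :=
    Nat.cast_ne_zero.2 (phi_pos hR).ne'
  have p2 : ((R'.filter (fun a => IsCoprime a M')).card : ℂ) ≠ 0 :=
    Nat.cast_ne_zero.2 (phi_pos hR').ne'
  have p3 : ((R2.filter (fun a => IsCoprime a (M * M'))).card : ℂ) ≠ 0 :=
    Nat.cast_ne_zero.2 (phi_pos hR2).ne'
  unfold AV
  rw [div_eq_div_iff p1 p2]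
  refine mul_right_cancel₀ p3 ?_
  linear_combination
    (-((R'.filter (fun a => IsCoprime a M')).card : ℂ)) * e1 +
      ((R.filter (fun a => IsCoprime a M)).card : ℂ) * e2

theorem Sb_eq {O : Subring ℂ} {ω : ℂ} (hO : Quad O ω) (hP : IsPrincipalIdealRing O) {f : O}
    {ε : O → O} (hε : GC O f ε) {M : O} (hM : f ∣ M) (hM0 : M ≠ 0) {R : Finset O}
    (hR : IsReps M R) {t : ℂ} (hMt : (M : ℂ) * t ∈ O) :
    Sb O ω f ε t = AV O ω ε M R t := by
  have h : ∃ p : O × Finset O, f ∣ p.1 ∧ p.1 ≠ 0 ∧ IsReps p.1 p.2 ∧ (p.1 : ℂ) * t ∈ O :=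
    ⟨(M, R), hM, hM0, hR, hMt⟩
  unfold Sb
  rw [dif_pos h]
  have hs := h.choose_spec
  exact AV_eq hO hP hε hs.1 hs.2.1 hM hM0 hs.2.2.1 hR hs.2.2.2 hMt

end Pool.Agent.TCL
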