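import Mathlib
import Pool.Agent.Lib_helper76.TCL.Defs
import Pool.Agent.Lib_helper76.TCL.Defs2
import Pool.Agent.Lib_helper76.TCL.P.QA
import Pool.Agent.Lib_helper76.TCL.P.QE
import Pool.Agent.Lib_helper76.TCL.P.QF
import Pool.Agent.Lib_helper76.TCL.P.SA
import Pool.Agent.Lib_helper76.TCL.P.SB
import Pool.Agent.Lib_helper76.TCL.P.SI
import Pool.Agent.Lib_helper76.TCL.P.SE
import Pool.Agent.Lib_helper76.TCL.P.GF
import Pool.Agent.Lib_helper76.TCL.P.LA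

set_option autoImplicit false

namespace Pool.Agent.TCL

open Complex

theorem Sb_one_div {O : Subring ℂ} {ω : ℂ} (hO : Quad O ω) (hP : IsPrincipalIdealRing O)
    {f : O} (hf : f ≠ 0) {ε : O → O} (hε : GC O f ε) {R : Finset O} (hR : IsReps f R) :
    Sb O ω f ε (1 / (f : ℂ)) * (phi f R : ℂ)
      = (Nat.card Oˣ : ℂ) * GS O ω f ε R 1 * LE O ε := by
  classical
  have hf1 : (f : ℂ) * (1 / (f : ℂ)) = 1 := mul_one_div_cancel (coe_ne_zero hf)
  have hmem : (f : ℂ) * (1 / (f : ℂ)) ∈ O := by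
    rw [hf1]
    exact O.one_mem
  rw [Sb_eq hO hP hε (dvd_refl f) hf hR hmem]
  unfold AV phi
  have hphi : (((R.filter (fun a => IsCoprime a f)).card : ℕ) : ℂ) ≠ 0 := by
    have := phi_pos hR
    exact_mod_cast this.ne'
  rw [div_mul_cancel₀ _ hphi]
  have h1 : ∀ a ∈ R.filter (fun a => IsCoprime a f), SS O ω (ε a * a * (1 / (f : ℂ)))
      = ∑' g : O, starRingEnd ℂ (ε a : ℂ) * (pr ω ((a : ℂ) / f) g * starRingEnd ℂ (g : ℂ)
        / (‖(g : ℂ)‖ : ℂ) ^ 6) := by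
    intro a ha
    have hc : IsCoprime a f := (Finset.mem_filter.mp ha).2
    have e1 : (ε a : ℂ) * a * (1 / (f : ℂ)) = (ε a : ℂ) * ((a : ℂ) / f) := by ring
    rw [e1, SS_unit hO (ε a) (hε.unit a hc)]
    unfold SS
    rw [← tsum_mul_left]
  have hsum : ∀ a ∈ R.filter (fun a => IsCoprime a f),
      Summable (fun g : O => starRingEnd ℂ (ε a : ℂ) * (pr ω ((a : ℂ) / f) g
        * starRingEnd ℂ (g : ℂ) / (‖(g : ℂ)‖ : ℂ) ^ 6)) := fun a _ =>
    (summable_SS hO ((a : ℂ) / f)).mul_left _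
  rw [Finset.sum_congr rfl h1, ← Summable.tsum_finsetSum hsum]
  have h2 : ∀ g : O, ∑ a ∈ R.filter (fun a => IsCoprime a f), starRingEnd ℂ (ε a : ℂ) *
      (pr ω ((a : ℂ) / f) g * starRingEnd ℂ (g : ℂ) / (‖(g : ℂ)‖ : ℂ) ^ 6)
      = GS O ω f ε R 1 * starRingEnd ℂ ((ε g : ℂ) * (g : ℂ) / (‖(g : ℂ)‖ : ℂ) ^ 6) := by
    intro g
    have h3 : ∑ a ∈ R.filter (fun a => IsCoprime a f), starRingEnd ℂ (ε a : ℂ) *
      (pr ω ((a : ℂ) / f) g * starRingEnd ℂ (g : ℂ) / (‖(g : ℂ)‖ : ℂ) ^ 6)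
      = GS O ω f ε R g * (starRingEnd ℂ (g : ℂ) / (‖(g : ℂ)‖ : ℂ) ^ 6) := by
      unfold GS
      rw [Finset.sum_mul]
      apply Finset.sum_congr rfl
      intro a _
      ring
    rw [h3, GS_eq hO hP hf hε hR g, map_div₀, map_mul, map_pow, Complex.conj_ofReal]
    ring
  simp only [h2]
  rw [tsum_mul_left, ← Complex.conj_tsum]
  have hfin : Finite Oˣ := finite_units hO
  have hcard : (Nat.card Oˣ : ℂ) ≠ 0 := by
    have : 0 < Nat.card Oˣ := Nat.card_pos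
    exact_mod_cast this.ne'
  have h4 : (∑' a : O, (ε a : ℂ) * (a : ℂ) / (‖(a : ℂ)‖ : ℂ) ^ 6)
      = (Nat.card Oˣ : ℂ) * LE O ε := by
    unfold LE
    rw [mul_div_cancel₀ _ hcard]
  rw [h4, map_mul, LE_conj hO hε, Complex.conj_natCast]
  ring

end Pool.Agent.TCL
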