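import Mathlib
import Pool.Agent.Lib_helper76.TCL.Defs
import Pool.Agent.Lib_helper76.TCL.Defs2
import Pool.Agent.Lib_helper76.TCL.P.QA
import Pool.Agent.Lib_helper76.TCL.P.QB
import Pool.Agent.Lib_helper76.TCL.P.QC
import Pool.Agent.Lib_helper76.TCL.P.SI

set_option autoImplicit false

namespace Pool.Agent.TCL

open Complex

theorem div_real {O : Subring ℂ} {ω : ℂ} (hO : Quad O ω) {f : O} {ε : O → O} {v : O}
    (hv : IsUnit v) {N : ℕ} {b : O → ℚ} (hN : 0 < N) (hb : Div O f ε v N b) {R : Finset O}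
    (hR : IsReps (N : O) R) :
    starRingEnd ℂ (∑ x ∈ R, (b x : ℂ) * SS O ω ((x : ℂ) / N))
      = v * ∑ x ∈ R, (b x : ℂ) * SS O ω ((x : ℂ) / N) := by
  have hN0 : (N : ℂ) ≠ 0 := by exact_mod_cast hN.ne'
  have hF : ∀ x y : O, ((b (x + (N : O) * y) : ℚ) : ℂ) * SS O ω (((x + (N : O) * y : O) : ℂ) / N)
      = ((b x : ℚ) : ℂ) * SS O ω ((x : ℂ) / N) := by
    intro x y
    rw [hb.per]
    have h1 : ((x + (N : O) * y : O) : ℂ) / N = (x : ℂ) / N + (y : ℂ) := by
      push_cast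
      field_simp
    rw [h1, SS_per hO]
  have hR' : IsReps (cj hO (N : O)) R := by
    rw [cj_nat]; exact hR
  obtain ⟨w, hw⟩ := hv.exists_left_inv
  have hcop : IsCoprime v (N : O) := ⟨w, 0, by rw [hw]; ring⟩
  have key1 := sum_mul_coprime hR
    (fun x : O => ((b x : ℚ) : ℂ) * SS O ω ((x : ℂ) / N)) hF v hcop
  have key := sum_conj_reps hO hR hR'
    (fun x : O => ((b (v * x) : ℚ) : ℂ) * SS O ω (((v * x : O) : ℂ) / N)) (by
      intro x y
      have e : v * (x + (N : O) * y) = v * x + (N : O) * (v * y) := by ring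
      rw [e]
      exact hF (v * x) (v * y))
  have hterm : ∀ x ∈ R, starRingEnd ℂ ((b x : ℂ) * SS O ω ((x : ℂ) / N))
      = (v : ℂ) * (((b (v * cj hO x) : ℚ) : ℂ) * SS O ω (((v * cj hO x : O) : ℂ) / N)) := by
    intro x _
    have e2 : ((v * cj hO x : O) : ℂ) / N = (v : ℂ) * (starRingEnd ℂ (x : ℂ) / N) := by
      push_cast
      rw [coe_cj, mul_div_assoc]
    rw [map_mul, SS_conj hO, map_div₀, hb.conj x (cj hO x) rfl, e2, SS_unit hO v hv]
    have h3 := unit_mul_conj hO v hv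
    have e3 : (v : ℂ) * (((b x : ℚ) : ℂ) *
        (starRingEnd ℂ (v : ℂ) * SS O ω (starRingEnd ℂ (x : ℂ) / N)))
        = ((b x : ℚ) : ℂ) * SS O ω (starRingEnd ℂ (x : ℂ) / N) := by
      linear_combination (((b x : ℚ) : ℂ) * SS O ω (starRingEnd ℂ (x : ℂ) / N)) * h3
    rw [e3]
    simp
  rw [map_sum, Finset.sum_congr rfl hterm, ← Finset.mul_sum, key, key1]

end Pool.Agent.TCL
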