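import Mathlib
import Pool.Agent.Lib_helper76.TCL.Defs
import Pool.Agent.Lib_helper76.TCL.Defs2
import Pool.Agent.Lib_helper76.TCL.P.QB
import Pool.Agent.Lib_helper76.TCL.P.QF
import Pool.Agent.Lib_helper76.TCL.P.SI
import Pool.Agent.Lib_helper76.TCL.P.SE

set_option autoImplicit false

namespace Pool.Agent.TCL

open Complex

theorem mc_term {O : Subring ℂ} {ω : ℂ} (hO : Quad O ω)
    {f : O} {ε : O → O} (hε : GC O f ε) {v : O} {N : ℕ} {b : O → ℚ} (hN : 0 < N)
    (hb : Div O f ε v N b) {R : Finset O} (hR : IsReps (N : O) R) (a : O)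
    (ha : IsCoprime a ((N : O) * f)) :
    ∑ x ∈ R, (b x : ℂ) * SS O ω ((x : ℂ) / N)
      = ∑ x ∈ R, (b x : ℂ) * SS O ω (ε a * a * ((x : ℂ) / N)) := by
  have hN' : (N : ℂ) ≠ 0 := by exact_mod_cast hN.ne'
  have hxy : ∀ x y : O, (((x + (N : O) * y : O) : ℂ) / (N : ℂ)) = (x : ℂ) / N + y := by
    intro x y
    push_cast
    field_simp
  have haN : IsCoprime a (N : O) := IsCoprime.of_mul_right_left ha
  have haf : IsCoprime a f := IsCoprime.of_mul_right_right ha
  have hu := hε.unit a haf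
  have hc : IsCoprime (ε a * a) (N : O) := IsCoprime.mul_left (by obtain ⟨v, hv⟩ := hu.exists_left_inv; exact ⟨v, 0, by rw [hv]; ring⟩) haN
  rw [← sum_mul_coprime hR (fun x => (b x : ℂ) * SS O ω ((x : ℂ) / N)) ?_ (ε a * a) hc]
  · refine Finset.sum_congr rfl ?_
    intro x _
    rw [hb.gal a x ha]
    congr 2
    push_cast
    ring
  · intro x y
    rw [hb.per x y, hxy x y, SS_per hO]

/-- average over the Galois group modulo `M = N f`; `ε a * a` is prime to `N` -/
theorem div_avg {O : Subring ℂ} {ω : ℂ} (hO : Quad O ω) (hP : IsPrincipalIdealRing O)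
    {f : O} (hf : f ≠ 0) {ε : O → O} (hε : GC O f ε) {v : O} {N : ℕ} {b : O → ℚ} (hN : 0 < N)
    (hb : Div O f ε v N b) {R : Finset O} (hR : IsReps (N : O) R) :
    ∑ x ∈ R, (b x : ℂ) * SS O ω ((x : ℂ) / N)
      = ∑ x ∈ R, (b x : ℂ) * Sb O ω f ε ((x : ℂ) / N) := by
  classical
  have hN' : (N : ℂ) ≠ 0 := by exact_mod_cast hN.ne'
  have hN0 : (N : O) ≠ 0 := by
    intro h
    apply hN'
    have h' := congrArg (Subtype.val) h
    simpa using h'
  have hM0 : (N : O) * f ≠ 0 := mul_ne_zero hN0 hf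
  obtain ⟨RM, hRM⟩ := exists_reps hO ((N : O) * f) hM0
  have hphi := phi_pos hRM
  have hphi' : (((RM.filter (fun k => IsCoprime k ((N : O) * f))).card : ℕ) : ℂ) ≠ 0 := by
    exact_mod_cast hphi.ne'
  have hSb : ∀ x : O, Sb O ω f ε ((x : ℂ) / N)
      * ((RM.filter (fun k => IsCoprime k ((N : O) * f))).card : ℂ)
      = ∑ a ∈ RM.filter (fun k => IsCoprime k ((N : O) * f)),
        SS O ω (ε a * a * ((x : ℂ) / N)) := by
    intro x
    have hmem : (((N : O) * f : O) : ℂ) * ((x : ℂ) / N) ∈ O := by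
      have : (((N : O) * f : O) : ℂ) * ((x : ℂ) / N) = ((f * x : O) : ℂ) := by
        push_cast
        field_simp
      rw [this]
      exact (f * x).2
    rw [Sb_eq hO hP hε (Dvd.intro_left _ rfl) hM0 hRM hmem, AV]
    rw [div_mul_cancel₀ _ hphi']
  have hsum : ((RM.filter (fun k => IsCoprime k ((N : O) * f))).card : ℂ) *
      ∑ x ∈ R, (b x : ℂ) * SS O ω ((x : ℂ) / N)
      = ∑ a ∈ RM.filter (fun k => IsCoprime k ((N : O) * f)),
        ∑ x ∈ R, (b x : ℂ) * SS O ω (ε a * a * ((x : ℂ) / N)) := by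
    rw [← nsmul_eq_mul, ← Finset.sum_const]
    refine Finset.sum_congr rfl ?_
    intro a ha
    exact mc_term hO hε hN hb hR a (Finset.mem_filter.1 ha).2
  refine mul_left_cancel₀ hphi' ?_
  rw [hsum, Finset.sum_comm, Finset.mul_sum]
  refine Finset.sum_congr rfl ?_
  intro x _
  rw [← Finset.mul_sum, ← hSb x]
  ring

end Pool.Agent.TCL
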