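import Mathlib
import Pool.Agent.Lib_helper76.TCL.Defs
import Pool.Agent.Lib_helper76.TCL.Defs2
import Pool.Agent.Lib_helper76.TCL.P.QA
import Pool.Agent.Lib_helper76.TCL.P.QB
import Pool.Agent.Lib_helper76.TCL.P.QF

set_option autoImplicit false

namespace Pool.Agent.TCL

open Complex

theorem mb_cop_left {O : Subring ℂ} {f a : O} {N : ℕ} (h : IsCoprime a ((N : O) * f)) :
    IsCoprime a (N : O) ∧ IsCoprime a f :=
  ⟨IsCoprime.of_mul_right_left h, IsCoprime.of_mul_right_right h⟩

theorem mb_cop_psi {O : Subring ℂ} {f : O} {ε : O → O} (hε : GC O f ε) {N : ℕ} {a : O}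
    (h : IsCoprime a ((N : O) * f)) : IsCoprime (ε a * a) (N : O) := by
  obtain ⟨h1, h2⟩ := mb_cop_left h
  have hu := hε.unit a h2
  exact IsCoprime.mul_left (isCoprime_of_isUnit_left' hu) h1
where
  isCoprime_of_isUnit_left' {O : Subring ℂ} {u b : O} (hu : IsUnit u) : IsCoprime u b := by
    obtain ⟨v, hv⟩ := hu.exists_right_inv
    exact ⟨v, 0, by rw [zero_mul, add_zero, mul_comm]; exact hv⟩

/-- divisibility by `N` after multiplication with `ψ(a)` -/
theorem mb_dvd_iff {O : Subring ℂ} {f : O} {ε : O → O} (hε : GC O f ε) {N : ℕ} {a z : O}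
    (h : IsCoprime a ((N : O) * f)) : (N : O) ∣ ε a * a * z ↔ (N : O) ∣ z := by
  constructor
  · intro h1
    exact (mb_cop_psi hε h).symm.dvd_of_dvd_mul_left h1
  · intro h1
    exact Dvd.dvd.mul_left h1 _

theorem mb_cj_dvd_iff {O : Subring ℂ} {ω : ℂ} (hO : Quad O ω) {N : ℕ} {z : O} :
    (N : O) ∣ cj hO z ↔ (N : O) ∣ z := by
  constructor
  · intro h
    have := cj_dvd hO h
    rwa [cj_cj, cj_nat] at this
  · intro h
    have := cj_dvd hO h
    rwa [cj_nat] at this

theorem mb_cj_coprime {O : Subring ℂ} {ω : ℂ} (hO : Quad O ω) {f : O} {ε : O → O}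
    (hε : GC O f ε) {N : ℕ} {a : O} (h : IsCoprime a ((N : O) * f)) :
    IsCoprime (cj hO a) ((N : O) * f) := by
  obtain ⟨h1, h2⟩ := mb_cop_left h
  refine IsCoprime.mul_right ?_ ?_
  · have := cj_isCoprime hO h1
    rwa [cj_nat] at this
  · by_contra hcon
    have h3 := hε.zero _ hcon
    rw [eps_cj hO hε] at h3
    have h4 := cj_isUnit hO (hε.unit a h2)
    rw [h3] at h4
    exact not_isUnit_zero h4

theorem mb_per {O : Subring ℂ} {f : O} {ε : O → O} (hε : GC O f ε) {N : ℕ} (a y : O) :
    ε (a + (N : O) * f * y) = ε a := by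
  have : a + (N : O) * f * y = a + f * ((N : O) * y) := by ring
  rw [this, hε.per]

open Classical in
/-- the sum form of a count -/
theorem mb_count {O : Subring ℂ} (M : O) (R : Finset O) (p : O → Prop) :
    (((R.filter (fun a => IsCoprime a M)).filter (fun a => p a)).card : ℚ) =
      ∑ a ∈ R.filter (fun a => IsCoprime a M), if p a then (1 : ℚ) else 0 := by
  rw [Finset.sum_boole]

open Classical in
/-- substitution `a → c a` in a count -/
theorem mb_subst {O : Subring ℂ} {M : O} {R : Finset O} (hR : IsReps M R) (p q : O → Prop)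
    (hp : ∀ x y, p (x + M * y) ↔ p x) (c : O) (hc : IsCoprime c M)
    (hpq : ∀ a, IsCoprime a M → (p (c * a) ↔ q a)) :
    (((R.filter (fun a => IsCoprime a M)).filter (fun a => p a)).card : ℚ) =
      (((R.filter (fun a => IsCoprime a M)).filter (fun a => q a)).card : ℚ) := by
  rw [mb_count, mb_count,
    ← filter_mul_coprime hR (fun a => if p a then (1 : ℚ) else 0) ?_ c hc]
  · refine Finset.sum_congr rfl (fun a ha => ?_)
    have := hpq a (Finset.mem_filter.1 ha).2
    by_cases h : q a
    · rw [if_pos h, if_pos (this.2 h)]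
    · rw [if_neg h, if_neg (fun h' => h (this.1 h'))]
  · intro x y
    by_cases h : p x
    · rw [if_pos h, if_pos ((hp x y).2 h)]
    · rw [if_neg h, if_neg (fun h' => h ((hp x y).1 h'))]

theorem orb_div {O : Subring ℂ} {ω : ℂ} (hO : Quad O ω) {f : O} (hf : f ≠ 0)
    {ε : O → O} (hε : GC O f ε) {v : O} (hv : IsUnit v) {N : ℕ} (hN : 0 < N) {R : Finset O}
    (hR : IsReps ((N : O) * f) R) (x0 : O) (hx0 : ¬ (N : O) ∣ x0) :
    Div O f ε v N (orb hO ε v N ((N : O) * f) R x0) := by
  classical
  have hvd : ∀ z : O, ((N : O) ∣ v * z) ↔ ((N : O) ∣ z) := by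
    intro z
    constructor
    · intro h
      obtain ⟨w, hw⟩ := hv.exists_left_inv
      have := Dvd.dvd.mul_left h w
      rwa [← mul_assoc, hw, one_mul] at this
    · intro h
      exact Dvd.dvd.mul_left h v
  have hvv : v * cj hO v = 1 := by
    apply Subtype.ext
    have := unit_mul_conj hO v hv
    push_cast
    rw [coe_cj]
    exact this
  have hpsi : ∀ a y : O, (N : O) ∣ ε (a + (N : O) * f * y) * (a + (N : O) * f * y) * x0
      - ε a * a * x0 := by
    intro a y
    rw [mb_per hε]
    exact ⟨ε a * f * y * x0, by ring⟩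
  refine ⟨?_, ?_, ?_, ?_⟩
  · intro x y
    have h : ∀ z : O, ((N : O) ∣ x + N * y - z) ↔ ((N : O) ∣ x - z) := by
      intro z
      have : x + N * y - z = x - z + N * y := by ring
      rw [this]
      exact (dvd_add_left (Dvd.intro _ rfl))
    unfold orb
    simp only [h]
  · intro x hx
    unfold orb
    have h1 : ((R.filter (fun a => IsCoprime a ((N : O) * f))).filter
        (fun a => (N : O) ∣ x - ε a * a * x0)) = ∅ := by
      rw [Finset.filter_eq_empty_iff]
      intro a ha h
      have ha' := (Finset.mem_filter.1 ha).2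
      have h2 : (N : O) ∣ ε a * a * x0 := by
        have := dvd_sub hx h
        simpa using this
      exact hx0 ((mb_dvd_iff hε ha').1 h2)
    have h2 : ((R.filter (fun a => IsCoprime a ((N : O) * f))).filter
        (fun a => (N : O) ∣ x - v * cj hO (ε a * a * x0))) = ∅ := by
      rw [Finset.filter_eq_empty_iff]
      intro a ha h
      have ha' := (Finset.mem_filter.1 ha).2
      have h2 : (N : O) ∣ cj hO (ε a * a * x0) := by
        have := dvd_sub hx h
        rw [sub_sub_cancel, hvd] at this
        exact this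
      exact hx0 ((mb_dvd_iff hε ha').1 ((mb_cj_dvd_iff hO).1 h2))
    rw [h1, h2]
    simp
  · intro a0 x ha0
    unfold orb
    congr 1
    · refine mb_subst hR (fun a => (N : O) ∣ ε a0 * a0 * x - ε a * a * x0)
        (fun a => (N : O) ∣ x - ε a * a * x0) ?_ a0 ha0 ?_
      · intro a y
        have : ε a0 * a0 * x - ε (a + (N : O) * f * y) * (a + (N : O) * f * y) * x0 =
            (ε a0 * a0 * x - ε a * a * x0) -
              (ε (a + (N : O) * f * y) * (a + (N : O) * f * y) * x0 - ε a * a * x0) := by ring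
        rw [this]
        exact dvd_sub_left (hpsi a y)
      · intro a ha
        have : ε a0 * a0 * x - ε (a0 * a) * (a0 * a) * x0 =
            ε a0 * a0 * (x - ε a * a * x0) := by
          rw [hε.mul]; ring
        rw [this]
        exact mb_dvd_iff hε ha0
    · refine mb_subst hR (fun a => (N : O) ∣ ε a0 * a0 * x - v * cj hO (ε a * a * x0))
        (fun a => (N : O) ∣ x - v * cj hO (ε a * a * x0)) ?_ (cj hO a0)
        (mb_cj_coprime hO hε ha0) ?_
      · intro a y
        have h1 : (N : O) ∣ cj hO (ε (a + (N : O) * f * y) * (a + (N : O) * f * y) * x0)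
            - cj hO (ε a * a * x0) := by
          rw [← cj_sub]
          exact (mb_cj_dvd_iff hO).2 (hpsi a y)
        have : ε a0 * a0 * x - v * cj hO (ε (a + (N : O) * f * y) * (a + (N : O) * f * y) * x0) =
            (ε a0 * a0 * x - v * cj hO (ε a * a * x0)) -
              v * (cj hO (ε (a + (N : O) * f * y) * (a + (N : O) * f * y) * x0)
                - cj hO (ε a * a * x0)) := by ring
        rw [this]
        exact dvd_sub_left ((hvd _).2 h1)
      · intro a ha
        have : ε a0 * a0 * x - v * cj hO (ε (cj hO a0 * a) * (cj hO a0 * a) * x0) =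
            ε a0 * a0 * (x - v * cj hO (ε a * a * x0)) := by
          rw [hε.mul, eps_cj hO hε]
          have e : cj hO (ε a0) * ε a * (cj hO a0 * a) * x0 =
              cj hO (ε a0 * a0) * (ε a * a * x0) := by
            rw [cj_mul]; ring
          rw [e, cj_mul, cj_cj]
          ring
        rw [this]
        exact mb_dvd_iff hε ha0
  · intro x x' hx'
    have e : x' = cj hO x := Subtype.ext hx'
    subst e
    unfold orb
    rw [add_comm]
    congr 1
    · have h : ∀ z : O, ((N : O) ∣ v * cj hO x - v * cj hO z) ↔ ((N : O) ∣ x - z) := by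
        intro z
        rw [← mul_sub, ← cj_sub, hvd]
        exact mb_cj_dvd_iff hO
      simp only [h]
    · have h : ∀ z : O, ((N : O) ∣ v * cj hO x - z) ↔ ((N : O) ∣ x - v * cj hO z) := by
        intro z
        have : v * cj hO x - z = v * cj hO (x - v * cj hO z) := by
          rw [cj_sub, cj_mul, cj_cj, mul_sub, ← mul_assoc, hvv, one_mul]
        rw [this, hvd]
        exact mb_cj_dvd_iff hO
      simp only [h]

end Pool.Agent.TCL
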