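import Mathlib
import Pool.Agent.Lib_helper76.TCL.Defs
import Pool.Agent.Lib_helper76.TCL.Defs2
import Pool.Agent.Lib_helper76.TCL.P.QB
import Pool.Agent.Lib_helper76.TCL.P.QF
import Pool.Agent.Lib_helper76.TCL.P.SI
import Pool.Agent.Lib_helper76.TCL.P.SE

set_option autoImplicit false

namespace Pool.Agent.TCL

open Complex

open Classical in
theorem me_count {O : Subring ℂ} {ω : ℂ} (hO : Quad O ω) {N : ℕ} (hN : 0 < N) {R' : Finset O}
    (hR' : IsReps (N : O) R') (s : Finset O) (y : O → O) :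
    ∑ x ∈ R', ((s.filter (fun a => (N : O) ∣ x - y a)).card : ℂ) * SS O ω ((x : ℂ) / N)
      = ∑ a ∈ s, SS O ω ((y a : ℂ) / N) := by
  have hN0 : (N : ℂ) ≠ 0 := by exact_mod_cast hN.ne'
  have h1 : ∀ x ∈ R', ((s.filter (fun a => (N : O) ∣ x - y a)).card : ℂ) * SS O ω ((x : ℂ) / N)
      = ∑ a ∈ s, if (N : O) ∣ x - y a then SS O ω ((x : ℂ) / N) else 0 := by
    intro x _
    rw [← Finset.sum_filter, Finset.sum_const, nsmul_eq_mul]
  rw [Finset.sum_congr rfl h1, Finset.sum_comm]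
  apply Finset.sum_congr rfl
  intro a _
  obtain ⟨k, ⟨hk, hd⟩, huniq⟩ := hR' (y a)
  rw [Finset.sum_eq_single k]
  · rw [if_pos ((dvd_sub_comm).1 hd)]
    obtain ⟨c, hc⟩ := hd
    have h2 : (y a : ℂ) - (k : ℂ) = (N : ℂ) * (c : ℂ) := by
      have := congrArg (fun z : O => (z : ℂ)) hc
      simpa using this
    have h3 : (y a : ℂ) / N = (k : ℂ) / N + (c : ℂ) := by
      field_simp
      linear_combination h2
    rw [h3, SS_per hO]
  · intro b hb hbk
    rw [if_neg]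
    intro hdb
    exact hbk (huniq b ⟨hb, (dvd_sub_comm).1 hdb⟩)
  · intro h
    exact absurd hk h

theorem orb_sum {O : Subring ℂ} {ω : ℂ} (hO : Quad O ω) (hP : IsPrincipalIdealRing O) {f : O}
    (hf : f ≠ 0) {ε : O → O} (hε : GC O f ε) {v : O} (hv : IsUnit v) {N : ℕ} (hN : 0 < N)
    {R R' : Finset O}
    (hR : IsReps ((N : O) * f) R) (hR' : IsReps (N : O) R') (x0 : O) :
    ∑ x ∈ R', (orb hO ε v N ((N : O) * f) R x0 x : ℂ) * SS O ω ((x : ℂ) / N)
      = (phi ((N : O) * f) R : ℂ) *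
        (Sb O ω f ε ((x0 : ℂ) / N) +
          starRingEnd ℂ (v : ℂ) * starRingEnd ℂ (Sb O ω f ε ((x0 : ℂ) / N))) := by
  classical
  have hN0 : (N : ℂ) ≠ 0 := by exact_mod_cast hN.ne'
  have hNO : (N : O) ≠ 0 := by
    intro h
    apply hN0
    have := congrArg (fun z : O => (z : ℂ)) h
    simpa using this
  have hM0 : (N : O) * f ≠ 0 := mul_ne_zero hNO hf
  have hMt : (((N : O) * f : O) : ℂ) * ((x0 : ℂ) / N) ∈ O := by
    have h : (((N : O) * f : O) : ℂ) * ((x0 : ℂ) / N) = ((f * x0 : O) : ℂ) := by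
      push_cast
      field_simp
    rw [h]
    exact (f * x0).2
  have hSb := Sb_eq hO hP hε (dvd_mul_left f (N : O)) hM0 hR hMt
  set s := R.filter (fun a => IsCoprime a ((N : O) * f)) with hs
  have hphi : (phi ((N : O) * f) R : ℂ) = (s.card : ℂ) := rfl
  have hpos : (s.card : ℂ) ≠ 0 := by
    have : 0 < s.card := by
      have := phi_pos hR
      exact this
    exact_mod_cast this.ne'
  have hAV : (s.card : ℂ) * Sb O ω f ε ((x0 : ℂ) / N) =
      ∑ a ∈ s, SS O ω (ε a * a * ((x0 : ℂ) / N)) := by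
    rw [hSb]
    unfold AV
    exact mul_div_cancel₀ _ hpos
  have h1 := me_count hO hN hR' s (fun a => ε a * a * x0)
  have h2 := me_count hO hN hR' s (fun a => v * cj hO (ε a * a * x0))
  have h3 : ∑ a ∈ s, SS O ω (((ε a * a * x0 : O) : ℂ) / N) =
      (s.card : ℂ) * Sb O ω f ε ((x0 : ℂ) / N) := by
    rw [hAV]
    apply Finset.sum_congr rfl
    intro a _
    congr 1
    push_cast
    ring
  have h4 : ∑ a ∈ s, SS O ω (((cj hO (ε a * a * x0) : O) : ℂ) / N) =
      (s.card : ℂ) * starRingEnd ℂ (Sb O ω f ε ((x0 : ℂ) / N)) := by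
    have h5 : starRingEnd ℂ ((s.card : ℂ) * Sb O ω f ε ((x0 : ℂ) / N)) =
        (s.card : ℂ) * starRingEnd ℂ (Sb O ω f ε ((x0 : ℂ) / N)) := by
      rw [map_mul, map_natCast]
    rw [← h5, ← h3, map_sum]
    apply Finset.sum_congr rfl
    intro a _
    rw [SS_conj hO]
    congr 1
    rw [coe_cj, map_div₀, map_natCast]
  have h6 : ∑ a ∈ s, SS O ω (((v * cj hO (ε a * a * x0) : O) : ℂ) / N) =
      (s.card : ℂ) * (starRingEnd ℂ (v : ℂ) * starRingEnd ℂ (Sb O ω f ε ((x0 : ℂ) / N))) := by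
    have h7 : (s.card : ℂ) * (starRingEnd ℂ (v : ℂ) * starRingEnd ℂ (Sb O ω f ε ((x0 : ℂ) / N)))
        = starRingEnd ℂ (v : ℂ) * ∑ a ∈ s, SS O ω (((cj hO (ε a * a * x0) : O) : ℂ) / N) := by
      rw [h4]; ring
    rw [h7, Finset.mul_sum]
    apply Finset.sum_congr rfl
    intro a _
    rw [← SS_unit hO v hv]
    congr 1
    push_cast
    ring
  rw [hphi, mul_add, ← h3, ← h6, ← h1, ← h2, ← Finset.sum_add_distrib]
  apply Finset.sum_congr rfl
  intro x _
  unfold orb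
  push_cast
  rw [← add_mul]

end Pool.Agent.TCL
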