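import Mathlib
import Pool.Agent.Lib_helper76.TCL.Defs
import Pool.Agent.Lib_helper76.TCL.Defs2
import Pool.Agent.Lib_helper76.TCL.P.QK

set_option autoImplicit false

namespace Pool.Agent.TCL

open Complex

/-- the real elements of `O` are integers -/
theorem ql_real_int {O : Subring ℂ} {ω : ℂ} (hO : Quad O ω) {z : ℂ} (hz : z ∈ O)
    (hr : starRingEnd ℂ z = z) : ∃ m : ℤ, z = (m : ℂ) := by
  obtain ⟨a, b, hab⟩ := (hO.mem z).1 hz
  have him : z.im = 0 := Complex.conj_eq_iff_im.1 hr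
  have h1 : z.im = (b : ℝ) * ω.im := by
    rw [hab]
    simp
  have h2 : (b : ℝ) = 0 := by
    rw [him] at h1
    rcases mul_eq_zero.1 h1.symm with h | h
    · exact h
    · exact absurd h (ne_of_gt hO.im_pos)
  have h3 : b = 0 := by exact_mod_cast h2
  refine ⟨a, ?_⟩
  rw [hab, h3]
  simp

/-- the norm of a nonzero element of `O` is a positive natural number -/
theorem ql_norm_nat {O : Subring ℂ} {ω : ℂ} (hO : Quad O ω) (b : O) (hb : b ≠ 0) :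
    ∃ N : ℕ, 0 < N ∧ (b : ℂ) * starRingEnd ℂ (b : ℂ) = (N : ℂ) := by
  have hmem : (b : ℂ) * starRingEnd ℂ (b : ℂ) ∈ O := O.mul_mem b.2 (conj_mem hO b.2)
  have hreal : starRingEnd ℂ ((b : ℂ) * starRingEnd ℂ (b : ℂ)) = (b : ℂ) * starRingEnd ℂ (b : ℂ) := by
    rw [map_mul, Complex.conj_conj, mul_comm]
  obtain ⟨m, hm⟩ := ql_real_int hO hmem hreal
  have h1 : ((Complex.normSq (b : ℂ) : ℝ) : ℂ) = (m : ℂ) := by
    rw [← hm, Complex.mul_conj]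
  have h2 : Complex.normSq (b : ℂ) = (m : ℝ) := by
    have h3 := congrArg Complex.re h1
    simpa using h3
  have hpos : (0 : ℝ) < Complex.normSq (b : ℂ) := Complex.normSq_pos.2 (coe_ne_zero hb)
  have hm0 : 0 < m := by
    rw [h2] at hpos
    exact_mod_cast hpos
  refine ⟨m.toNat, by omega, ?_⟩
  rw [hm]
  have h4 : ((m.toNat : ℕ) : ℤ) = m := Int.toNat_of_nonneg hm0.le
  have h5 : (((m.toNat : ℕ) : ℤ) : ℂ) = (m : ℂ) := by rw [h4]
  rw [← h5]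
  norm_cast

theorem real_mem_KK {O : Subring ℂ} {ω : ℂ} (hO : Quad O ω) {z : ℂ} (hz : z ∈ KK O)
    (hr : starRingEnd ℂ z = z) : ∃ r : ℚ, z = (r : ℂ) := by
  obtain ⟨a, b, hb, h⟩ := (mem_KK z).1 hz
  obtain ⟨N, hN, hNb⟩ := ql_norm_nat hO b hb
  have hb0 : (b : ℂ) ≠ 0 := coe_ne_zero hb
  have hN0 : (N : ℂ) ≠ 0 := by exact_mod_cast hN.ne'
  have h1 : (N : ℂ) * z = (a : ℂ) * starRingEnd ℂ (b : ℂ) := by
    rw [← hNb, h]
    field_simp
  have hmem : (N : ℂ) * z ∈ O := by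
    rw [h1]
    exact O.mul_mem a.2 (conj_mem hO b.2)
  have hreal : starRingEnd ℂ ((N : ℂ) * z) = (N : ℂ) * z := by
    rw [map_mul, map_natCast, hr]
  obtain ⟨m, hm⟩ := ql_real_int hO hmem hreal
  refine ⟨(m : ℚ) / (N : ℚ), ?_⟩
  push_cast
  rw [eq_div_iff hN0, mul_comm]
  exact hm

theorem nat_denom {O : Subring ℂ} {ω : ℂ} (hO : Quad O ω) {z : ℂ} (hz : z ∈ KK O) :
    ∃ N : ℕ, 0 < N ∧ (N : ℂ) * z ∈ O := by
  obtain ⟨a, b, hb, h⟩ := (mem_KK z).1 hz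
  obtain ⟨N, hN, hNb⟩ := ql_norm_nat hO b hb
  have hb0 : (b : ℂ) ≠ 0 := coe_ne_zero hb
  refine ⟨N, hN, ?_⟩
  have h1 : (N : ℂ) * z = (a : ℂ) * starRingEnd ℂ (b : ℂ) := by
    rw [← hNb, h]
    field_simp
  rw [h1]
  exact O.mul_mem a.2 (conj_mem hO b.2)

end Pool.Agent.TCL
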