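import Mathlib
import Pool.Agent.Lib_helper76.TCL.Defs
import Pool.Agent.Lib_helper76.TCL.Defs2
import Pool.Agent.Lib_helper76.TCL.P.QA
import Pool.Agent.Lib_helper76.TCL.P.SA
import Pool.Agent.Lib_helper76.TCL.P.SB
import Pool.Agent.Lib_helper76.TCL.P.SI
import Pool.Agent.Lib_helper76.TCL.P.SO

set_option autoImplicit false

namespace Pool.Agent.TCL

open Complex

theorem sc_inj {O : Subring ℂ} {ω : ℂ} (hO : Quad O ω) {a : O} (ha : a ≠ 0) :
    Function.Injective (fun g : O => cj hO a * g) := by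
  intro x y hxy
  have h0 : cj hO a ≠ 0 := by
    intro h
    apply ha
    have := congrArg (cj hO) h
    rwa [cj_cj, cj_zero] at this
  exact mul_left_cancel₀ h0 hxy

theorem sc_norm {O : Subring ℂ} (a : O) :
    (‖(a : ℂ)‖ : ℂ) ^ 2 = (a : ℂ) * starRingEnd ℂ (a : ℂ) := by
  rw [Complex.mul_conj, Complex.normSq_eq_norm_sq]
  push_cast
  rfl

theorem sc_alg (A B N M p c : ℂ) (hA : A ≠ 0) (hB : B ≠ 0) (hN : N ^ 2 = A * B) :
    N ^ 2 * p * (A * c) / (N * M) ^ 6 = p * c / M ^ 6 / (A * B ^ 2) := by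
  have h6 : (N * M) ^ 6 = (A * B) ^ 3 * M ^ 6 := by
    rw [mul_pow, ← hN]; ring
  rw [h6, hN]
  by_cases hM : M = 0
  · subst hM
    simp
  · field_simp

/-- the distribution relation of the Eisenstein-Kronecker series -/
theorem SS_dist {O : Subring ℂ} {ω : ℂ} (hO : Quad O ω) {a : O} (ha : a ≠ 0) {R : Finset O}
    (hR : IsReps a R) (t : ℂ) :
    ∑ k ∈ R, SS O ω ((t + k) / a) = SS O ω t / ((a : ℂ) * starRingEnd ℂ (a : ℂ) ^ 2) := by
  have haC : (a : ℂ) ≠ 0 := coe_ne_zero ha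
  have hbC : starRingEnd ℂ (a : ℂ) ≠ 0 := by simpa using haC
  unfold SS
  have hsw := Summable.tsum_finsetSum (s := R) (f := fun (k g : O) =>
      pr ω ((t + (k : ℂ)) / a) (g : ℂ) * starRingEnd ℂ (g : ℂ) / (‖(g : ℂ)‖ : ℂ) ^ 6)
      (fun k _ => summable_SS hO ((t + k) / a))
  rw [← hsw]
  have h1 : ∀ g : O, ∑ k ∈ R, pr ω ((t + (k : ℂ)) / a) (g : ℂ) * starRingEnd ℂ (g : ℂ) /
      (‖(g : ℂ)‖ : ℂ) ^ 6 = (∑ k ∈ R, pr ω ((t + (k : ℂ)) / a) (g : ℂ)) * starRingEnd ℂ (g : ℂ) /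
      (‖(g : ℂ)‖ : ℂ) ^ 6 := by
    intro g
    rw [Finset.sum_mul, Finset.sum_div]
  simp_rw [h1]
  have hsupp : Function.support (fun g : O => (∑ k ∈ R, pr ω ((t + (k : ℂ)) / a) (g : ℂ)) *
      starRingEnd ℂ (g : ℂ) / (‖(g : ℂ)‖ : ℂ) ^ 6) ⊆ Set.range (fun g : O => cj hO a * g) := by
    intro g hg
    by_contra hcon
    apply hg
    have hnd : ¬ cj hO a ∣ g := by
      rintro ⟨y, hy⟩
      exact hcon ⟨y, hy.symm⟩
    simp only [orth_zero hO ha hR t g hnd, zero_mul, zero_div]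
  rw [← (sc_inj hO ha).tsum_eq hsupp, ← tsum_div_const]
  refine tsum_congr fun g => ?_
  rw [orth hO ha hR t g]
  have hc : ((cj hO a * g : O) : ℂ) = starRingEnd ℂ (a : ℂ) * (g : ℂ) := by
    rw [Subring.coe_mul, coe_cj]
  rw [hc, map_mul, Complex.conj_conj, norm_mul, RCLike.norm_conj]
  push_cast
  exact sc_alg (a : ℂ) (starRingEnd ℂ (a : ℂ)) _ _ _ _ haC hbC (sc_norm a)

end Pool.Agent.TCL
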