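import Mathlib
import Pool.Agent.Lib_helper76.TCL.Defs
import Pool.Agent.Lib_helper76.TCL.Defs2
import Pool.Agent.Lib_helper76.TCL.P.QK
import Pool.Agent.Lib_helper76.TCL.P.QL
import Pool.Agent.Lib_helper76.TCL.P.QB
import Pool.Agent.Lib_helper76.TCL.P.QF
import Pool.Agent.Lib_helper76.TCL.P.SI
import Pool.Agent.Lib_helper76.TCL.P.SC
import Pool.Agent.Lib_helper76.TCL.P.SE

set_option autoImplicit false

namespace Pool.Agent.TCL

open Complex

/-- average the distribution relation of `SS`, modulo `M a` with `f ∣ M` and `M t ∈ O` -/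
theorem Sb_dist {O : Subring ℂ} {ω : ℂ} (hO : Quad O ω) (hP : IsPrincipalIdealRing O) {f : O}
    (hf : f ≠ 0) {ε : O → O} (hε : GC O f ε) {t : ℂ} (ht : t ∈ KK O) {a : O} (ha : a ≠ 0)
    {R : Finset O} (hR : IsReps a R) :
    ∑ k ∈ R, Sb O ω f ε ((t + k) / a)
      = Sb O ω f ε t / ((a : ℂ) * starRingEnd ℂ (a : ℂ) ^ 2) := by
  classical
  obtain ⟨N, hN, hNt⟩ := nat_denom hO ht
  have hN0 : (N : ℂ) ≠ 0 := by exact_mod_cast hN.ne'
  have hNO : (N : O) ≠ 0 := by
    intro h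
    apply hN0
    have := congrArg (fun z : O => (z : ℂ)) h
    simpa using this
  have haC : (a : ℂ) ≠ 0 := coe_ne_zero ha
  set M : O := (N : O) * f * a with hM
  have hM0 : M ≠ 0 := mul_ne_zero (mul_ne_zero hNO hf) ha
  have hfM : f ∣ M := ⟨(N : O) * a, by rw [hM]; ring⟩
  obtain ⟨RM, hRM⟩ := exists_reps hO M hM0
  have hMt : (M : ℂ) * t ∈ O := by
    have h : (M : ℂ) * t = (f : ℂ) * (a : ℂ) * ((N : ℂ) * t) := by
      rw [hM]; push_cast; ring
    rw [h]
    exact O.mul_mem (O.mul_mem f.2 a.2) hNt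
  have hMk : ∀ k : O, (M : ℂ) * ((t + k) / a) ∈ O := by
    intro k
    have h : (M : ℂ) * ((t + k) / a) = (f : ℂ) * ((N : ℂ) * t) + (N : ℂ) * (f : ℂ) * (k : ℂ) := by
      rw [hM]; push_cast; field_simp
    rw [h]
    refine O.add_mem (O.mul_mem f.2 hNt) (O.mul_mem (O.mul_mem ?_ f.2) k.2)
    exact natCast_mem O N
  rw [Sb_eq hO hP hε hfM hM0 hRM hMt]
  have h1 : ∀ k ∈ R, Sb O ω f ε ((t + k) / a) = AV O ω ε M RM ((t + k) / a) :=
    fun k _ => Sb_eq hO hP hε hfM hM0 hRM (hMk k)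
  rw [Finset.sum_congr rfl h1]
  unfold AV
  rw [← Finset.sum_div, Finset.sum_comm, div_right_comm]
  congr 1
  rw [Finset.sum_div]
  apply Finset.sum_congr rfl
  intro b hb
  have hbM : IsCoprime b M := (Finset.mem_filter.1 hb).2
  have hbf : IsCoprime b f := IsCoprime.of_isCoprime_of_dvd_right hbM hfM
  have hba : IsCoprime b a :=
    IsCoprime.of_isCoprime_of_dvd_right hbM ⟨(N : O) * f, by rw [hM]; ring⟩
  have hu : IsCoprime (ε b) a := by
    obtain ⟨v, hv⟩ := (hε.unit b hbf).exists_left_inv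
    exact ⟨v, 0, by rw [hv]; ring⟩
  have hc : IsCoprime (ε b * b) a := IsCoprime.mul_left hu hba
  have hF : ∀ x y : O, SS O ω ((((ε b * b : O) : ℂ) * t + ((x + a * y : O) : ℂ)) / a) =
      SS O ω ((((ε b * b : O) : ℂ) * t + (x : ℂ)) / a) := by
    intro x y
    have h : (((ε b * b : O) : ℂ) * t + ((x + a * y : O) : ℂ)) / a =
        (((ε b * b : O) : ℂ) * t + (x : ℂ)) / a + (y : ℂ) := by
      push_cast
      field_simp
      ring
    rw [h, SS_per hO]
  have h2 := sum_mul_coprime hR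
    (fun k : O => SS O ω ((((ε b * b : O) : ℂ) * t + (k : ℂ)) / a)) hF (ε b * b) hc
  have h3 := SS_dist hO ha hR (((ε b * b : O) : ℂ) * t)
  have h4 : ((ε b * b : O) : ℂ) = (ε b : ℂ) * (b : ℂ) := by push_cast; rfl
  rw [h4] at h3
  rw [← h3]
  have h5 : ∑ k ∈ R, SS O ω (ε b * b * ((t + k) / a)) =
      ∑ k ∈ R, SS O ω ((((ε b * b : O) : ℂ) * t + ((ε b * b * k : O) : ℂ)) / a) := by
    apply Finset.sum_congr rfl
    intro k _
    congr 1
    push_cast
    ring
  rw [h5, h2]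
  apply Finset.sum_congr rfl
  intro k _
  rw [h4]

end Pool.Agent.TCL
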