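import Mathlib
import Pool.Agent.Lib_helper76.TCL.Defs
import Pool.Agent.Lib_helper76.TCL.Defs2
import Pool.Agent.Lib_helper76.TCL.P.QA
import Pool.Agent.Lib_helper76.TCL.P.QK
import Pool.Agent.Lib_helper76.TCL.P.QL
import Pool.Agent.Lib_helper76.TCL.P.QB
import Pool.Agent.Lib_helper76.TCL.P.QF
import Pool.Agent.Lib_helper76.TCL.P.SG
import Pool.Agent.Lib_helper76.TCL.P.MB
import Pool.Agent.Lib_helper76.TCL.P.ME

set_option autoImplicit false

namespace Pool.Agent.TCL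

open Complex

theorem mf_inv_notMem {O : Subring ℂ} {f : O} (hf : f ≠ 0) {ε : O → O} (hε : GC O f ε) :
    1 / (f : ℂ) ∉ O := by
  intro hmem
  have hf0 : (f : ℂ) ≠ 0 := coe_ne_zero hf
  have h1 : f * (⟨1 / (f : ℂ), hmem⟩ : O) = 1 := by
    refine Subtype.ext ?_
    push_cast
    field_simp
  have h2 : ∀ a : O, ε a = ε 0 := by
    intro a
    have h3 := hε.per 0 ((⟨1 / (f : ℂ), hmem⟩ : O) * a)
    rw [← mul_assoc, h1, one_mul, zero_add] at h3
    exact h3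
  have h4 : ε 1 = 1 := eps_one hε
  have h5 := hε.inv (-1) isUnit_one.neg
  rw [h2 (-1), ← h2 1, h4] at h5
  have h6 := congrArg (fun x : O => (x : ℂ)) h5
  norm_num at h6

/-- if all `Sb t` are purely imaginary, the distribution relation for `a = ω` gives
`Sb (1/f) = 0` -/
theorem exists_re_ne {O : Subring ℂ} {ω : ℂ} (hO : Quad O ω) (hP : IsPrincipalIdealRing O)
    {f : O} (hf : f ≠ 0) {ε : O → O} (hε : GC O f ε) {v : O} (hv : IsUnit v)
    (h : Sb O ω f ε (1 / (f : ℂ)) ≠ 0) :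
    ∃ t ∈ KK O, t ∉ O ∧
      Sb O ω f ε t + starRingEnd ℂ (v : ℂ) * starRingEnd ℂ (Sb O ω f ε t) ≠ 0 := by
  by_contra hcon
  push Not at hcon
  have hf0 : (f : ℂ) ≠ 0 := coe_ne_zero hf
  have hnot := mf_inv_notMem hf hε
  have him : ω.im ≠ 0 := ne_of_gt hO.im_pos
  have hω : ω ≠ 0 := by
    rintro rfl
    exact him (by simp)
  have hωc : starRingEnd ℂ ω ≠ 0 := by
    intro hc
    exact hω (by simpa using hc)
  have hne : ω - starRingEnd ℂ ω ≠ 0 := by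
    intro h
    have : (ω - starRingEnd ℂ ω).im = 0 := by rw [h]; simp
    simp at this
    exact him this
  have hw0 : (⟨ω, quad_omega hO⟩ : O) ≠ 0 := by
    intro hc
    exact hω (congrArg (fun x : O => (x : ℂ)) hc)
  obtain ⟨R, hR⟩ := exists_reps hO (⟨ω, quad_omega hO⟩ : O) hw0
  have ht : 1 / (f : ℂ) ∈ KK O := (KK O).div_mem (KK O).one_mem (coe_mem_KK f)
  have hd := Sb_dist hO hP hf hε ht hw0 hR
  have h1 := hcon _ ht hnot
  have h2 : (∑ k ∈ R, Sb O ω f ε ((1 / (f : ℂ) + k) / ((⟨ω, quad_omega hO⟩ : O) : ℂ))) +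
      starRingEnd ℂ (v : ℂ) * starRingEnd ℂ (∑ k ∈ R,
        Sb O ω f ε ((1 / (f : ℂ) + k) / ((⟨ω, quad_omega hO⟩ : O) : ℂ))) = 0 := by
    rw [map_sum, Finset.mul_sum, ← Finset.sum_add_distrib]
    refine Finset.sum_eq_zero (fun k _ => ?_)
    refine hcon _ ((KK O).div_mem ((KK O).add_mem ht (coe_mem_KK k)) (coe_mem_KK _)) ?_
    intro hmem
    have h3 : ω * ((1 / (f : ℂ) + k) / ω) ∈ O := O.mul_mem (quad_omega hO) hmem
    rw [mul_div_cancel₀ _ hω] at h3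
    have h4 := O.sub_mem h3 k.2
    rw [add_sub_cancel_right] at h4
    exact hnot h4
  rw [hd] at h2
  have hvv := unit_mul_conj hO v hv
  have h5 : starRingEnd ℂ (Sb O ω f ε (1 / (f : ℂ))) = - (v * Sb O ω f ε (1 / (f : ℂ))) := by
    linear_combination (v : ℂ) * h1 - starRingEnd ℂ (Sb O ω f ε (1 / (f : ℂ))) * hvv
  simp only [map_div₀, map_mul, map_pow, starRingEnd_self_apply] at h2
  rw [h5] at h2
  have h8 : Sb O ω f ε (1 / (f : ℂ)) / (ω * starRingEnd ℂ ω ^ 2)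
      - Sb O ω f ε (1 / (f : ℂ)) / (starRingEnd ℂ ω * ω ^ 2) = 0 := by
    linear_combination h2 + (Sb O ω f ε (1 / (f : ℂ)) / (starRingEnd ℂ ω * ω ^ 2)) * hvv
  field_simp at h8
  have h6 : Sb O ω f ε (1 / (f : ℂ)) * (ω - starRingEnd ℂ ω) = 0 := by
    linear_combination h8
  rcases mul_eq_zero.1 h6 with h7 | h7
  · exact h h7
  · exact hne h7

theorem exists_div {O : Subring ℂ} {ω : ℂ} (hO : Quad O ω) (hP : IsPrincipalIdealRing O)
    {f : O} (hf : f ≠ 0) {ε : O → O} (hε : GC O f ε) {v : O} (hv : IsUnit v)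
    (h : Sb O ω f ε (1 / (f : ℂ)) ≠ 0) :
    ∃ (N : ℕ) (b : O → ℚ) (R : Finset O), 0 < N ∧ Div O f ε v N b ∧ IsReps (N : O) R ∧
      ∑ x ∈ R, (b x : ℂ) * SS O ω ((x : ℂ) / N) ≠ 0 := by
  classical
  obtain ⟨t, ht, htn, hre⟩ := exists_re_ne hO hP hf hε hv h
  obtain ⟨N, hN, hNt⟩ := nat_denom hO ht
  have hN0 : (N : ℂ) ≠ 0 := Nat.cast_ne_zero.2 hN.ne'
  have hNO : (N : O) ≠ 0 := by
    intro hc
    have h1 := congrArg (fun x : O => (x : ℂ)) hc
    simp only [Subring.coe_natCast, Subring.coe_zero] at h1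
    exact hN0 h1
  obtain ⟨R, hR⟩ := exists_reps hO ((N : O) * f) (mul_ne_zero hNO hf)
  obtain ⟨R', hR'⟩ := exists_reps hO (N : O) hNO
  have hx0 : ¬ (N : O) ∣ (⟨(N : ℂ) * t, hNt⟩ : O) := by
    rintro ⟨c, hc⟩
    have h1 := congrArg (fun x : O => (x : ℂ)) hc
    simp only [Subring.coe_mul, Subring.coe_natCast] at h1
    have h2 : t = c := mul_left_cancel₀ hN0 h1
    exact htn (h2 ▸ c.2)
  refine ⟨N, orb hO ε v N ((N : O) * f) R ⟨(N : ℂ) * t, hNt⟩, R', hN,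
    orb_div hO hf hε hv hN hR _ hx0, hR', ?_⟩
  rw [orb_sum hO hP hf hε hv hN hR hR']
  have h3 : (((⟨(N : ℂ) * t, hNt⟩ : O) : ℂ)) / N = t := by
    rw [mul_div_assoc, mul_div_cancel₀ _ hN0]
  rw [h3]
  refine mul_ne_zero ?_ hre
  exact Nat.cast_ne_zero.2 (phi_pos hR).ne'

end Pool.Agent.TCL
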