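import Mathlib
import Pool.Agent.Lib_helper76.TCL.Defs
import Pool.Agent.Lib_helper76.TCL.Defs2
import Pool.Agent.Lib_helper76.TCL.P.QA
import Pool.Agent.Lib_helper76.TCL.P.QE
import Pool.Agent.Lib_helper76.TCL.P.QK
import Pool.Agent.Lib_helper76.TCL.P.QL
import Pool.Agent.Lib_helper76.TCL.P.QB
import Pool.Agent.Lib_helper76.TCL.P.QF
import Pool.Agent.Lib_helper76.TCL.P.AA
import Pool.Agent.Lib_helper76.TCL.P.AD
import Pool.Agent.Lib_helper76.TCL.P.SH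
import Pool.Agent.Lib_helper76.TCL.P.GE
import Pool.Agent.Lib_helper76.TCL.P.LA
import Pool.Agent.Lib_helper76.TCL.P.LC
import Pool.Agent.Lib_helper76.TCL.P.LD
import Pool.Agent.Lib_helper76.TCL.P.MA
import Pool.Agent.Lib_helper76.TCL.P.MC
import Pool.Agent.Lib_helper76.TCL.P.MF

set_option autoImplicit false

namespace Pool.Agent.TCL

open Complex

/-- the constant `κ = ± φ(f) / (w f)` -/
theorem fin_kappa {O : Subring ℂ} {ω : ℂ} (hO : Quad O ω) (hP : IsPrincipalIdealRing O)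
    {f : O} (hf : f ≠ 0) {ε : O → O} (hε : GC O f ε) :
    ∃ κ : KK O, κ ≠ 0 ∧ (κ : ℂ) * Sb O ω f ε (1 / (f : ℂ)) = LE O ε ∧
      ∀ R : Finset O, IsReps f R → (κ : ℂ) * ((Nat.card Oˣ : ℂ) * (f : ℂ)) = (phi f R : ℂ) ∨
        (κ : ℂ) * ((Nat.card Oˣ : ℂ) * (f : ℂ)) = -(phi f R : ℂ) := by
  classical
  obtain ⟨R, hR⟩ := exists_reps hO f hf
  have h1 := Sb_one_div hO hP hf hε hR
  have hphi : 0 < phi f R := phi_pos hR
  have hphi' : (phi f R : ℂ) ≠ 0 := by exact_mod_cast hphi.ne'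
  have : Finite Oˣ := finite_units hO
  have hW : (Nat.card Oˣ : ℂ) ≠ 0 := by
    have : 0 < Nat.card Oˣ := Nat.card_pos
    exact_mod_cast this.ne'
  have hfc : (f : ℂ) ≠ 0 := coe_ne_zero hf
  have hGv := GS_val hO hP hf hε hR
  have hG : GS O ω f ε R 1 ∈ KK O ∧ GS O ω f ε R 1 ≠ 0 := by
    rcases hGv with h | h
    · rw [h]; exact ⟨coe_mem_KK f, hfc⟩
    · rw [h]; exact ⟨neg_mem (coe_mem_KK f), neg_ne_zero.2 hfc⟩
  have hmem : (phi f R : ℂ) / ((Nat.card Oˣ : ℂ) * GS O ω f ε R 1) ∈ KK O :=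
    div_mem (natCast_mem _ _) (mul_mem (natCast_mem _ _) hG.1)
  refine ⟨⟨_, hmem⟩, ?_, ?_, ?_⟩
  · intro h0
    have : (phi f R : ℂ) / ((Nat.card Oˣ : ℂ) * GS O ω f ε R 1) = 0 := congrArg Subtype.val h0
    rw [div_eq_zero_iff] at this
    rcases this with h | h
    · exact hphi' h
    · exact (mul_ne_zero hW hG.2) h
  · show (phi f R : ℂ) / ((Nat.card Oˣ : ℂ) * GS O ω f ε R 1) * Sb O ω f ε (1 / (f : ℂ)) = LE O ε
    rw [div_mul_eq_mul_div, div_eq_iff (mul_ne_zero hW hG.2)]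
    linear_combination h1
  · intro R' hR'
    have hpp : phi f R' = phi f R := by
      have h5 := filter_reps hR' hR (fun _ : O => (1 : ℕ)) (fun _ _ => rfl)
      rw [Finset.sum_const, Finset.sum_const, smul_eq_mul, smul_eq_mul, mul_one, mul_one] at h5
      exact h5
    rw [hpp]
    show (phi f R : ℂ) / ((Nat.card Oˣ : ℂ) * GS O ω f ε R 1) * ((Nat.card Oˣ : ℂ) * (f : ℂ)) = _ ∨
      (phi f R : ℂ) / ((Nat.card Oˣ : ℂ) * GS O ω f ε R 1) * ((Nat.card Oˣ : ℂ) * (f : ℂ)) = _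
    rcases hGv with h | h
    · left
      rw [h]
      field_simp
    · right
      rw [h]
      field_simp

theorem fin_xN {O : Subring ℂ} {N : ℕ} (hN : 0 < N) (x : O) (hx : ¬ (N : O) ∣ x) :
    ((x : ℂ) / N) ∈ KK O ∧ ((x : ℂ) / N) ∉ O := by
  have hN' : (N : ℂ) ≠ 0 := by exact_mod_cast hN.ne'
  refine ⟨div_mem (coe_mem_KK x) (natCast_mem _ _), ?_⟩
  intro h
  apply hx
  refine ⟨⟨_, h⟩, ?_⟩
  apply Subtype.ext
  show (x : ℂ) = ((N : O) : ℂ) * ((x : ℂ) / N)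
  have : ((N : O) : ℂ) = (N : ℂ) := by norm_cast
  rw [this]
  field_simp

/-- for a divisor `b`, a coefficient `q(b) ∈ K` which works for all systems -/
theorem fin_q {O : Subring ℂ} {ω : ℂ} (hO : Quad O ω) (hP : IsPrincipalIdealRing O)
    {f : O} (hf : f ≠ 0) {ε : O → O} (hε : GC O f ε) {v : O} {N : ℕ} (hN : 0 < N) {b : O → ℚ}
    (hb : Div O f ε v N b) (R : Finset O) :
    ∃ q : KK O, ∀ (H : Type) [AddCommGroup H] [Module (KK O) H] (ξ : ℂ → H), Sys O f ε H ξ →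
      ∑ x ∈ R, ((b x : ℚ) : KK O) • ξ ((x : ℂ) / N) = q • ξ (1 / (f : ℂ)) := by
  classical
  have hN' : (N : ℂ) ≠ 0 := by exact_mod_cast hN.ne'
  have key : ∀ x : O, ∃ q : KK O, ∀ (H : Type) [AddCommGroup H] [Module (KK O) H] (ξ : ℂ → H),
      Sys O f ε H ξ → ((b x : ℚ) : KK O) • ξ ((x : ℂ) / N) = q • ξ (1 / (f : ℂ)) := by
    intro x
    by_cases hx : (N : O) ∣ x
    · refine ⟨0, ?_⟩
      intro H _ _ ξ _
      rw [hb.zero x hx]
      simp
    · obtain ⟨h1, h2⟩ := fin_xN hN x hx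
      obtain ⟨q, hq⟩ := xi_line hO hP hf hε ((x : ℂ) / N) h1 h2
      refine ⟨((b x : ℚ) : KK O) * q, ?_⟩
      intro H _ _ ξ hξ
      rw [hq H ξ hξ, mul_smul]
  choose q hq using key
  refine ⟨∑ x ∈ R, q x, ?_⟩
  intro H _ _ ξ hξ
  rw [Finset.sum_smul]
  exact Finset.sum_congr rfl (fun x _ => hq x H ξ hξ)

/-- for every unit `v` there is `δ ∈ K`, `δ ≠ 0`, with `conj δ = v δ` -/
theorem fin_delta {O : Subring ℂ} {ω : ℂ} (hO : Quad O ω) {v : O} (hv : IsUnit v) :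
    ∃ δ : KK O, δ ≠ 0 ∧ starRingEnd ℂ (δ : ℂ) = v * δ := by
  have hvv := unit_mul_conj hO v hv
  by_cases h1 : (1 : ℂ) + starRingEnd ℂ (v : ℂ) = 0
  · have hcv : starRingEnd ℂ (v : ℂ) = -1 := by linear_combination h1
    have hv1 : (v : ℂ) = -1 := by
      rw [hcv] at hvv
      linear_combination -hvv
    have hmem : ω - starRingEnd ℂ ω ∈ KK O :=
      sub_mem (coe_mem_KK ⟨ω, quad_omega hO⟩) (coe_mem_KK ⟨_, conj_mem hO (quad_omega hO)⟩)
    refine ⟨⟨_, hmem⟩, ?_, ?_⟩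
    · intro h
      have h2 : ω - starRingEnd ℂ ω = 0 := congrArg Subtype.val h
      have h3 : (ω - starRingEnd ℂ ω).im = 0 := by rw [h2]; simp
      simp at h3
      exact (ne_of_gt hO.im_pos) h3
    · show starRingEnd ℂ (ω - starRingEnd ℂ ω) = v * (ω - starRingEnd ℂ ω)
      rw [hv1, map_sub, starRingEnd_self_apply]
      ring
  · have hmem : (1 : ℂ) + starRingEnd ℂ (v : ℂ) ∈ KK O :=
      add_mem (one_mem _) (coe_mem_KK (cj hO v))
    refine ⟨⟨_, hmem⟩, ?_, ?_⟩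
    · intro h
      exact h1 (congrArg Subtype.val h)
    · show starRingEnd ℂ ((1 : ℂ) + starRingEnd ℂ (v : ℂ)) = v * ((1 : ℂ) + starRingEnd ℂ (v : ℂ))
      rw [map_add, map_one, starRingEnd_self_apply]
      linear_combination -hvv

theorem fin_core {O : Subring ℂ} {ω : ℂ} (hO : Quad O ω) (hP : IsPrincipalIdealRing O)
    {f : O} (hf : f ≠ 0) {ε : O → O} (hε : GC O f ε) {κ : KK O} (hκ : κ ≠ 0)
    (hκS : (κ : ℂ) * Sb O ω f ε (1 / (f : ℂ)) = LE O ε) {v : O} (hv : IsUnit v) {δ : KK O}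
    (hδ : δ ≠ 0) (hδv : starRingEnd ℂ (δ : ℂ) = v * δ) {N : ℕ} (hN : 0 < N) {b : O → ℚ}
    (hb : Div O f ε v N b) {R : Finset O} (hR : IsReps (N : O) R) :
    ∃ r : ℚ, ∑ x ∈ R, (b x : ℂ) * SS O ω ((x : ℂ) / N) = r * δ * LE O ε ∧
      ∀ (H : Type) [AddCommGroup H] [Module (KK O) H] (ξ : ℂ → H), Sys O f ε H ξ →
        ∑ x ∈ R, ((b x : ℚ) : KK O) • ξ ((x : ℂ) / N)
          = (r : KK O) • (δ * κ) • ξ (1 / (f : ℂ)) := by
  obtain ⟨q, hq⟩ := fin_q hO hP hf hε hN hb R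
  have hL := LE_ne_zero hO hP hf hε
  have hκ' : (κ : ℂ) ≠ 0 := by
    intro h; exact hκ (Subtype.ext h)
  have hδ' : (δ : ℂ) ≠ 0 := by
    intro h; exact hδ (Subtype.ext h)
  have hv0 : (v : ℂ) ≠ 0 := coe_ne_zero hv.ne_zero
  have h1 : ∑ x ∈ R, (b x : ℂ) * SS O ω ((x : ℂ) / N) = (q : ℂ) * Sb O ω f ε (1 / (f : ℂ)) := by
    rw [div_avg hO hP hf hε hN hb hR]
    have := hq ℂ (Sb O ω f ε) (Sb_sys hO hP hf hε)
    simpa [Subfield.smul_def] using this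
  set qk : KK O := q / (δ * κ) with hqk
  have h2 : ∑ x ∈ R, (b x : ℂ) * SS O ω ((x : ℂ) / N) = (qk : ℂ) * δ * LE O ε := by
    rw [h1, hqk, ← hκS]
    push_cast
    field_simp
  have h3 : starRingEnd ℂ (qk : ℂ) = qk := by
    have h4 := div_real hO hv hN hb hR
    rw [h2, map_mul, map_mul, LE_conj hO hε, hδv] at h4
    have h5 : starRingEnd ℂ (qk : ℂ) * ((v : ℂ) * δ * LE O ε)
        = (qk : ℂ) * ((v : ℂ) * δ * LE O ε) := by
      linear_combination h4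
    exact mul_right_cancel₀ (mul_ne_zero (mul_ne_zero hv0 hδ') hL) h5
  obtain ⟨r, hr⟩ := real_mem_KK hO qk.2 h3
  have hr' : qk = (r : KK O) := by
    apply Subtype.ext
    rw [hr]
    norm_cast
  refine ⟨r, ?_, ?_⟩
  · rw [h2, hr]
  · intro H _ _ ξ hξ
    rw [hq H ξ hξ, ← mul_smul, ← hr', hqk, div_mul_cancel₀ _ (mul_ne_zero hδ hκ)]

theorem fin_not_mem {O : Subring ℂ} (x n : O) (hn0 : n ≠ 0) (hnu : ¬ IsUnit n)
    (hx : IsCoprime x n) : ((x : ℂ) / (n : ℂ)) ∉ O := by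
  have hnc : (n : ℂ) ≠ 0 := coe_ne_zero hn0
  intro h
  apply hnu
  have hd : n ∣ x := by
    refine ⟨⟨_, h⟩, ?_⟩
    apply Subtype.ext
    show (x : ℂ) = n * ((x : ℂ) / (n : ℂ))
    field_simp
  exact hx.symm.isUnit_of_dvd hd

/-- the universal system -/
theorem fin_univ {O : Subring ℂ} {ω : ℂ} (hO : Quad O ω) (hP : IsPrincipalIdealRing O)
    {f : O} (hf : f ≠ 0) {ε : O → O} (hε : GC O f ε) (hne : Sb O ω f ε (1 / (f : ℂ)) ≠ 0) :
    ∃ q : ℂ → KK O, (Sys O f ε (KK O) q ∧ q (1 / (f : ℂ)) = 1 ∧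
      ∀ (H : Type) [AddCommGroup H] [Module (KK O) H] (ξ : ℂ → H), Sys O f ε H ξ →
        ∀ t ∈ KK O, t ∉ O → ξ t = q t • ξ (1 / (f : ℂ))) ∧
      (∀ x n : O, n ≠ 0 → ¬ IsUnit n → IsCoprime x n →
        (q ((x : ℂ) / (n : ℂ)) ≠ 0 ↔ f ∣ n)) := by
  classical
  let q : ℂ → KK O := fun t =>
    if h : t ∈ KK O ∧ t ∉ O then (xi_line hO hP hf hε t h.1 h.2).choose else 0
  have hq : ∀ (H : Type) [AddCommGroup H] [Module (KK O) H] (ξ : ℂ → H), Sys O f ε H ξ →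
        ∀ t ∈ KK O, t ∉ O → ξ t = q t • ξ (1 / (f : ℂ)) := by
    intro H _ _ ξ hξ t ht ht'
    have hqt : q t = (xi_line hO hP hf hε t ht ht').choose := dif_pos ⟨ht, ht'⟩
    rw [hqt]
    exact (xi_line hO hP hf hε t ht ht').choose_spec H ξ hξ
  have hSys := Sb_sys hO hP hf hε
  have hS : ∀ t ∈ KK O, t ∉ O → (q t : ℂ) * Sb O ω f ε (1 / (f : ℂ)) = Sb O ω f ε t := by
    intro t ht ht'
    have := hq ℂ (Sb O ω f ε) hSys t ht ht'
    rw [Subfield.smul_def, smul_eq_mul] at this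
    exact this.symm
  have hcan : ∀ a b : KK O, (a : ℂ) * Sb O ω f ε (1 / (f : ℂ))
      = (b : ℂ) * Sb O ω f ε (1 / (f : ℂ)) → a = b := by
    intro a b h
    exact Subtype.ext (mul_right_cancel₀ hne h)
  have hq0 : ∀ t ∈ O, q t = 0 := fun t ht => dif_neg (fun h => h.2 ht)
  have hf1 : (1 / (f : ℂ)) ∈ KK O := div_mem (one_mem _) (coe_mem_KK f)
  have hf2 : (1 / (f : ℂ)) ∉ O := by
    have := fin_not_mem (1 : O) f hf (f_not_unit hε) isCoprime_one_left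
    simpa using this
  refine ⟨q, ⟨⟨?_, ?_, ?_⟩, ?_, hq⟩, ?_⟩
  · intro t ht a
    by_cases hto : t ∈ O
    · rw [hq0 t hto, hq0 _ (add_mem hto a.2)]
    · have h1 : t + a ∉ O := by
        intro h
        apply hto
        have := sub_mem h a.2
        simpa using this
      have h2 : t + a ∈ KK O := add_mem ht (coe_mem_KK a)
      apply hcan
      rw [hS _ h2 h1, hS t ht hto]
      exact hSys.per t ht a
  · intro t ht hto a ha R hR c hc
    apply hcan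
    have hac : (a : ℂ) ≠ 0 := coe_ne_zero ha
    have h1 : ∀ k ∈ R, (q ((t + k) / a) : ℂ) * Sb O ω f ε (1 / (f : ℂ))
        = Sb O ω f ε ((t + k) / a) := by
      intro k _
      refine hS _ (div_mem (add_mem ht (coe_mem_KK k)) (coe_mem_KK a)) ?_
      intro h
      apply hto
      have h2 := sub_mem (mul_mem h a.2) k.2
      rw [div_mul_cancel₀ _ hac] at h2
      simpa using h2
    have h3 := hSys.dist t ht hto a ha R hR c hc
    rw [Subfield.smul_def, smul_eq_mul] at h3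
    have h4 : ((∑ k ∈ R, q ((t + k) / a) : KK O) : ℂ) = ∑ k ∈ R, (q ((t + k) / a) : ℂ) := by
      push_cast
      rfl
    rw [h4, Finset.sum_mul, Finset.sum_congr rfl h1, h3, smul_eq_mul]
    push_cast
    rw [mul_assoc, hS t ht hto]
  · intro t ht hto n a hn hnt ha
    have hau := hε.unit a (IsCoprime.of_mul_right_right ha)
    have h1 : (ε a : ℂ) * a * t ∉ O := by
      intro h
      obtain ⟨v, hv⟩ := hau.exists_left_inv
      have hvc : (v : ℂ) * (ε a : ℂ) = 1 := by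
        have := congrArg (Subtype.val) hv
        simpa using this
      have h2 : (a : ℂ) * t ∈ O := by
        have := mul_mem v.2 h
        have e : (v : ℂ) * ((ε a : ℂ) * a * t) = (a : ℂ) * t := by
          linear_combination (a : ℂ) * t * hvc
        rw [e] at this
        exact this
      obtain ⟨x, y, hxy⟩ := IsCoprime.of_mul_right_left ha
      have hxyc : (x : ℂ) * a + y * n = 1 := by
        have := congrArg (Subtype.val) hxy
        simpa using this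
      apply hto
      have e : t = (x : ℂ) * ((a : ℂ) * t) + (y : ℂ) * ((n : ℂ) * t) := by
        linear_combination (-t) * hxyc
      rw [e]
      exact add_mem (mul_mem x.2 h2) (mul_mem y.2 hnt)
    have h2 : (ε a : ℂ) * a * t ∈ KK O := mul_mem (mul_mem (coe_mem_KK _) (coe_mem_KK _)) ht
    apply hcan
    rw [hS _ h2 h1, hS t ht hto]
    exact hSys.gal t ht hto n a hn hnt ha
  · apply hcan
    rw [hS _ hf1 hf2]
    push_cast
    ring
  · intro x n hn0 hnu hx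
    have h1 := fin_not_mem x n hn0 hnu hx
    have h2 : ((x : ℂ) / (n : ℂ)) ∈ KK O := div_mem (coe_mem_KK x) (coe_mem_KK n)
    obtain ⟨q', hq1, hq2⟩ := xi_reduced hO hP hf hε x n hn0 hx h1
    have h3 : q ((x : ℂ) / (n : ℂ)) = q' := by
      apply hcan
      rw [hS _ h2 h1]
      have := hq2 ℂ (Sb O ω f ε) hSys
      rw [Subfield.smul_def, smul_eq_mul] at this
      exact this
    rw [h3, Ne, hq1, not_not]

theorem FIN_main {O : Subring ℂ} {ω : ℂ} (hO : Quad O ω) (hP : IsPrincipalIdealRing O)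
    {f : O} (hf : f ≠ 0) {ε : O → O} (hε : GC O f ε) :
    LE O ε ≠ 0 ∧
    ∃ (q : ℂ → KK O) (κ : KK O),
      (Sys O f ε (KK O) q ∧ q (1 / (f : ℂ)) = 1 ∧
        ∀ (H : Type) [AddCommGroup H] [Module (KK O) H] (ξ : ℂ → H), Sys O f ε H ξ →
          ∀ t ∈ KK O, t ∉ O → ξ t = q t • ξ (1 / (f : ℂ))) ∧
      (∀ x n : O, n ≠ 0 → ¬ IsUnit n → IsCoprime x n →
        (q ((x : ℂ) / (n : ℂ)) ≠ 0 ↔ f ∣ n)) ∧
      (∀ (M : O) (R : Finset O) (t : ℂ), f ∣ M → M ≠ 0 → IsReps M R → t ∉ O →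
        (M : ℂ) * t ∈ O → (κ : ℂ) * AV O ω ε M R t = q t * LE O ε) ∧
      (κ ≠ 0 ∧ ∀ R : Finset O, IsReps f R →
        (κ : ℂ) * ((Nat.card Oˣ : ℂ) * (f : ℂ)) = (phi f R : ℂ) ∨
        (κ : ℂ) * ((Nat.card Oˣ : ℂ) * (f : ℂ)) = -(phi f R : ℂ)) ∧
      ∀ v : O, IsUnit v → ∃ δ : KK O, δ ≠ 0 ∧ starRingEnd ℂ (δ : ℂ) = v * δ ∧
        (∀ (N : ℕ) (b : O → ℚ), 0 < N → Div O f ε v N b →
          ∃ r : ℚ, ∀ R : Finset O, IsReps (N : O) R →
            ∑ x ∈ R, (b x : ℂ) * SS O ω ((x : ℂ) / N) = r * δ * LE O ε ∧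
            ∀ (H : Type) [AddCommGroup H] [Module (KK O) H] (ξ : ℂ → H), Sys O f ε H ξ →
              ∑ x ∈ R, ((b x : ℚ) : KK O) • ξ ((x : ℂ) / N)
                = (r : KK O) • (δ * κ) • ξ (1 / (f : ℂ))) ∧
        (∃ (N : ℕ) (b : O → ℚ) (R : Finset O), 0 < N ∧ Div O f ε v N b ∧ IsReps (N : O) R ∧
          ∑ x ∈ R, (b x : ℂ) * SS O ω ((x : ℂ) / N) ≠ 0) := by
  classical
  have hL := LE_ne_zero hO hP hf hε
  obtain ⟨κ, hκ, hκS, hκe⟩ := fin_kappa hO hP hf hε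
  have hne : Sb O ω f ε (1 / (f : ℂ)) ≠ 0 := by
    intro h
    rw [h, mul_zero] at hκS
    exact hL hκS.symm
  obtain ⟨q, hq1, hq2⟩ := fin_univ hO hP hf hε hne
  refine ⟨hL, q, κ, hq1, hq2, ?_, ⟨hκ, hκe⟩, ?_⟩
  · intro M R t hM hM0 hR hto hMt
    have htK : t ∈ KK O := by
      have hMc : (M : ℂ) ≠ 0 := coe_ne_zero hM0
      have : t = ((⟨_, hMt⟩ : O) : ℂ) / (M : ℂ) := by
        show t = (M : ℂ) * t / (M : ℂ)
        field_simp
      rw [this]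
      exact div_mem (coe_mem_KK _) (coe_mem_KK M)
    rw [← Sb_eq hO hP hε hM hM0 hR hMt]
    have h1 := hq1.2.2 ℂ (Sb O ω f ε) (Sb_sys hO hP hf hε) t htK hto
    rw [Subfield.smul_def, smul_eq_mul] at h1
    rw [h1, ← hκS]
    ring
  intro v hv
  obtain ⟨δ, hδ, hδv⟩ := fin_delta hO hv
  refine ⟨δ, hδ, hδv, ?_, exists_div hO hP hf hε hv hne⟩
  intro N b hN hb
  have hN0 : (N : O) ≠ 0 := by
    have : (N : ℂ) ≠ 0 := by exact_mod_cast hN.ne'
    intro h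
    apply this
    have h' := congrArg (Subtype.val) h
    simpa using h'
  obtain ⟨R0, hR0⟩ := exists_reps hO (N : O) hN0
  obtain ⟨r, hr1, hr2⟩ := fin_core hO hP hf hε hκ hκS hv hδ hδv hN hb hR0
  refine ⟨r, ?_⟩
  have hxy : ∀ x y : O, (((x + (N : O) * y : O) : ℂ) / (N : ℂ)) = (x : ℂ) / N + y := by
    intro x y
    have : (N : ℂ) ≠ 0 := by exact_mod_cast hN.ne'
    push_cast
    field_simp
  intro R hR
  refine ⟨?_, ?_⟩
  · rw [← hr1]
    refine sum_reps hR hR0 (fun x => (b x : ℂ) * SS O ω ((x : ℂ) / N)) ?_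
    intro x y
    rw [hb.per x y, hxy x y, SS_per hO]
  · intro H _ _ ξ hξ
    rw [← hr2 H ξ hξ]
    refine sum_reps hR hR0 (fun x => ((b x : ℚ) : KK O) • ξ ((x : ℂ) / N)) ?_
    intro x y
    rw [hb.per x y, hxy x y, hξ.per _ (div_mem (coe_mem_KK x) (natCast_mem _ _))]

end Pool.Agent.TCL
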