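import Mathlib
import Pool.Agent.Lib_helper76.TCL.Defs
import Pool.Agent.Lib_helper76.TCL.Defs2
import Pool.Agent.Lib_helper76.TCL.P.QK
import Pool.Agent.Lib_helper76.TCL.P.QL
import Pool.Agent.Lib_helper76.TCL.P.QB
import Pool.Agent.Lib_helper76.TCL.P.QF
import Pool.Agent.Lib_helper76.TCL.P.SI
import Pool.Agent.Lib_helper76.TCL.P.SE

set_option autoImplicit false

namespace Pool.Agent.TCL

open Complex

theorem Sb_per {O : Subring ℂ} {ω : ℂ} (hO : Quad O ω) (hP : IsPrincipalIdealRing O) {f : O}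
    (hf : f ≠ 0) {ε : O → O} (hε : GC O f ε) {t : ℂ} (ht : t ∈ KK O) (a : O) :
    Sb O ω f ε (t + a) = Sb O ω f ε t := by
  classical
  obtain ⟨N, hN, hNt⟩ := nat_denom hO ht
  have hN0 : (N : O) ≠ 0 := by
    intro h
    have h1 : ((N : O) : ℂ) = 0 := by rw [h]; rfl
    have h2 : (N : ℂ) = 0 := by simpa using h1
    exact hN.ne' (by exact_mod_cast h2)
  have hM0 : f * (N : O) ≠ 0 := mul_ne_zero hf hN0
  obtain ⟨R, hR⟩ := exists_reps hO (f * (N : O)) hM0
  have hMt : ((f * (N : O) : O) : ℂ) * t ∈ O := by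
    have h1 : ((f * (N : O) : O) : ℂ) * t = (f : ℂ) * ((N : ℂ) * t) := by
      push_cast
      ring
    rw [h1]
    exact O.mul_mem f.2 hNt
  have hMta : ((f * (N : O) : O) : ℂ) * (t + a) ∈ O := by
    rw [mul_add]
    exact O.add_mem hMt (O.mul_mem (f * (N : O)).2 a.2)
  rw [Sb_eq hO hP hε (dvd_mul_right f _) hM0 hR hMta, Sb_eq hO hP hε (dvd_mul_right f _) hM0 hR hMt]
  unfold AV
  congr 1
  refine Finset.sum_congr rfl fun b _ => ?_
  have h1 : (ε b : ℂ) * (b : ℂ) * (t + a) = (ε b : ℂ) * (b : ℂ) * t + ((ε b * b * a : O) : ℂ) := by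
    push_cast
    ring
  rw [h1, SS_per hO]

theorem Sb_gal {O : Subring ℂ} {ω : ℂ} (hO : Quad O ω) (hP : IsPrincipalIdealRing O) {f : O}
    (hf : f ≠ 0) {ε : O → O} (hε : GC O f ε) {t : ℂ} (n a : O) (hn : n ≠ 0)
    (hnt : (n : ℂ) * t ∈ O) (ha : IsCoprime a (n * f)) :
    Sb O ω f ε (ε a * a * t) = Sb O ω f ε t := by
  classical
  have hM0 : n * f ≠ 0 := mul_ne_zero hn hf
  obtain ⟨R, hR⟩ := exists_reps hO (n * f) hM0
  have hMt : ((n * f : O) : ℂ) * t ∈ O := by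
    have h1 : ((n * f : O) : ℂ) * t = (f : ℂ) * ((n : ℂ) * t) := by
      push_cast
      ring
    rw [h1]
    exact O.mul_mem f.2 hnt
  have hMta : ((n * f : O) : ℂ) * (ε a * a * t) ∈ O := by
    have h1 : ((n * f : O) : ℂ) * (ε a * a * t) = ((ε a * a : O) : ℂ) * (((n * f : O) : ℂ) * t) := by
      push_cast
      ring
    rw [h1]
    exact O.mul_mem (ε a * a).2 hMt
  rw [Sb_eq hO hP hε (dvd_mul_left f _) hM0 hR hMta, Sb_eq hO hP hε (dvd_mul_left f _) hM0 hR hMt]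
  unfold AV
  congr 1
  have h2 := filter_mul_coprime hR (fun x : O => SS O ω (ε x * x * t))
    (fun x y => orbit_per hO hε (dvd_mul_left f n) hMt x y) a ha
  rw [← h2]
  refine Finset.sum_congr rfl fun b _ => ?_
  have h3 : (ε b : ℂ) * (b : ℂ) * (ε a * a * t) =
      ((ε (a * b) : O) : ℂ) * ((a * b : O) : ℂ) * t := by
    rw [hε.mul]
    push_cast
    ring
  rw [h3]

end Pool.Agent.TCL
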