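import Mathlib
import Pool.Agent.Lib_helper76.TCL.Defs
import Pool.Agent.Lib_helper76.TCL.Defs2
import Pool.Agent.Lib_helper76.TCL.P.SF
import Pool.Agent.Lib_helper76.TCL.P.SG

set_option autoImplicit false

namespace Pool.Agent.TCL

open Complex

theorem Sb_sys {O : Subring ℂ} {ω : ℂ} (hO : Quad O ω) (hP : IsPrincipalIdealRing O) {f : O}
    (hf : f ≠ 0) {ε : O → O} (hε : GC O f ε) : Sys O f ε ℂ (Sb O ω f ε) := by
  refine ⟨?_, ?_, ?_⟩
  · intro t ht a
    exact Sb_per hO hP hf hε ht a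
  · intro t ht _ a ha R hR c hc
    rw [Sb_dist hO hP hf hε ht ha hR, Subfield.smul_def, smul_eq_mul]
    have h1 : ((a : ℂ) * starRingEnd ℂ (a : ℂ) ^ 2) ≠ 0 := by
      intro h
      rw [h, mul_zero] at hc
      exact zero_ne_one hc
    rw [div_eq_iff h1]
    linear_combination (-(Sb O ω f ε t)) * hc
  · intro t _ _ n a hn hnt ha
    exact Sb_gal hO hP hf hε n a hn hnt ha

end Pool.Agent.TCL
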